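import Mathlib

/-!
# MP_8b37c6_an, plane case: Poisson kernel, dual inequality
-/

namespace TBP

open Complex Metric InnerProductSpace Real MeasureTheory

/-- harmonic extension of the sign of the first coordinate, on the positive axis -/
noncomputable def U (r : ℝ) : ℝ := 4 / π * Real.arctan r

/-- Poisson kernel at a real point -/
noncomputable def P (r θ : ℝ) : ℝ := (1 - r ^ 2) / (1 + r ^ 2 - 2 * r * Real.cos θ)

/-- the sign of the cosine -/
noncomputable def sg (θ : ℝ) : ℝ := if 0 ≤ Real.cos θ then 1 else -1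

theorem den_pos {r : ℝ} (hr : |r| < 1) (θ : ℝ) : 0 < 1 + r ^ 2 - 2 * r * Real.cos θ := by
  obtain ⟨h1, h2⟩ := abs_lt.1 hr
  nlinarith [Real.neg_one_le_cos θ, Real.cos_le_one θ, Real.sin_sq_add_cos_sq θ, sq_nonneg (r - Real.cos θ),
    sq_nonneg (Real.sin θ), mul_pos (sub_pos.2 h2) (sub_pos.2 h1)]

theorem P_cont {r : ℝ} (hr : |r| < 1) : Continuous (P r) := by
  unfold P
  exact continuous_const.div (by fun_prop) fun θ => (den_pos hr θ).ne'

theorem pk (r θ : ℝ) : poissonKernel 0 (r : ℂ) (circleMap 0 1 θ) = P r θ := by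
  unfold poissonKernel P
  have h1 : ‖circleMap 0 1 θ - 0‖ = 1 := by simp [circleMap]
  have h2 : ‖(circleMap 0 1 θ - 0) - ((r : ℂ) - 0)‖ ^ 2 = 1 + r ^ 2 - 2 * r * Real.cos θ := by
    rw [← Complex.normSq_eq_norm_sq, Complex.normSq_apply]
    simp [circleMap, Complex.exp_ofReal_mul_I_re, Complex.exp_ofReal_mul_I_im]
    nlinarith [Real.sin_sq_add_cos_sq θ]
  rw [h1, h2]
  simp

theorem poisson_real {v : ℂ → ℝ} (hv : HarmonicOnNhd v (closedBall 0 1)) {r : ℝ} (hr : |r| < 1) :
    v r = (2 * π)⁻¹ * ∫ θ in (0 : ℝ)..(2 * π), P r θ * v (circleMap 0 1 θ) := by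
  have h := hv.circleAverage_poissonKernel_smul (w := (r : ℂ)) (by simpa using hr)
  rw [← h, Real.circleAverage]
  simp only [Pi.smul_apply', smul_eq_mul, pk]

theorem P_total {r : ℝ} (hr : |r| < 1) : ∫ θ in (0 : ℝ)..(2 * π), P r θ = 2 * π := by
  have h := poisson_real (v := fun _ => (1 : ℝ)) (harmonicOnNhd_const 1) hr
  simp only [mul_one] at h
  have : (2 * π) ≠ 0 := by positivity
  field_simp at h
  linarith

theorem P_periodic (r : ℝ) : Function.Periodic (P r) (2 * π) := by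
  intro θ
  simp [P]

theorem P_half {r : ℝ} (hr : |r| < 1) : ∫ θ in (-(π / 2))..(π / 2), P r θ = 4 * Real.arctan ((1 + r) / (1 - r)) := by
  obtain ⟨h1, h2⟩ := abs_lt.1 hr
  set B := (1 + r) / (1 - r) with hB
  have hB0 : 0 < B := div_pos (by linarith) (by linarith)
  have hd : ∀ θ ∈ Set.uIcc (-(π / 2)) (π / 2), HasDerivAt (fun θ => 2 * Real.arctan (B * Real.tan (θ / 2))) (P r θ) θ := by
    intro θ hθ
    rw [Set.uIcc_of_le (by linarith [Real.pi_pos])] at hθ
    have hc : 0 < Real.cos (θ / 2) := Real.cos_pos_of_mem_Ioo ⟨by linarith [hθ.1, Real.pi_pos], by linarith [hθ.2, Real.pi_pos]⟩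
    have h3 : HasDerivAt (fun θ : ℝ => θ / 2) (1 / 2) θ := (hasDerivAt_id θ).div_const 2
    have h4 := (Real.hasDerivAt_tan hc.ne').comp θ h3
    have h5 := ((h4.const_mul B).arctan).const_mul 2
    refine h5.congr_deriv ?_
    simp only [Function.comp]
    unfold P
    have hcos : Real.cos θ = 2 * Real.cos (θ / 2) ^ 2 - 1 := by
      rw [← Real.cos_two_mul]; ring_nf
    have hs : Real.sin (θ / 2) ^ 2 = 1 - Real.cos (θ / 2) ^ 2 := by
      nlinarith [Real.sin_sq_add_cos_sq (θ / 2)]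
    rw [Real.tan_eq_sin_div_cos, hcos, hB]
    have h1r : (1 - r) ≠ 0 := by linarith
    set c := Real.cos (θ / 2) with hcdef
    set s := Real.sin (θ / 2) with hsdef
    have e1 : 1 + ((1 + r) / (1 - r) * (s / c)) ^ 2 = ((1 - r) ^ 2 * c ^ 2 + (1 + r) ^ 2 * s ^ 2) / ((1 - r) ^ 2 * c ^ 2) := by
      field_simp
    have hpos : 0 < (1 - r) ^ 2 * c ^ 2 + (1 + r) ^ 2 * s ^ 2 := by
      have : 0 < (1 - r) ^ 2 * c ^ 2 := by
        have : 0 < 1 - r := by linarith
        positivity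
      positivity
    have e2 : (1 - r) ^ 2 * c ^ 2 + (1 + r) ^ 2 * s ^ 2 = 1 + r ^ 2 - 2 * r * (2 * c ^ 2 - 1) := by
      rw [hs]; ring
    rw [e1, e2]
    rw [e2] at hpos
    have hne := hpos.ne'
    field_simp
    ring
  rw [intervalIntegral.integral_eq_sub_of_hasDerivAt hd ((P_cont hr).intervalIntegrable _ _)]
  have e3 : Real.tan (π / 2 / 2) = 1 := by
    rw [show π / 2 / 2 = π / 4 by ring]; exact Real.tan_pi_div_four
  have e4 : Real.tan (-(π / 2) / 2) = -1 := by
    rw [show -(π / 2) / 2 = -(π / 4) by ring, Real.tan_neg, Real.tan_pi_div_four]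
  simp only [e3, e4, mul_one, mul_neg, Real.arctan_neg]
  ring

theorem arctan_B {r : ℝ} (hr : |r| < 1) : Real.arctan ((1 + r) / (1 - r)) = π / 4 + Real.arctan r := by
  obtain ⟨h1, h2⟩ := abs_lt.1 hr
  have h := Real.arctan_add (x := 1) (y := r) (by linarith)
  rw [Real.arctan_one, one_mul] at h
  exact h.symm

theorem sg_abs (θ : ℝ) : |sg θ| ≤ 1 := by
  unfold sg
  split_ifs <;> simp

theorem sg_meas : Measurable sg := by
  unfold sg
  exact Measurable.ite (measurableSet_le measurable_const Real.measurable_cos) measurable_const measurable_const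

theorem int_P_sg {r : ℝ} (hr : |r| < 1) (x y : ℝ) : IntervalIntegrable (fun θ => P r θ * sg θ) volume x y := by
  have h := (P_cont hr).intervalIntegrable (μ := volume) x y
  have hb : ∀ θ : ℝ, ‖sg θ‖ ≤ 1 := fun θ => by simpa using sg_abs θ
  exact ⟨Integrable.mul_bdd (c := 1) h.1 sg_meas.aestronglyMeasurable (Filter.Eventually.of_forall hb),
    Integrable.mul_bdd (c := 1) h.2 sg_meas.aestronglyMeasurable (Filter.Eventually.of_forall hb)⟩

theorem int_sgn {r : ℝ} (hr : |r| < 1) : (2 * π)⁻¹ * ∫ θ in (0 : ℝ)..(2 * π), P r θ * sg θ = U r := by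
  have hint : ∀ x y : ℝ, IntervalIntegrable (P r) volume x y := fun x y => (P_cont hr).intervalIntegrable x y
  have hp := Real.pi_pos
  have e1 : ∫ θ in (0 : ℝ)..(π / 2), P r θ * sg θ = ∫ θ in (0 : ℝ)..(π / 2), P r θ := by
    refine intervalIntegral.integral_congr fun θ hθ => ?_
    rw [Set.uIcc_of_le (by linarith)] at hθ
    have : 0 ≤ Real.cos θ := Real.cos_nonneg_of_mem_Icc ⟨by linarith [hθ.1], hθ.2⟩
    simp [sg, this]
  have e2 : ∫ θ in (π / 2)..(3 * π / 2), P r θ * sg θ = ∫ θ in (π / 2)..(3 * π / 2), -P r θ := by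
    refine intervalIntegral.integral_congr_ae ?_
    have h0 : ∀ᵐ θ : ℝ, θ ∉ ({3 * π / 2} : Set ℝ) := (Set.countable_singleton _).ae_notMem _
    filter_upwards [h0] with θ h1 hθ
    rw [Set.uIoc_of_le (by linarith)] at hθ
    have h2 : Real.cos θ < 0 := by
      have h3 : θ < 3 * π / 2 := lt_of_le_of_ne hθ.2 (by simpa using h1)
      exact Real.cos_neg_of_pi_div_two_lt_of_lt hθ.1 (by linarith)
    have : ¬ (0 ≤ Real.cos θ) := not_le.2 h2
    simp [sg, this]
  have e3 : ∫ θ in (3 * π / 2)..(2 * π), P r θ * sg θ = ∫ θ in (3 * π / 2)..(2 * π), P r θ := by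
    refine intervalIntegral.integral_congr fun θ hθ => ?_
    rw [Set.uIcc_of_le (by linarith)] at hθ
    have : 0 ≤ Real.cos θ := by
      rw [← Real.cos_sub_two_pi]
      exact Real.cos_nonneg_of_mem_Icc ⟨by linarith [hθ.1], by linarith [hθ.2]⟩
    simp [sg, this]
  have hint2 : ∀ x y : ℝ, IntervalIntegrable (fun θ => P r θ * sg θ) volume x y := int_P_sg hr
  have e4 : ∫ θ in (3 * π / 2)..(2 * π), P r θ = ∫ θ in (-(π / 2))..(0 : ℝ), P r θ := by
    have := intervalIntegral.integral_comp_add_right (P r) (2 * π) (a := -(π / 2)) (b := 0)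
    rw [show -(π / 2) + 2 * π = 3 * π / 2 by ring, zero_add] at this
    rw [← this]
    refine intervalIntegral.integral_congr fun θ _ => ?_
    exact P_periodic r θ
  have e5 : ∫ θ in (0 : ℝ)..(2 * π), P r θ * sg θ = (∫ θ in (0 : ℝ)..(π / 2), P r θ * sg θ) +
      (∫ θ in (π / 2)..(3 * π / 2), P r θ * sg θ) + ∫ θ in (3 * π / 2)..(2 * π), P r θ * sg θ := by
    rw [intervalIntegral.integral_add_adjacent_intervals (hint2 _ _) (hint2 _ _),
      intervalIntegral.integral_add_adjacent_intervals (hint2 _ _) (hint2 _ _)]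
  have e6 : ∫ θ in (0 : ℝ)..(2 * π), P r θ = (∫ θ in (0 : ℝ)..(π / 2), P r θ) +
      (∫ θ in (π / 2)..(3 * π / 2), P r θ) + ∫ θ in (3 * π / 2)..(2 * π), P r θ := by
    rw [intervalIntegral.integral_add_adjacent_intervals (hint _ _) (hint _ _),
      intervalIntegral.integral_add_adjacent_intervals (hint _ _) (hint _ _)]
  have e7 : ∫ θ in (-(π / 2))..(π / 2), P r θ = (∫ θ in (-(π / 2))..(0 : ℝ), P r θ) + ∫ θ in (0 : ℝ)..(π / 2), P r θ := by
    rw [intervalIntegral.integral_add_adjacent_intervals (hint _ _) (hint _ _)]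
  rw [P_total hr] at e6
  rw [P_half hr, arctan_B hr] at e7
  rw [e5, e1, e2, e3, intervalIntegral.integral_neg]
  rw [e4] at e6 ⊢
  unfold U
  have : (2 * π)⁻¹ * ((∫ θ in (0 : ℝ)..(π / 2), P r θ) + -(∫ θ in (π / 2)..(3 * π / 2), P r θ) + ∫ θ in (-(π / 2))..(0 : ℝ), P r θ) =
      (2 * π)⁻¹ * (2 * (4 * (π / 4 + Real.arctan r)) - 2 * π) := by
    congr 1
    linarith
  rw [this]
  field_simp
  ring

/-- the dual inequality -/
theorem dual {v : ℂ → ℝ} (hv : HarmonicOnNhd v (closedBall 0 1)) (hb : ∀ z ∈ closedBall (0 : ℂ) 1, |v z| ≤ 1)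
    {a b l1 l2 : ℝ} (ha : |a| < 1) (hb1 : |b| < 1)
    (hK : ∀ θ : ℝ, 0 ≤ Real.cos θ * (P b θ - l1 * P a θ + l2 * P (-a) θ))
    (hK0 : ∀ θ : ℝ, Real.cos θ = 0 → P b θ - l1 * P a θ + l2 * P (-a) θ = 0) :
    v b - l1 * v a + l2 * v ((-a : ℝ) : ℂ) ≤ U b - l1 * U a - l2 * U a := by
  have ha' : |(-a)| < 1 := by rwa [abs_neg]
  have hUa : U (-a) = - U a := by simp [U, Real.arctan_neg]
  have hvc : Continuous fun θ : ℝ => v (circleMap 0 1 θ) := by
    have h1 : ContinuousOn v (closedBall 0 1) := hv.continuousOn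
    refine h1.comp_continuous (continuous_circleMap 0 1) fun θ => ?_
    simp [circleMap]
  have hint : ∀ r : ℝ, |r| < 1 → IntervalIntegrable (fun θ => P r θ * v (circleMap 0 1 θ)) volume 0 (2 * π) :=
    fun r hr => ((P_cont hr).mul hvc).intervalIntegrable _ _
  have hint2 : ∀ r : ℝ, |r| < 1 → IntervalIntegrable (fun θ => P r θ * sg θ) volume 0 (2 * π) :=
    fun r hr => int_P_sg hr _ _
  have e1 : v b - l1 * v a + l2 * v ((-a : ℝ) : ℂ) = (2 * π)⁻¹ * ∫ θ in (0 : ℝ)..(2 * π),
      (P b θ * v (circleMap 0 1 θ) - l1 * (P a θ * v (circleMap 0 1 θ)) + l2 * (P (-a) θ * v (circleMap 0 1 θ))) := by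
    rw [intervalIntegral.integral_add ((hint b hb1).sub ((hint a ha).const_mul l1)) ((hint (-a) ha').const_mul l2),
      intervalIntegral.integral_sub (hint b hb1) ((hint a ha).const_mul l1), intervalIntegral.integral_const_mul,
      intervalIntegral.integral_const_mul, poisson_real hv hb1, poisson_real hv ha, poisson_real hv ha']
    ring
  have e2 : U b - l1 * U a - l2 * U a = (2 * π)⁻¹ * ∫ θ in (0 : ℝ)..(2 * π),
      (P b θ * sg θ - l1 * (P a θ * sg θ) + l2 * (P (-a) θ * sg θ)) := by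
    rw [intervalIntegral.integral_add ((hint2 b hb1).sub ((hint2 a ha).const_mul l1)) ((hint2 (-a) ha').const_mul l2),
      intervalIntegral.integral_sub (hint2 b hb1) ((hint2 a ha).const_mul l1), intervalIntegral.integral_const_mul,
      intervalIntegral.integral_const_mul]
    have := int_sgn ha'
    rw [hUa] at this
    have h1 := int_sgn ha
    have h2 := int_sgn hb1
    linear_combination (-1 : ℝ) * h2 + l1 * h1 - l2 * this
  rw [e1, e2]
  refine mul_le_mul_of_nonneg_left ?_ (by positivity)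
  refine intervalIntegral.integral_mono_on (by positivity)
    (((hint b hb1).sub ((hint a ha).const_mul l1)).add ((hint (-a) ha').const_mul l2))
    (((hint2 b hb1).sub ((hint2 a ha).const_mul l1)).add ((hint2 (-a) ha').const_mul l2)) fun θ _ => ?_
  have h3 : |v (circleMap 0 1 θ)| ≤ 1 := hb _ (by simp [circleMap])
  obtain ⟨h4, h5⟩ := abs_le.1 h3
  have h6 := hK θ
  have h7 := hK0 θ
  set K := P b θ - l1 * P a θ + l2 * P (-a) θ with hKdef
  have e3 : P b θ * v (circleMap 0 1 θ) - l1 * (P a θ * v (circleMap 0 1 θ)) + l2 * (P (-a) θ * v (circleMap 0 1 θ)) =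
      K * v (circleMap 0 1 θ) := by rw [hKdef]; ring
  have e4 : P b θ * sg θ - l1 * (P a θ * sg θ) + l2 * (P (-a) θ * sg θ) = K * sg θ := by rw [hKdef]; ring
  rw [e3, e4]
  unfold sg
  split_ifs with hc
  · rcases hc.eq_or_lt with hc0 | hc0
    · rw [h7 hc0.symm]; simp
    · have : 0 ≤ K := by
        by_contra hneg
        push Not at hneg
        nlinarith
      nlinarith
  · push Not at hc
    have : K ≤ 0 := by
      by_contra hneg
      push Not at hneg
      nlinarith
    nlinarith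

end TBP
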