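import Pool.Agent.Lib.MP_8b37c6_anP.A

/-!
# MP_8b37c6_an, plane case: the linear bounds
-/

namespace TBP

open Complex Metric InnerProductSpace Real MeasureTheory

/-- slope above the kink -/
noncomputable def s1 (a b : ℝ) : ℝ := (1 - b ^ 2) * (1 + a ^ 2) / ((1 + b ^ 2) * (1 - a ^ 2))

/-- a times the slope below the kink -/
noncomputable def T0 (b : ℝ) : ℝ := b * (1 - b) / ((1 + b ^ 2) * (1 + b))

theorem lin {v : ℂ → ℝ} (hv : HarmonicOnNhd v (closedBall 0 1)) (hb : ∀ z ∈ closedBall (0 : ℂ) 1, |v z| ≤ 1)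
    {a b S m : ℝ} (ha : 0 < a) (hab : a < b) (hb1 : b < 1) (hS : s1 a b ≤ S)
    (h1 : 0 ≤ 2 * b * (1 - a ^ 4) * s1 a b - 2 * a * (1 - a ^ 2) * (1 + b ^ 2) * S +
      (4 * a * b * S * (1 - a ^ 2) - 4 * a ^ 2 * (1 - b ^ 2)))
    (h2 : 0 ≤ 2 * b * (1 - a ^ 4) * s1 a b - 2 * a * (1 - a ^ 2) * (1 + b ^ 2) * S -
      (4 * a * b * S * (1 - a ^ 2) - 4 * a ^ 2 * (1 - b ^ 2)))
    (hm : ∀ z : ℂ, ‖z‖ ≤ a → |v z| ≤ m) : v b ≤ U b + S * (m - U a) := by
  have hb0 : 0 < b := ha.trans hab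
  have ha1 : a < 1 := hab.trans hb1
  have haa : |a| < 1 := by rw [abs_of_pos ha]; exact ha1
  have hbb : |b| < 1 := by rw [abs_of_pos hb0]; exact hb1
  have haa' : |(-a)| < 1 := by rwa [abs_neg]
  have key : ∀ θ : ℝ, P b θ - (S + s1 a b) / 2 * P a θ + (S - s1 a b) / 2 * P (-a) θ =
      Real.cos θ * (2 * b * (1 - a ^ 4) * s1 a b - 2 * a * (1 - a ^ 2) * (1 + b ^ 2) * S +
        Real.cos θ * (4 * a * b * S * (1 - a ^ 2) - 4 * a ^ 2 * (1 - b ^ 2))) /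
      ((1 + b ^ 2 - 2 * b * Real.cos θ) * (1 + a ^ 2 - 2 * a * Real.cos θ) * (1 + (-a) ^ 2 - 2 * (-a) * Real.cos θ)) := by
    intro θ
    have d1 := (den_pos hbb θ).ne'
    have d2 := (den_pos haa θ).ne'
    have d3 := (den_pos haa' θ).ne'
    have e1 : (1 + b ^ 2) * (1 - a ^ 2) * s1 a b = (1 - b ^ 2) * (1 + a ^ 2) := by
      unfold s1
      have h9 : (1 - a ^ 2) ≠ 0 := by
        have : 0 < 1 - a ^ 2 := by nlinarith
        exact this.ne'
      field_simp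
    unfold P
    rw [eq_div_iff (mul_ne_zero (mul_ne_zero d1 d2) d3)]
    have e2 : (1 - b ^ 2) / (1 + b ^ 2 - 2 * b * Real.cos θ) * (1 + b ^ 2 - 2 * b * Real.cos θ) = 1 - b ^ 2 :=
      div_mul_cancel₀ _ d1
    have e3 : (1 - a ^ 2) / (1 + a ^ 2 - 2 * a * Real.cos θ) * (1 + a ^ 2 - 2 * a * Real.cos θ) = 1 - a ^ 2 :=
      div_mul_cancel₀ _ d2
    have e4 : (1 - (-a) ^ 2) / (1 + (-a) ^ 2 - 2 * (-a) * Real.cos θ) * (1 + (-a) ^ 2 - 2 * (-a) * Real.cos θ) = 1 - a ^ 2 := by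
      rw [div_mul_cancel₀ _ d3]; ring
    set X := (1 - b ^ 2) / (1 + b ^ 2 - 2 * b * Real.cos θ)
    set Y := (1 - a ^ 2) / (1 + a ^ 2 - 2 * a * Real.cos θ)
    set Z := (1 - (-a) ^ 2) / (1 + (-a) ^ 2 - 2 * (-a) * Real.cos θ)
    set c := Real.cos θ
    linear_combination ((1 + a ^ 2 - 2 * a * c) * (1 + (-a) ^ 2 - 2 * (-a) * c)) * e2 -
      (S + s1 a b) / 2 * (1 + b ^ 2 - 2 * b * c) * (1 + (-a) ^ 2 - 2 * (-a) * c) * e3 +
      (S - s1 a b) / 2 * (1 + b ^ 2 - 2 * b * c) * (1 + a ^ 2 - 2 * a * c) * e4 - (1 + a ^ 2) * e1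
  have hd := dual hv hb (a := a) (b := b) (l1 := (S + s1 a b) / 2) (l2 := (S - s1 a b) / 2) haa hbb
    (by
      intro θ
      rw [key θ]
      have d1 := den_pos hbb θ
      have d2 := den_pos haa θ
      have d3 := den_pos haa' θ
      have hc1 := Real.neg_one_le_cos θ
      have hc2 := Real.cos_le_one θ
      set c := Real.cos θ
      set A := 2 * b * (1 - a ^ 4) * s1 a b - 2 * a * (1 - a ^ 2) * (1 + b ^ 2) * S
      set B := 4 * a * b * S * (1 - a ^ 2) - 4 * a ^ 2 * (1 - b ^ 2)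
      have h3 : 0 ≤ A + c * B := by nlinarith
      have : c * (c * (A + c * B) / ((1 + b ^ 2 - 2 * b * c) * (1 + a ^ 2 - 2 * a * c) * (1 + (-a) ^ 2 - 2 * (-a) * c))) =
        c ^ 2 * (A + c * B) / ((1 + b ^ 2 - 2 * b * c) * (1 + a ^ 2 - 2 * a * c) * (1 + (-a) ^ 2 - 2 * (-a) * c)) := by ring
      rw [this]
      positivity)
    (by
      intro θ hθ
      rw [key θ, hθ]
      simp)
  have hs1 : 0 ≤ s1 a b := by
    unfold s1
    have h3 : 0 < 1 - a ^ 2 := by nlinarith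
    have h4 : 0 < 1 - b ^ 2 := by nlinarith
    positivity
  have hva : v a ≤ m := (le_abs_self _).trans (hm _ (by simp [abs_of_pos ha]))
  have hva' : - m ≤ v ((-a : ℝ) : ℂ) := neg_le_of_abs_le (hm _ (by simp [abs_of_pos ha]))
  nlinarith [mul_nonneg (show 0 ≤ (S + s1 a b) / 2 by linarith) (sub_nonneg.2 hva),
    mul_nonneg (show 0 ≤ (S - s1 a b) / 2 by linarith) (show 0 ≤ v ((-a : ℝ) : ℂ) + m by linarith)]

theorem lin1 {v : ℂ → ℝ} (hv : HarmonicOnNhd v (closedBall 0 1)) (hb : ∀ z ∈ closedBall (0 : ℂ) 1, |v z| ≤ 1)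
    {a b m : ℝ} (ha : 0 < a) (hab : a < b) (hb1 : b < 1)
    (hm : ∀ z : ℂ, ‖z‖ ≤ a → |v z| ≤ m) : v b ≤ U b + s1 a b * (m - U a) := by
  have hb0 : 0 < b := ha.trans hab
  have ha1 : a < 1 := hab.trans hb1
  have h3 : 0 < 1 - a ^ 2 := by nlinarith
  have h4 : 0 < 1 - b ^ 2 := by nlinarith
  have e1 : 1 - b ^ 2 = s1 a b * (1 - a ^ 2) * (1 + b ^ 2) / (1 + a ^ 2) := by
    unfold s1
    field_simp
  have hs1 : 0 ≤ s1 a b := by
    unfold s1
    positivity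
  have hw : 0 ≤ (b - a) * (1 - a * b) := mul_nonneg (by linarith) (by nlinarith)
  refine lin hv hb ha hab hb1 le_rfl ?_ ?_ hm
  · have : 2 * b * (1 - a ^ 4) * s1 a b - 2 * a * (1 - a ^ 2) * (1 + b ^ 2) * s1 a b +
      (4 * a * b * s1 a b * (1 - a ^ 2) - 4 * a ^ 2 * (1 - b ^ 2)) =
      2 * (1 - a ^ 2) * s1 a b * ((b - a) * (1 - a * b)) * ((1 + a) ^ 2 / (1 + a ^ 2)) := by
      rw [e1]
      field_simp
      ring
    rw [this]
    positivity
  · have : 2 * b * (1 - a ^ 4) * s1 a b - 2 * a * (1 - a ^ 2) * (1 + b ^ 2) * s1 a b -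
      (4 * a * b * s1 a b * (1 - a ^ 2) - 4 * a ^ 2 * (1 - b ^ 2)) =
      2 * (1 - a ^ 2) * s1 a b * ((b - a) * (1 - a * b)) * ((1 - a) ^ 2 / (1 + a ^ 2)) := by
      rw [e1]
      field_simp
      ring
    rw [this]
    positivity

theorem lin2 {v : ℂ → ℝ} (hv : HarmonicOnNhd v (closedBall 0 1)) (hb : ∀ z ∈ closedBall (0 : ℂ) 1, |v z| ≤ 1)
    {a b m : ℝ} (ha : 0 < a) (hab : a ≤ b / 8) (hb1 : b < 1)
    (hm : ∀ z : ℂ, ‖z‖ ≤ a → |v z| ≤ m) : v b ≤ U b + T0 b / a * (m - U a) := by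
  have hb0 : 0 < b := by linarith
  have hab' : a < b := by linarith
  have ha1 : a < 1 := hab'.trans hb1
  have h3 : 0 < 1 - a ^ 2 := by nlinarith
  have h4 : 0 < 1 - b ^ 2 := by nlinarith
  have h5 : 0 < 1 - b := by linarith
  have hT : T0 b * ((1 + b) ^ 2 * (1 + b ^ 2)) = b * (1 - b ^ 2) := by
    unfold T0
    field_simp
    ring
  have hT0 : 0 < T0 b := by unfold T0; positivity
  have hs : s1 a b * ((1 + b ^ 2) * (1 - a ^ 2)) = (1 - b ^ 2) * (1 + a ^ 2) := by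
    unfold s1
    field_simp
  have hs0 : 0 < s1 a b := by unfold s1; positivity
  -- s1 ≥ (1-b^2)/(1+b^2)
  have hs2 : (1 - b ^ 2) ≤ s1 a b * (1 + b ^ 2) := by
    have : (1 - b ^ 2) * (1 - a ^ 2) ≤ s1 a b * (1 + b ^ 2) * (1 - a ^ 2) := by nlinarith
    exact le_of_mul_le_mul_right this h3
  have haT : a * (T0 b / a) = T0 b := by field_simp
  have e5 : (1 + b) ^ 2 * T0 b ≤ b * s1 a b := by
    have : (1 + b) ^ 2 * T0 b * (1 + b ^ 2) ≤ b * s1 a b * (1 + b ^ 2) := by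
      have := mul_le_mul_of_nonneg_left hs2 hb0.le
      linarith
    exact le_of_mul_le_mul_right this (by positivity)
  refine lin hv hb ha hab' hb1 ?_ ?_ ?_ hm
  · rw [le_div_iff₀ ha]
    -- s1 * a ≤ T0
    have h6 : s1 a b * a * ((1 + b ^ 2) * (1 - a ^ 2) * (1 + b) ^ 2) ≤ T0 b * ((1 + b ^ 2) * (1 - a ^ 2) * (1 + b) ^ 2) := by
      have e6 : s1 a b * a * ((1 + b ^ 2) * (1 - a ^ 2) * (1 + b) ^ 2) = (1 - b ^ 2) * ((1 + a ^ 2) * a * (1 + b) ^ 2) := by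
        linear_combination (a * (1 + b) ^ 2) * hs
      have e7 : T0 b * ((1 + b ^ 2) * (1 - a ^ 2) * (1 + b) ^ 2) = (1 - b ^ 2) * (b * (1 - a ^ 2)) := by
        linear_combination (1 - a ^ 2) * hT
      rw [e6, e7]
      refine mul_le_mul_of_nonneg_left ?_ h4.le
      have h7 : (1 + b) ^ 2 ≤ 4 := by nlinarith
      have h88 : a ≤ 1 / 8 := by linarith
      have h8 : a ^ 2 ≤ 1 / 64 := by nlinarith
      have h9 : (1 + a ^ 2) * a * (1 + b) ^ 2 ≤ (1 + a ^ 2) * a * 4 := mul_le_mul_of_nonneg_left h7 (by positivity)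
      have h10 : (1 + a ^ 2) * a * 4 ≤ (1 + 1 / 64) * a * 4 := by
        have := mul_le_mul_of_nonneg_right h8 ha.le
        linarith
      have h11 : (1 - 1 / 64) * b ≤ b * (1 - a ^ 2) := by
        have := mul_le_mul_of_nonneg_left h8 hb0.le
        linarith
      linarith
    exact le_of_mul_le_mul_right h6 (by positivity)
  · -- plus
    have e6 : 2 * b * (1 - a ^ 4) * s1 a b - 2 * a * (1 - a ^ 2) * (1 + b ^ 2) * (T0 b / a) +
      (4 * a * b * (T0 b / a) * (1 - a ^ 2) - 4 * a ^ 2 * (1 - b ^ 2)) =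
      2 * (1 - a ^ 2) * (b * (1 + a ^ 2) * s1 a b - (1 - b) ^ 2 * T0 b) - 4 * a ^ 2 * (1 - b ^ 2) := by
      linear_combination (-2 * (1 - a ^ 2) * (1 + b ^ 2) + 4 * b * (1 - a ^ 2)) * haT
    rw [e6]
    have h6 : 4 * b * T0 b ≤ b * (1 + a ^ 2) * s1 a b - (1 - b) ^ 2 * T0 b := by
      have h66 := mul_nonneg (mul_nonneg hb0.le hs0.le) (sq_nonneg a)
      linarith
    have h7 : 2 * a ^ 2 * (1 - b ^ 2) ≤ (1 - a ^ 2) * (4 * b * T0 b) := by
      have hb2 : b ^ 2 ≤ 1 := by nlinarith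
      have h8 : (1 + b) ^ 2 * (1 + b ^ 2) ≤ 8 := by
        have q1 : (1 + b) ^ 2 ≤ 4 := by nlinarith
        have q2 : (1 + b) ^ 2 * (1 + b ^ 2) ≤ 4 * 2 := mul_le_mul q1 (by linarith) (by positivity) (by norm_num)
        linarith
      have h9 : b * (1 - b ^ 2) ≤ T0 b * 8 := by
        rw [← hT]
        exact mul_le_mul_of_nonneg_left h8 hT0.le
      have h10 : a ^ 2 ≤ b ^ 2 / 64 := by nlinarith
      have h11 : a ^ 2 ≤ 1 / 64 := by linarith
      have h12 : b ^ 2 * (1 - b ^ 2) / 2 ≤ 4 * b * T0 b := by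
        have := mul_le_mul_of_nonneg_left h9 hb0.le
        linarith
      have h13 : (1 - 1 / 64) * (b ^ 2 * (1 - b ^ 2) / 2) ≤ (1 - a ^ 2) * (4 * b * T0 b) :=
        mul_le_mul (by linarith) h12 (by positivity) h3.le
      have h14 : 2 * a ^ 2 * (1 - b ^ 2) ≤ 2 * (b ^ 2 / 64) * (1 - b ^ 2) :=
        mul_le_mul_of_nonneg_right (by linarith) h4.le
      have h15 : 0 ≤ b ^ 2 * (1 - b ^ 2) := by positivity
      linarith
    have h16 := mul_le_mul_of_nonneg_left h6 h3.le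
    linarith
  · have e6 : 2 * b * (1 - a ^ 4) * s1 a b - 2 * a * (1 - a ^ 2) * (1 + b ^ 2) * (T0 b / a) -
      (4 * a * b * (T0 b / a) * (1 - a ^ 2) - 4 * a ^ 2 * (1 - b ^ 2)) =
      2 * (1 - a ^ 2) * (b * (1 + a ^ 2) * s1 a b - (1 + b) ^ 2 * T0 b) + 4 * a ^ 2 * (1 - b ^ 2) := by
      linear_combination (-2 * (1 - a ^ 2) * (1 + b ^ 2) - 4 * b * (1 - a ^ 2)) * haT
    rw [e6]
    have h6 : 0 ≤ b * (1 + a ^ 2) * s1 a b - (1 + b) ^ 2 * T0 b := by
      have h66 := mul_nonneg (mul_nonneg hb0.le hs0.le) (sq_nonneg a)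
      linarith
    positivity

theorem harnack {v : ℂ → ℝ} (hv : HarmonicOnNhd v (closedBall 0 1)) (hb : ∀ z ∈ closedBall (0 : ℂ) 1, |v z| ≤ 1)
    {b : ℝ} (hb0 : 0 < b) (hb1 : b < 1) : v b ≤ 1 - (1 - b) / (1 + b) * (1 - v 0) := by
  have hbb : |b| < 1 := by rw [abs_of_pos hb0]; exact hb1
  have h0 := poisson_real hv (r := 0) (by simp)
  have h1 := poisson_real hv hbb
  have hvc : Continuous fun θ : ℝ => v (circleMap 0 1 θ) := by
    have h1 : ContinuousOn v (closedBall 0 1) := hv.continuousOn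
    refine h1.comp_continuous (continuous_circleMap 0 1) fun θ => ?_
    simp [circleMap]
  have hP0 : ∀ θ, P 0 θ = 1 := fun θ => by simp [P]
  simp only [hP0, one_mul, Complex.ofReal_zero] at h0
  have hp := Real.pi_pos
  have e1 : 1 - v b = (2 * π)⁻¹ * ∫ θ in (0 : ℝ)..(2 * π), P b θ * (1 - v (circleMap 0 1 θ)) := by
    have : ∫ θ in (0 : ℝ)..(2 * π), P b θ * (1 - v (circleMap 0 1 θ)) =
        (∫ θ in (0 : ℝ)..(2 * π), P b θ) - ∫ θ in (0 : ℝ)..(2 * π), P b θ * v (circleMap 0 1 θ) := by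
      have i1 : IntervalIntegrable (fun θ => P b θ) volume 0 (2 * π) := (P_cont hbb).intervalIntegrable _ _
      have i2 : IntervalIntegrable (fun θ => P b θ * v (circleMap 0 1 θ)) volume 0 (2 * π) :=
        ((P_cont hbb).mul hvc).intervalIntegrable _ _
      rw [← intervalIntegral.integral_sub i1 i2]
      refine intervalIntegral.integral_congr fun θ _ => ?_
      ring
    rw [this, P_total hbb, mul_sub, ← h1]
    field_simp
  have e2 : 1 - v 0 = (2 * π)⁻¹ * ∫ θ in (0 : ℝ)..(2 * π), (1 - v (circleMap 0 1 θ)) := by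
    rw [intervalIntegral.integral_sub (by simp) (hvc.intervalIntegrable _ _), mul_sub, ← h0]
    simp
    field_simp
  have h3 : (1 - b) / (1 + b) * (1 - v 0) ≤ 1 - v b := by
    rw [e1, e2, mul_left_comm]
    refine mul_le_mul_of_nonneg_left ?_ (by positivity)
    rw [← intervalIntegral.integral_const_mul]
    refine intervalIntegral.integral_mono_on (by positivity)
      (((continuous_const.sub hvc).const_mul _).intervalIntegrable _ _)
      (((P_cont hbb).mul (continuous_const.sub hvc)).intervalIntegrable _ _) fun θ _ => ?_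
    have h4 : |v (circleMap 0 1 θ)| ≤ 1 := hb _ (by simp [circleMap])
    refine mul_le_mul_of_nonneg_right ?_ (by linarith [(abs_le.1 h4).2])
    unfold P
    have h5 := den_pos hbb θ
    rw [div_le_div_iff₀ (by linarith) h5]
    have h6 : 1 + b ^ 2 - 2 * b * Real.cos θ ≤ (1 + b) ^ 2 := by nlinarith [Real.neg_one_le_cos θ]
    nlinarith
  linarith

end TBP
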