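import Mathlib

/-!
# MP_8b37c6_an, plane case: the three circles bound
-/

namespace TBP

open Complex Metric InnerProductSpace Real Set

/-- a real harmonic function near the closed unit disc is the real part of a holomorphic function on a larger disc -/
theorem exists_hol {v : ℂ → ℝ} (hv : HarmonicOnNhd v (closedBall 0 1)) :
    ∃ R : ℝ, 1 < R ∧ ∃ F : ℂ → ℂ, DifferentiableOn ℂ F (ball 0 R) ∧ (∀ z ∈ ball (0 : ℂ) R, (F z).re = v z) ∧ (F 0).im = 0 := by
  obtain ⟨e, h₁e, h₂e⟩ := (isCompact_closedBall (0 : ℂ) 1).exists_thickening_subset_open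
    (isOpen_setOfPred_harmonicAt v) (by intro x hx; exact hv x hx)
  rw [thickening_closedBall h₁e zero_le_one] at h₂e
  obtain ⟨F, h₁F, h₂F⟩ := HarmonicOnNhd.exists_analyticOnNhd_ball_re_eq (f := v) (z := 0) (R := e + 1) (fun x hx => h₂e hx)
  refine ⟨e + 1, by linarith, fun z => F z - ((F 0).im : ℂ) * I, ?_, ?_, ?_⟩
  · exact h₁F.differentiableOn.sub_const _
  · intro z hz
    have := h₂F hz
    simpa using this
  · simp

/-- the Cayley transform of the exponential -/
noncomputable def T (w : ℂ) : ℂ := (exp (I * (π / 2) * w) - 1) / (exp (I * (π / 2) * w) + 1)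

theorem re_g {w : ℂ} (hw : |w.re| ≤ 1) : 0 ≤ (exp (I * (π / 2) * w)).re := by
  rw [Complex.exp_re]
  refine mul_nonneg (Real.exp_pos _).le (Real.cos_nonneg_of_mem_Icc ?_)
  obtain ⟨h1, h2⟩ := abs_le.1 hw
  have h3 : (I * (π / 2) * w).im = π / 2 * w.re := by
    simp [Complex.mul_im]
  rw [h3]
  constructor <;> nlinarith [Real.pi_pos]

theorem one_le_den {w : ℂ} (hw : |w.re| ≤ 1) : 1 ≤ ‖exp (I * (π / 2) * w) + 1‖ := by
  have h := re_g hw
  refine le_trans ?_ (Complex.re_le_norm _)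
  simp
  exact h

theorem T_le_one {w : ℂ} (hw : |w.re| ≤ 1) : ‖T w‖ ≤ 1 := by
  have h := re_g hw
  have h1 := one_le_den hw
  unfold T
  rw [norm_div, div_le_one (by linarith)]
  rw [← sq_le_sq₀ (norm_nonneg _) (norm_nonneg _), ← Complex.normSq_eq_norm_sq, ← Complex.normSq_eq_norm_sq,
    Complex.normSq_apply, Complex.normSq_apply]
  simp only [sub_re, sub_im, add_re, add_im, one_re, one_im]
  nlinarith

theorem T_diff {w : ℂ} (hw : |w.re| ≤ 1) : DifferentiableAt ℂ T w := by
  have h1 := one_le_den hw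
  have h2 : exp (I * (π / 2) * w) + 1 ≠ 0 := by
    intro h
    rw [h, norm_zero] at h1
    linarith
  unfold T
  exact DifferentiableAt.div (by fun_prop) (by fun_prop) h2

theorem T_small {w : ℂ} (hw : |w.re| ≤ 1) : ‖T w‖ ≤ 16 / 5 * ‖w‖ := by
  by_cases h : ‖w‖ ≤ 5 / 16
  · have h1 := one_le_den hw
    have h3 : ‖I * (π / 2) * w‖ = π / 2 * ‖w‖ := by
      rw [norm_mul, norm_mul, Complex.norm_I, one_mul]
      congr 1
      have : ((π : ℂ) / 2) = ((π / 2 : ℝ) : ℂ) := by push_cast; rfl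
      rw [this, Complex.norm_real, Real.norm_of_nonneg (by positivity)]
    have h4 : ‖I * (π / 2) * w‖ ≤ 1 := by
      rw [h3]
      nlinarith [Real.pi_lt_d2, norm_nonneg w]
    have h5 := Complex.norm_exp_sub_one_le h4
    unfold T
    rw [norm_div, div_le_iff₀ (by linarith)]
    rw [h3] at h5
    have h6 : 2 * (π / 2 * ‖w‖) ≤ 16 / 5 * ‖w‖ := by nlinarith [Real.pi_lt_d2, norm_nonneg w]
    have h7 : 16 / 5 * ‖w‖ ≤ 16 / 5 * ‖w‖ * ‖exp (I * (π / 2) * w) + 1‖ :=
      le_mul_of_one_le_right (by positivity) h1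
    linarith
  · push Not at h
    have := T_le_one hw
    linarith

/-- the real part is controlled by the Cayley transform -/
theorem re_le {w : ℂ} (hw : |w.re| ≤ 1) {τ : ℝ} (hτ : ‖T w‖ ≤ τ) : w.re ≤ 4 / π * Real.arctan τ := by
  have hτ0 : 0 ≤ τ := (norm_nonneg _).trans hτ
  have hp := Real.pi_pos
  rcases le_or_gt w.re 0 with h0 | h0
  · exact h0.trans (by have := Real.arctan_nonneg.2 hτ0; positivity)
  obtain ⟨h1, h2⟩ := abs_le.1 hw
  set φ := π / 2 * w.re with hφ
  have hφ0 : 0 < φ := by positivity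
  have hφ1 : φ ≤ π / 2 := by nlinarith
  have him : (I * (π / 2) * w).im = φ := by simp [Complex.mul_im, hφ]
  set ρ := Real.exp (I * (π / 2) * w).re with hρ
  have hρ0 : 0 < ρ := Real.exp_pos _
  have hden := one_le_den hw
  have hcos : 0 ≤ Real.cos φ := Real.cos_nonneg_of_mem_Icc ⟨by linarith, hφ1⟩
  have hsc := Real.sin_sq_add_cos_sq φ
  have e1 : ‖exp (I * (π / 2) * w) - 1‖ ^ 2 = ρ ^ 2 - 2 * ρ * Real.cos φ + 1 := by
    rw [← Complex.normSq_eq_norm_sq, Complex.normSq_apply]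
    simp only [sub_re, sub_im, one_re, one_im, Complex.exp_re, Complex.exp_im, him, ← hρ]
    linear_combination ρ ^ 2 * hsc
  have e2 : ‖exp (I * (π / 2) * w) + 1‖ ^ 2 = ρ ^ 2 + 2 * ρ * Real.cos φ + 1 := by
    rw [← Complex.normSq_eq_norm_sq, Complex.normSq_apply]
    simp only [add_re, add_im, one_re, one_im, Complex.exp_re, Complex.exp_im, him, ← hρ]
    linear_combination ρ ^ 2 * hsc
  have e3 : ρ ^ 2 - 2 * ρ * Real.cos φ + 1 ≤ τ ^ 2 * (ρ ^ 2 + 2 * ρ * Real.cos φ + 1) := by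
    rw [← e1, ← e2, ← mul_pow]
    refine pow_le_pow_left₀ (norm_nonneg _) ?_ 2
    unfold T at hτ
    rw [norm_div, div_le_iff₀ (by linarith)] at hτ
    exact hτ
  by_cases hτ1 : 1 ≤ τ
  · have h3 : Real.arctan 1 ≤ Real.arctan τ := Real.arctan_strictMono.monotone hτ1
    rw [Real.arctan_one] at h3
    have h4 : 4 / π * (π / 4) ≤ 4 / π * Real.arctan τ := mul_le_mul_of_nonneg_left h3 (by positivity)
    have h5 : 4 / π * (π / 4) = 1 := by field_simp
    linarith
  push Not at hτ1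
  have hτ2 : τ ^ 2 < 1 := by nlinarith
  -- (1 - cos) ≤ τ² (1 + cos)
  have e4 : 1 - Real.cos φ ≤ τ ^ 2 * (1 + Real.cos φ) := by
    have : 2 * ρ * (1 - Real.cos φ) ≤ 2 * ρ * (τ ^ 2 * (1 + Real.cos φ)) := by
      have h6 : 0 ≤ (ρ - 1) ^ 2 * (1 - τ ^ 2) := by
        have : 0 ≤ 1 - τ ^ 2 := by linarith
        positivity
      linarith
    exact le_of_mul_le_mul_left this (by positivity)
  have hc2 : Real.cos φ = 2 * Real.cos (φ / 2) ^ 2 - 1 := by
    rw [← Real.cos_two_mul]; ring_nf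
  have hs2 : Real.sin (φ / 2) ^ 2 = 1 - Real.cos (φ / 2) ^ 2 := by
    nlinarith [Real.sin_sq_add_cos_sq (φ / 2)]
  have hcp : 0 < Real.cos (φ / 2) := Real.cos_pos_of_mem_Ioo ⟨by linarith, by linarith⟩
  have hsp : 0 < Real.sin (φ / 2) := Real.sin_pos_of_pos_of_lt_pi (by linarith) (by linarith)
  have e5 : Real.sin (φ / 2) ^ 2 ≤ (τ * Real.cos (φ / 2)) ^ 2 := by
    rw [hs2, mul_pow]
    rw [hc2] at e4
    linarith
  have e6 : Real.sin (φ / 2) ≤ τ * Real.cos (φ / 2) := by
    rwa [sq_le_sq₀ hsp.le (by positivity)] at e5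
  have e7 : Real.tan (φ / 2) ≤ τ := by
    rw [Real.tan_eq_sin_div_cos, div_le_iff₀ hcp]
    exact e6
  have e8 : φ / 2 ≤ Real.arctan τ := by
    have h7 := Real.arctan_strictMono.monotone e7
    rwa [Real.arctan_tan (by linarith) (by linarith)] at h7
  have e9 : w.re = 4 / π * (φ / 2) := by
    rw [hφ]; field_simp; ring
  rw [e9]
  exact mul_le_mul_of_nonneg_left e8 (by positivity)

theorem three {v : ℂ → ℝ} (hv : HarmonicOnNhd v (closedBall 0 1)) (hb : ∀ z ∈ closedBall (0 : ℂ) 1, |v z| ≤ 1)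
    {a b m : ℝ} (ha : 0 < a) (ha1 : a ≤ 1) (hab : a / 2 ≤ b) (hb1 : b < 1) (hm0 : 0 < m)
    (hm : ∀ z : ℂ, ‖z‖ ≤ a → |v z| ≤ m) :
    v b ≤ 4 / π * Real.arctan ((16 * m) ^ (Real.log b / Real.log (a / 2))) := by
  obtain ⟨R, hR, F, hF, hFv, hF0⟩ := exists_hol hv
  have hb0 : 0 < b := by linarith
  have hsub : closedBall (0 : ℂ) 1 ⊆ ball 0 R := closedBall_subset_ball hR
  have hre : ∀ z ∈ closedBall (0 : ℂ) 1, |(F z).re| ≤ 1 := fun z hz => by rw [hFv z (hsub hz)]; exact hb z hz
  -- Borel-Caratheodory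
  have h1 : ∀ z : ℂ, ‖z‖ ≤ a / 2 → ‖F z‖ ≤ 5 * m := by
    intro z hz
    have hza : z ∈ ball (0 : ℂ) a := by
      rw [mem_ball_zero_iff]; linarith
    have hsub2 : ball (0 : ℂ) a ⊆ ball 0 R := ball_subset_ball (by linarith)
    have h2 := Complex.borelCaratheodory (M := m) hm0 (hF.mono hsub2) (fun x hx => by
      have hx1 : ‖x‖ < a := by simpa using hx
      show (F x).re ≤ m
      rw [hFv x (hsub2 hx)]
      exact (le_abs_self _).trans (hm x hx1.le)) ha hza
    have h3 : ‖F 0‖ ≤ m := by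
      have h4 : F 0 = ((F 0).re : ℂ) := by
        apply Complex.ext <;> simp [hF0]
      rw [h4, Complex.norm_real, Real.norm_eq_abs, hFv 0 (by simp; linarith)]
      exact hm 0 (by simpa using ha.le)
    have hd : 0 < a - ‖z‖ := by linarith
    have h5 : 2 * m * ‖z‖ / (a - ‖z‖) ≤ 2 * m := by
      rw [div_le_iff₀ hd]
      nlinarith [norm_nonneg z]
    have h6 : ‖F 0‖ * (a + ‖z‖) / (a - ‖z‖) ≤ 3 * m := by
      rw [div_le_iff₀ hd]
      nlinarith [norm_nonneg z, norm_nonneg (F 0), mul_nonneg (sub_nonneg.2 h3) (norm_nonneg z),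
        mul_nonneg (sub_nonneg.2 h3) ha.le]
    linarith
  -- three lines
  set l := Real.log (a / 2) with hl
  have hl0 : l < 0 := Real.log_neg (by linarith) (by linarith)
  have hexp : ∀ w : ℂ, w.re ≤ 0 → exp w ∈ closedBall (0 : ℂ) 1 := by
    intro w hw
    rw [mem_closedBall_zero_iff, Complex.norm_exp]
    exact Real.exp_le_one_iff.2 hw
  set f : ℂ → ℂ := fun w => T (F (exp w)) with hf
  have hfd : ∀ w : ℂ, w.re ≤ 0 → DifferentiableAt ℂ f w := by
    intro w hw
    have h2 := hexp w hw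
    have h3 : DifferentiableAt ℂ F (exp w) := (hF _ (hsub h2)).differentiableAt (isOpen_ball.mem_nhds (hsub h2))
    exact (T_diff (hre _ h2)).comp w (h3.comp w (by fun_prop))
  have hfb : ∀ w : ℂ, w.re ≤ 0 → ‖f w‖ ≤ 1 := fun w hw => T_le_one (hre _ (hexp w hw))
  have hlogb : Real.log b ∈ Set.Icc l 0 := by
    refine ⟨Real.log_le_log (by linarith) hab, Real.log_nonpos hb0.le hb1.le⟩
  have h3l := Complex.HadamardThreeLines.norm_le_interp_of_mem_verticalClosedStrip' (f := f) (z := (Real.log b : ℂ))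
    (a := 16 * m) (b := 1) hl0 (by
      simp only [Complex.HadamardThreeLines.verticalClosedStrip, mem_preimage, Complex.ofReal_re]
      exact hlogb)
    (by
      refine DifferentiableOn.diffContOnCl fun w hw => (hfd w ?_).differentiableWithinAt
      have : closure (Complex.HadamardThreeLines.verticalStrip l 0) ⊆ {w : ℂ | w.re ≤ 0} := by
        refine closure_minimal ?_ (isClosed_le Complex.continuous_re continuous_const)
        intro w hw
        simp only [Complex.HadamardThreeLines.verticalStrip, mem_preimage] at hw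
        exact hw.2.le
      exact this hw)
    (by
      refine ⟨1, ?_⟩
      rintro _ ⟨w, hw, rfl⟩
      simp only [Complex.HadamardThreeLines.verticalClosedStrip, mem_preimage] at hw
      exact hfb w hw.2)
    (by
      intro w hw
      simp only [mem_preimage, mem_singleton_iff] at hw
      have h4 : ‖exp w‖ = a / 2 := by
        rw [Complex.norm_exp, hw, hl, Real.exp_log (by linarith)]
      have h5 := h1 (exp w) h4.le
      have h6 := T_small (hre _ (hexp w (by rw [hw]; exact hl0.le)))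
      show ‖T (F (exp w))‖ ≤ 16 * m
      linarith)
    (by
      intro w hw
      simp only [mem_preimage, mem_singleton_iff] at hw
      exact hfb w hw.le)
  rw [Real.one_rpow, mul_one, Complex.ofReal_re] at h3l
  have h7 : 1 - (Real.log b - l) / (0 - l) = Real.log b / l := by
    have : l ≠ 0 := hl0.ne
    field_simp
    ring
  rw [h7] at h3l
  have h8 : exp (Real.log b : ℂ) = b := by
    rw [← Complex.ofReal_exp, Real.exp_log hb0]
  have hbm : (b : ℂ) ∈ closedBall (0 : ℂ) 1 := by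
    rw [mem_closedBall_zero_iff, Complex.norm_real, Real.norm_of_nonneg hb0.le]
    exact hb1.le
  have h9 := re_le (hre _ hbm) (τ := (16 * m) ^ (Real.log b / l)) (by
    have : f (Real.log b : ℂ) = T (F b) := by simp only [hf, h8]
    rw [← this]
    exact h3l)
  rwa [hFv _ (hsub hbm)] at h9

end TBP
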