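import Pool.Agent.Lib.MP_8b37c6_anP.A

/-!
# MP_8b37c6_an, plane case: the function psi
-/

namespace TBP

open Real Set

theorem arctan_lt {r : ℝ} (hr : 0 < r) : Real.arctan r < r := by
  have h1 : 0 < Real.arctan r := Real.arctan_pos.2 hr
  have h2 := Real.lt_tan h1 (Real.arctan_lt_pi_div_two r)
  rwa [Real.tan_arctan] at h2

/-- the profile -/
noncomputable def psi (s : ℝ) : ℝ := -Real.log (4 / π * Real.arctan (Real.exp (-s)))

theorem psi_zero : psi 0 = 0 := by
  unfold psi
  rw [neg_zero, Real.exp_zero, Real.arctan_one]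
  have : 4 / π * (π / 4) = 1 := by field_simp
  rw [this, Real.log_one, neg_zero]

theorem h_mono : StrictMonoOn (fun r : ℝ => (1 + r ^ 2) * Real.arctan r / r) (Ioo 0 1) := by
  have hd : ∀ r ∈ Ioo (0 : ℝ) 1, HasDerivAt (fun r : ℝ => (1 + r ^ 2) * Real.arctan r / r)
      ((r + (r ^ 2 - 1) * Real.arctan r) / r ^ 2) r := by
    intro r hr
    have h1 : HasDerivAt (fun r : ℝ => 1 + r ^ 2) (2 * r) r := by
      simpa using (hasDerivAt_pow 2 r).const_add 1
    have h2 := (h1.mul (Real.hasDerivAt_arctan r)).div (hasDerivAt_id r) hr.1.ne'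
    refine h2.congr_deriv ?_
    have h3 : (1 + r ^ 2) ≠ 0 := by positivity
    simp only [id]
    field_simp
    simp only [Pi.mul_apply]
    ring
  refine strictMonoOn_of_deriv_pos (convex_Ioo 0 1) (fun r hr => (hd r hr).continuousAt.continuousWithinAt) ?_
  intro r hr
  rw [interior_Ioo] at hr
  rw [(hd r hr).deriv]
  have h1 := arctan_lt hr.1
  have h2 : 0 < Real.arctan r := Real.arctan_pos.2 hr.1
  have h3 : 0 < r ^ 2 := pow_pos hr.1 2
  refine div_pos ?_ h3
  nlinarith

theorem psi_deriv (s : ℝ) : HasDerivAt psi (Real.exp (-s) / ((1 + Real.exp (-s) ^ 2) * Real.arctan (Real.exp (-s)))) s := by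
  unfold psi
  have h0 : 0 < Real.arctan (Real.exp (-s)) := Real.arctan_pos.2 (Real.exp_pos _)
  have h1 : HasDerivAt (fun s : ℝ => Real.exp (-s)) (-Real.exp (-s)) s := by
    simpa using (hasDerivAt_neg s).exp
  have h2 := (h1.arctan.const_mul (4 / π)).log (by positivity)
  refine h2.neg.congr_deriv ?_
  have hp := Real.pi_pos
  have h3 : (1 + Real.exp (-s) ^ 2) ≠ 0 := by positivity
  field_simp

theorem psi_conv : StrictConvexOn ℝ (Ici 0) psi := by
  refine StrictMonoOn.strictConvexOn_of_deriv (convex_Ici 0) (fun s _ => (psi_deriv s).continuousAt.continuousWithinAt) ?_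
  rw [interior_Ici]
  intro s hs t ht hst
  rw [(psi_deriv s).deriv, (psi_deriv t).deriv]
  have hs' : 0 < s := hs
  have e1 : Real.exp (-t) < Real.exp (-s) := Real.exp_lt_exp.2 (by linarith)
  have e2 : Real.exp (-s) < 1 := Real.exp_lt_one_iff.2 (by linarith)
  have h := h_mono (a := Real.exp (-t)) ⟨Real.exp_pos _, e1.trans e2⟩ (b := Real.exp (-s)) ⟨Real.exp_pos _, e2⟩ e1
  simp only at h
  have hs0 : 0 < Real.arctan (Real.exp (-s)) := Real.arctan_pos.2 (Real.exp_pos _)
  have ht0 : 0 < Real.arctan (Real.exp (-t)) := Real.arctan_pos.2 (Real.exp_pos _)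
  have hes := Real.exp_pos (-s)
  have het := Real.exp_pos (-t)
  rw [div_lt_div_iff₀ het hes] at h
  rw [div_lt_div_iff₀ (by positivity) (by positivity)]
  linarith

/-- the main inequality: `psi s / s` is strictly increasing -/
theorem psi_ratio {s t : ℝ} (hs : 0 < s) (hst : s < t) : psi s * t < psi t * s := by
  have ht : 0 < t := hs.trans hst
  have hx : (0 : ℝ) ∈ Ici (0 : ℝ) := mem_Ici.2 le_rfl
  have hy : t ∈ Ici (0 : ℝ) := mem_Ici.2 ht.le
  have hl : 0 < 1 - s / t := by rw [sub_pos, div_lt_one ht]; exact hst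
  have h := psi_conv.2 hx hy ht.ne hl (by positivity : 0 < s / t) (by ring)
  simp only [smul_eq_mul, mul_zero, zero_add, psi_zero] at h
  have e1 : s / t * t = s := by field_simp
  rw [e1] at h
  have h2 : psi s * t < s / t * psi t * t := mul_lt_mul_of_pos_right h ht
  have e2 : s / t * psi t * t = psi t * s := by field_simp
  rwa [e2] at h2

theorem U_eq {r : ℝ} (hr : 0 < r) : U r = Real.exp (-psi (-Real.log r)) := by
  unfold psi U
  rw [neg_neg, neg_neg, Real.exp_log hr]
  have := Real.arctan_pos.2 hr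
  rw [Real.exp_log (by positivity)]

theorem U_pos {r : ℝ} (hr : 0 < r) : 0 < U r := by
  have := Real.arctan_pos.2 hr
  unfold U; positivity

theorem U_le {r : ℝ} (hr : 0 < r) : U r ≤ 4 / π * r := by
  unfold U
  exact mul_le_mul_of_nonneg_left (arctan_lt hr).le (by positivity)

theorem U_mono {r s : ℝ} (h : r ≤ s) : U r ≤ U s := by
  unfold U
  exact mul_le_mul_of_nonneg_left (Real.arctan_strictMono.monotone h) (by positivity)

theorem U_lt {r s : ℝ} (h : r < s) : U r < U s := by
  unfold U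
  exact mul_lt_mul_of_pos_left (Real.arctan_strictMono h) (by positivity)

theorem U_one : U 1 = 1 := by
  unfold U
  rw [Real.arctan_one]
  field_simp

theorem le_U {r : ℝ} (hr : 0 < r) (hr1 : r ≤ 1 / 2) : r ≤ U r := by
  have h1 : 0 < Real.arctan r := Real.arctan_pos.2 hr
  have h2 := Real.sin_le h1.le
  rw [Real.sin_arctan] at h2
  have h3 : √(1 + r ^ 2) ≤ 4 / π := by
    rw [Real.sqrt_le_left (by positivity)]
    have hp := Real.pi_lt_d2
    have hp0 := Real.pi_pos
    have : 1.26 ≤ 4 / π := by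
      rw [le_div_iff₀ hp0]; nlinarith
    nlinarith
  have h4 : 0 < √(1 + r ^ 2) := by positivity
  rw [div_le_iff₀ h4] at h2
  unfold U
  nlinarith

theorem psi_pos {s : ℝ} (hs : 0 < s) : 0 < psi s := by
  have h : U (Real.exp (-s)) < 1 := by
    rw [← U_one]
    exact U_lt (Real.exp_lt_one_iff.2 (by linarith))
  have h2 := U_eq (Real.exp_pos (-s))
  rw [Real.log_exp, neg_neg] at h2
  rw [h2] at h
  have := Real.exp_lt_one_iff.1 h
  linarith

end TBP
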