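import Pool.Agent.Lib.MP_8b37c6_anP.B
import Pool.Agent.Lib.MP_8b37c6_anP.D

/-!
# MP_8b37c6_an, plane case: the real inequality for small inner radius
-/

namespace TBP

open Real Set

theorem log16 : Real.log 16 ≤ 3 := by
  have h : Real.log 16 = 4 * Real.log 2 := by
    rw [show (16 : ℝ) = 2 ^ 4 by norm_num, Real.log_pow]
    norm_num
  rw [h]
  have := Real.log_two_lt_d9
  linarith

theorem s1_le {a b : ℝ} (ha : 0 < a) (hab : a ≤ b / 8) (hb1 : b < 1) : s1 a b ≤ 2 := by
  have h3 : 0 < 1 - a ^ 2 := by nlinarith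
  unfold s1
  rw [div_le_iff₀ (by positivity)]
  have h4 : a ^ 2 ≤ 1 / 64 := by nlinarith
  have h5 : 0 ≤ b ^ 2 := sq_nonneg b
  nlinarith [mul_nonneg h5 h3.le]

set_option maxHeartbeats 4000000 in
theorem main_real {b : ℝ} (hb0 : 0 < b) (hb1 : b < 1) : ∃ a0 : ℝ, 0 < a0 ∧ a0 ≤ b / 8 ∧ ∀ a, 0 < a → a ≤ a0 →
    ∀ m y : ℝ, 0 < m → m ≤ 1 → y ≤ 1 - (1 - b) / (1 + b) * (1 - m) → y ≤ U b + s1 a b * (m - U a) →
    y ≤ U b + T0 b / a * (m - U a) → y ≤ 4 / π * Real.arctan ((16 * m) ^ (Real.log b / Real.log (a / 2))) →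
    y ≤ m ^ (Real.log (U b) / Real.log (U a)) := by
  have hpi := Real.pi_pos
  have hUb0 : 0 < U b := U_pos hb0
  have hUb1 : U b < 1 := by rw [← U_one]; exact U_lt hb1
  set β := -Real.log (U b) with hβ
  have hβ0 : 0 < β := by
    have := Real.log_neg hUb0 hUb1
    linarith
  have hUbe : U b = Real.exp (-β) := by rw [hβ, neg_neg, Real.exp_log hUb0]
  set s := -Real.log b with hs
  have hs0 : 0 < s := by
    have := Real.log_neg hb0 hb1
    linarith
  have hpsi : psi s = β := by
    have h := U_eq hb0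
    rw [h, Real.log_exp] at hβ
    rw [hβ, neg_neg]
  have hT0 : 0 < T0 b := by
    have : 0 < 1 - b := by linarith
    unfold T0; positivity
  set q := T0 b / (2 * β) with hq
  have hq0 : 0 < q := by positivity
  have hqβ : q * β = T0 b / 2 := by rw [hq]; field_simp
  set κ1 := 1 + q / 2 with hκ1
  have hκ10 : 1 < κ1 := by rw [hκ1]; linarith
  set γ := psi (κ1 * s) / (κ1 * β) - 1 with hγ
  have hγ0 : 0 < γ := by
    have h := psi_ratio hs0 (t := κ1 * s) (by have := mul_lt_mul_of_pos_right hκ10 hs0; linarith)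
    rw [hpsi] at h
    have h2 : β * κ1 < psi (κ1 * s) := by
      have : β * κ1 * s < psi (κ1 * s) * s := by linarith
      exact lt_of_mul_lt_mul_right this hs0.le
    rw [hγ, sub_pos, lt_div_iff₀ (by positivity)]
    linarith
  have hγe : psi (κ1 * s) = κ1 * β * (1 + γ) := by
    rw [hγ]; field_simp; ring
  set h := (1 - b) / (1 + b) with hh
  have hh0 : 0 < h := div_pos (by linarith) (by linarith)
  set c := min (1 / 2) (U b * β / 4) with hc
  have hc0 : 0 < c := lt_min (by norm_num) (by positivity)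
  have hc1 : c ≤ 1 / 2 := min_le_left _ _
  have hc2 : c ≤ U b * β / 4 := min_le_right _ _
  set L0 := β / (c * h) + 2 * (-Real.log c) + 2 * β / T0 b + 2 / q * (4 + q) + 2 / γ + 6 * (1 + γ) / γ + 1 with hL0
  have hlc : 0 < -Real.log c := by
    have := Real.log_neg hc0 (by linarith)
    linarith
  have p1 : 0 < β / (c * h) := by positivity
  have p2 : 0 < 2 * β / T0 b := by positivity
  have p3 : 0 < 2 / q * (4 + q) := by positivity
  have p4 : 0 < 2 / γ := by positivity
  have p5 : 0 < 6 * (1 + γ) / γ := by positivity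
  refine ⟨min (b / 8) (Real.exp (-(L0 + 1))), lt_min (by linarith) (Real.exp_pos _), min_le_left _ _, ?_⟩
  intro a ha haa m y hm0 hm1 y1 y2 y3 y4
  have hab : a ≤ b / 8 := haa.trans (min_le_left _ _)
  have haL : a ≤ Real.exp (-(L0 + 1)) := haa.trans (min_le_right _ _)
  set δ := U a with hδ
  have hδ0 : 0 < δ := U_pos ha
  have hδa : a ≤ δ := le_U ha (by linarith)
  have hδ4 : δ ≤ 4 / π * a := U_le ha
  have h4pi : 4 / π ≤ 1.28 := by
    rw [div_le_iff₀ hpi]
    nlinarith [Real.pi_gt_d2]
  have hδ5 : δ ≤ 1.28 * a := hδ4.trans (mul_le_mul_of_nonneg_right h4pi ha.le)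
  set L := -Real.log δ with hL
  have he1 := Real.exp_one_gt_d9
  have hLL : L0 ≤ L := by
    have h1 : δ ≤ Real.exp (-L0) := by
      have h2 : Real.exp (-L0) = Real.exp 1 * Real.exp (-(L0 + 1)) := by
        rw [← Real.exp_add]; congr 1; ring
      rw [h2]
      have h3 : 1.28 * Real.exp (-(L0 + 1)) ≤ Real.exp 1 * Real.exp (-(L0 + 1)) :=
        mul_le_mul_of_nonneg_right (by linarith) (Real.exp_pos _).le
      linarith
    have h2 := Real.log_le_log hδ0 h1
    rw [Real.log_exp] at h2
    linarith
  have hL00 : 1 ≤ L0 := by rw [hL0]; linarith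
  have hLp : 0 < L := by linarith
  set Λ := -Real.log (a / 2) with hΛ
  have hΛL : Λ ≤ L + 1 := by
    have h1 : δ ≤ a / 2 * Real.exp 1 := by
      have h3 : a / 2 * 2.7 ≤ a / 2 * Real.exp 1 := mul_le_mul_of_nonneg_left (by linarith) (by linarith)
      linarith
    have h2 := Real.log_le_log hδ0 h1
    rw [Real.log_mul (by positivity) (Real.exp_pos _).ne', Real.log_exp] at h2
    linarith
  have hΛ0 : 0 < Λ := by
    have := Real.log_neg (show 0 < a / 2 by linarith) (by linarith)
    linarith
  set α := Real.log (U b) / Real.log (U a) with hα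
  have hαe : α = β / L := by
    rw [hα, hβ, hL, neg_div_neg_eq]
  have hα0 : 0 < α := by rw [hαe]; positivity
  have hαL : α * L = β := by rw [hαe]; field_simp
  have hmα : m ^ α = Real.exp (α * Real.log m) := by
    rw [Real.rpow_def_of_pos hm0, mul_comm]
  have hmα2 : U b * (1 + α * (Real.log m + L)) ≤ m ^ α := by
    have h1 : α * Real.log m = -β + α * (Real.log m + L) := by rw [mul_add, hαL]; ring
    rw [hmα, h1, Real.exp_add, ← hUbe]
    refine mul_le_mul_of_nonneg_left ?_ hUb0.le
    linarith [Real.add_one_le_exp (α * (Real.log m + L))]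
  rcases le_or_gt c m with hcm | hcm
  · -- case A
    refine y1.trans ?_
    have h1 : 1 + α * Real.log m ≤ m ^ α := by
      rw [hmα]
      linarith [Real.add_one_le_exp (α * Real.log m)]
    have h2 : 1 - m⁻¹ ≤ Real.log m := Real.one_sub_inv_le_log_of_pos hm0
    have h3 : α ≤ c * h := by
      rw [hαe, div_le_iff₀ hLp]
      have h4 : β / (c * h) ≤ L := by linarith
      rw [div_le_iff₀ (by positivity)] at h4
      linarith
    have h5 : m⁻¹ - 1 ≤ (1 - m) / c := by
      have h6 : m⁻¹ - 1 = (1 - m) / m := by field_simp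
      rw [h6]
      exact div_le_div_of_nonneg_left (by linarith) hc0 hcm
    have h7 : α * (m⁻¹ - 1) ≤ h * (1 - m) := by
      have h8 : α * (m⁻¹ - 1) ≤ c * h * ((1 - m) / c) :=
        mul_le_mul h3 h5 (by rw [sub_nonneg]; exact (one_le_inv₀ hm0).2 hm1) (by positivity)
      have h9 : c * h * ((1 - m) / c) = h * (1 - m) := by field_simp
      linarith
    have h10 := mul_le_mul_of_nonneg_left h2 hα0.le
    linarith
  rcases le_or_gt δ m with hδm | hδm
  · -- case B
    refine y2.trans (le_trans ?_ hmα2)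
    have hs1 := s1_le ha hab hb1
    have h1 : s1 a b * (m - δ) ≤ 2 * (m - δ) := mul_le_mul_of_nonneg_right hs1 (by linarith)
    have h2 : 2 * (m - δ) ≤ U b * (α * (Real.log m + L)) := by
      have hδc : δ < c := lt_of_le_of_lt hδm hcm
      have hcδ : 0 < c - δ := by linarith
      have w1 : 0 ≤ (c - m) / (c - δ) := div_nonneg (by linarith) hcδ.le
      have w2 : 0 ≤ (m - δ) / (c - δ) := div_nonneg (by linarith) hcδ.le
      have w3 : (c - m) / (c - δ) + (m - δ) / (c - δ) = 1 := by field_simp; ring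
      have hconc := (strictConcaveOn_log_Ioi.concaveOn).2 (mem_Ioi.2 hδ0) (mem_Ioi.2 hc0) w1 w2 w3
      simp only [smul_eq_mul] at hconc
      have e1 : (c - m) / (c - δ) * δ + (m - δ) / (c - δ) * c = m := by field_simp; ring
      rw [e1] at hconc
      have e2 : (c - m) / (c - δ) * Real.log δ + (m - δ) / (c - δ) * Real.log c + L =
          (m - δ) / (c - δ) * (Real.log c + L) := by
        have : Real.log δ = -L := by rw [hL]; ring
        rw [this]; field_simp; ring
      have e3 : L / 2 ≤ Real.log c + L := by linarith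
      have e4 : (m - δ) / c ≤ (m - δ) / (c - δ) :=
        div_le_div_of_nonneg_left (by linarith) hcδ (by linarith)
      have e5 : (m - δ) / c * (L / 2) ≤ Real.log m + L := by
        have h3 : (m - δ) / c * (L / 2) ≤ (m - δ) / (c - δ) * (Real.log c + L) :=
          mul_le_mul e4 e3 (by linarith) (div_nonneg (by linarith) hcδ.le)
        linarith
      have e6 : α * ((m - δ) / c * (L / 2)) ≤ α * (Real.log m + L) := mul_le_mul_of_nonneg_left e5 hα0.le
      have e7 : α * ((m - δ) / c * (L / 2)) = β / 2 * ((m - δ) / c) := by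
        rw [← hαL]; ring
      have e8 : 2 * (m - δ) ≤ U b * (β / 2 * ((m - δ) / c)) := by
        have : U b * (β / 2 * ((m - δ) / c)) = (U b * β / 4) / c * (2 * (m - δ)) := by ring
        rw [this]
        refine le_mul_of_one_le_left (by linarith) ?_
        rw [one_le_div hc0]
        exact hc2
      rw [e7] at e6
      exact e8.trans (mul_le_mul_of_nonneg_left e6 hUb0.le)
    linarith
  have hTδ : T0 b ≤ T0 b / a * δ := by
    rw [div_mul_eq_mul_div, le_div_iff₀ ha]
    exact mul_le_mul_of_nonneg_left hδa hT0.le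
  rcases le_or_gt (δ / 2) m with hδ2 | hδ2
  · -- case C
    refine y3.trans (le_trans ?_ hmα2)
    have h1 : -(2 * (δ - m) / δ) ≤ Real.log m + L := by
      have h2 : 1 - (m / δ)⁻¹ ≤ Real.log (m / δ) := Real.one_sub_inv_le_log_of_pos (by positivity)
      rw [Real.log_div hm0.ne' hδ0.ne'] at h2
      have h3 : -(2 * (δ - m) / δ) ≤ 1 - (m / δ)⁻¹ := by
        have h4 : 1 - (m / δ)⁻¹ = -((δ - m) / m) := by field_simp; ring
        rw [h4, neg_le_neg_iff, div_le_div_iff₀ hm0 hδ0]
        have h5 : 0 ≤ (δ - m) * (2 * m - δ) := mul_nonneg (by linarith) (by linarith)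
        linarith
      linarith
    have h2 : 2 * α ≤ T0 b := by
      rw [hαe]
      have h3 : 2 * β / T0 b ≤ L := by linarith
      rw [div_le_iff₀ hT0] at h3
      rw [← mul_div_assoc, div_le_iff₀ hLp]
      linarith
    have h3 : α * (2 * (δ - m) / δ) ≤ T0 b / a * (δ - m) := by
      have h4 : α * (2 * (δ - m) / δ) = 2 * α / δ * (δ - m) := by ring
      rw [h4]
      refine mul_le_mul_of_nonneg_right ?_ (by linarith)
      rw [div_le_iff₀ hδ0]
      linarith
    have h5 : -(α * (2 * (δ - m) / δ)) ≤ α * (Real.log m + L) := by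
      have := mul_le_mul_of_nonneg_left h1 hα0.le
      linarith
    have h6 : 0 ≤ α * (2 * (δ - m) / δ) := by
      have : 0 ≤ δ - m := by linarith
      positivity
    have h7 : U b * (-(α * (2 * (δ - m) / δ))) ≤ U b * (α * (Real.log m + L)) := mul_le_mul_of_nonneg_left h5 hUb0.le
    have h8 : U b * (α * (2 * (δ - m) / δ)) ≤ α * (2 * (δ - m) / δ) := mul_le_of_le_one_left h6 hUb1.le
    linarith
  rcases le_or_gt (-(1 + q) * L) (Real.log m) with hmq | hmq
  · -- case D
    refine y3.trans ?_
    have h1 : T0 b / a * (m - δ) ≤ -(T0 b / 2) := by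
      have : T0 b / a * (m - δ) ≤ T0 b / a * (-(δ / 2)) := mul_le_mul_of_nonneg_left (by linarith) (by positivity)
      linarith
    have h2 : Real.exp (-β + -(q * β)) ≤ m ^ α := by
      rw [hmα]
      refine Real.exp_le_exp.2 ?_
      have := mul_le_mul_of_nonneg_left hmq hα0.le
      have h3 : α * (-(1 + q) * L) = -β + -(q * β) := by
        rw [← hαL]; ring
      linarith
    rw [Real.exp_add, ← hUbe] at h2
    have h3 : 1 + -(q * β) ≤ Real.exp (-(q * β)) := by
      have := Real.add_one_le_exp (-(q * β))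
      linarith
    have h4 : U b * (1 + -(q * β)) ≤ U b * Real.exp (-(q * β)) := mul_le_mul_of_nonneg_left h3 hUb0.le
    rw [hqβ] at h4 h2
    have h5 : U b * (T0 b / 2) ≤ T0 b / 2 := mul_le_of_le_one_left (by linarith) hUb1.le
    linarith
  · -- case E
    set x := -Real.log m with hx
    have hx1 : (1 + q) * L ≤ x := by linarith
    have hxL : L ≤ x := by
      have := mul_pos hq0 hLp
      linarith
    have hx0 : 0 < x := by linarith
    set κ := (x - Real.log 16) / Λ with hκ
    have h16 := log16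
    have e1 : (16 * m) ^ (Real.log b / Real.log (a / 2)) = Real.exp (-(κ * s)) := by
      rw [Real.rpow_def_of_pos (by positivity), Real.log_mul (by norm_num) hm0.ne']
      congr 1
      have h1 : Real.log b = -s := by rw [hs]; ring
      have h2 : Real.log (a / 2) = -Λ := by rw [hΛ]; ring
      have h3 : Real.log m = -x := by rw [hx]; ring
      rw [h1, h2, h3, hκ]
      field_simp
      ring
    rw [e1] at y4
    have e2 : 4 / π * Real.arctan (Real.exp (-(κ * s))) = Real.exp (-psi (κ * s)) := by
      unfold psi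
      have := Real.arctan_pos.2 (Real.exp_pos (-(κ * s)))
      rw [neg_neg, Real.exp_log (by positivity)]
    rw [e2] at y4
    refine y4.trans ?_
    rw [hmα]
    refine Real.exp_le_exp.2 ?_
    have hκκ : κ1 ≤ κ := by
      rw [hκ, le_div_iff₀ hΛ0]
      have h1 : κ1 * Λ ≤ κ1 * (L + 1) := mul_le_mul_of_nonneg_left hΛL (by linarith)
      have h2 : 2 / q * (4 + q) ≤ L := by linarith
      have h3 : 4 + q ≤ q / 2 * L := by
        have := mul_le_mul_of_nonneg_left h2 (show 0 ≤ q / 2 by positivity)
        have h4 : q / 2 * (2 / q * (4 + q)) = 4 + q := by field_simp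
        linarith
      have h4 : κ1 * (L + 1) = L + q / 2 * L + 1 + q / 2 := by rw [hκ1]; ring
      linarith
    have hps : κ * β * (1 + γ) ≤ psi (κ * s) := by
      rcases hκκ.eq_or_lt with h1 | h1
      · rw [← h1, hγe]
      · have h2 := psi_ratio (s := κ1 * s) (t := κ * s) (by positivity) (mul_lt_mul_of_pos_right h1 hs0)
        rw [hγe] at h2
        have h3 : κ * β * (1 + γ) * (κ1 * s) < psi (κ * s) * (κ1 * s) := by linarith
        exact (lt_of_mul_lt_mul_right h3 (by positivity)).le
    have hfin : α * x ≤ κ * β * (1 + γ) := by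
      have h1 : α * x * L = β * x := by rw [← hαL]; ring
      have h2 : κ * Λ = x - Real.log 16 := by rw [hκ]; field_simp
      have h3 : x * Λ ≤ (x - Real.log 16) * (1 + γ) * L := by
        have h4 : x * Λ ≤ x * (L + 1) := mul_le_mul_of_nonneg_left hΛL hx0.le
        -- x (γ L - 1) ≥ log 16 (1+γ) L
        have h5 : 2 / γ ≤ L := by linarith
        have h6 : 1 ≤ γ * L / 2 := by
          rw [div_le_iff₀ hγ0] at h5
          linarith
        have h7 : 6 * (1 + γ) / γ ≤ x := by linarith
        rw [div_le_iff₀ hγ0] at h7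
        have h8 : x * 1 ≤ x * (γ * L / 2) := mul_le_mul_of_nonneg_left h6 hx0.le
        have h9 : 6 * (1 + γ) * L ≤ x * γ * L := mul_le_mul_of_nonneg_right h7 hLp.le
        have h10 : Real.log 16 * ((1 + γ) * L) ≤ 3 * ((1 + γ) * L) := mul_le_mul_of_nonneg_right h16 (by positivity)
        linarith
      have h4 : α * x * (L * Λ) ≤ κ * β * (1 + γ) * (L * Λ) := by
        have h5 : α * x * (L * Λ) = β * (x * Λ) := by rw [← mul_assoc, h1]; ring
        have h6 : κ * β * (1 + γ) * (L * Λ) = β * ((x - Real.log 16) * (1 + γ) * L) := by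
          rw [← h2]; ring
        rw [h5, h6]
        exact mul_le_mul_of_nonneg_left h3 hβ0.le
      exact le_of_mul_le_mul_right h4 (by positivity)
    have h3 : α * Real.log m = -(α * x) := by rw [hx]; ring
    linarith

end TBP
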