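import Pool.Agent.Lib.MP_8b37c6_anP.B
import Pool.Agent.Lib.MP_8b37c6_anP.C
import Pool.Agent.Lib.MP_8b37c6_anP.D
import Pool.Agent.Lib.MP_8b37c6_an.Z1

/-!
# MP_8b37c6_an, plane case: transfer between the complex plane and the Euclidean plane
-/

namespace TBP

open Complex Metric InnerProductSpace Real Set Laplacian TB

/-- linear isometries preserve harmonic functions -/
theorem harm_iso {V W : Type*} [NormedAddCommGroup V] [InnerProductSpace ℝ V] [FiniteDimensional ℝ V]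
    [NormedAddCommGroup W] [InnerProductSpace ℝ W] [FiniteDimensional ℝ W] {F : Type*} [NormedAddCommGroup F]
    [NormedSpace ℝ F] (Φ : V ≃ₗᵢ[ℝ] W) {f : W → F} {x : V} (h : HarmonicAt f (Φ x)) : HarmonicAt (f ∘ Φ) x := by
  have hlap : ∀ y : V, (Δ (f ∘ Φ)) y = (Δ f) (Φ y) := by
    intro y
    have h1 := laplacian_eq_iteratedFDeriv_orthonormalBasis (f ∘ Φ) (stdOrthonormalBasis ℝ V)
    have h2 := laplacian_eq_iteratedFDeriv_orthonormalBasis f ((stdOrthonormalBasis ℝ V).map Φ)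
    rw [h1, h2]
    simp only
    refine Finset.sum_congr rfl fun i _ => ?_
    have h3 := (Φ.toContinuousLinearEquiv).iteratedFDerivWithin_comp_right f (s := univ) uniqueDiffOn_univ
      (x := y) (mem_univ _) 2
    rw [preimage_univ, iteratedFDerivWithin_univ, iteratedFDerivWithin_univ] at h3
    have h4 : (f ∘ (Φ.toContinuousLinearEquiv : V → W)) = f ∘ Φ := rfl
    rw [h4] at h3
    rw [h3]
    rw [ContinuousMultilinearMap.compContinuousLinearMap_apply]
    congr 1
    ext j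
    fin_cases j <;> simp
  refine ⟨?_, ?_⟩
  · exact h.1.comp x (Φ.contDiff.contDiffAt)
  · have hcont : Filter.Tendsto Φ (nhds x) (nhds (Φ x)) := Φ.continuous.tendsto x
    filter_upwards [hcont.eventually h.2] with y hy
    rw [hlap y, hy]
    rfl

/-- From a bound for real harmonic functions to admissibility (as in `TB.adm_of_unit`, any exponent). -/
theorem adm_of_unit' {n : ℕ} {a b R γ : ℝ} (ha : 0 < a) (hab : a < b) (hb : b < 1) (hR : 0 < R)
    (hγ1 : γ < 1)
    (hU : ∀ v : TB.E n → ℝ, HarmonicOnNhd v (closedBall (0 : TB.E n) 1) → (∀ x : TB.E n, ‖x‖ ≤ 1 → |v x| ≤ 1) →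
      ∀ m : ℝ, (∀ x : TB.E n, ‖x‖ ≤ a → |v x| ≤ m) → ∀ e : TB.E n, ‖e‖ = 1 → v (b • e) ≤ m ^ γ) :
    Admissible n (a * R) (b * R) R γ := by
  intro u hu hC
  obtain ⟨C, hC⟩ := hC
  have hb0 : 0 < b := ha.trans hab
  have ha1 : a < 1 := hab.trans hb
  set K := M u R with hK
  have hK0 : 0 ≤ K := M_nonneg u R
  have hA0 : 0 ≤ M u (a * R) := M_nonneg u _
  have hbR : 0 < b * R := mul_pos hb0 hR
  have haR : 0 < a * R := mul_pos ha hR
  have haR' : a * R < R := by nlinarith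
  have hbR' : b * R < R := by nlinarith
  have hle : ∀ x : TB.E n, ‖x‖ < R → ‖u x‖ ≤ K := fun x hx => le_M hC hx
  have hlea : ∀ x : TB.E n, ‖x‖ < a * R → ‖u x‖ ≤ M u (a * R) := fun x hx =>
    le_M (s := a * R) (C := C) (fun y hy => hC y (ball_subset_ball haR'.le hy)) hx
  refine M_le hbR fun x hx => ?_
  rcases hK0.eq_or_lt with hK1 | hK1
  · have h1 := hle x (hx.trans hbR')
    rw [← hK1] at h1
    exact h1.trans (mul_nonneg (Real.rpow_nonneg hA0 _) (Real.rpow_nonneg hK0 _))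
  set m := M u (a * R) / K with hm
  have hm0 : 0 ≤ m := div_nonneg hA0 hK0
  have hm1 : m ≤ 1 := by
    rw [hm, div_le_one hK1]
    exact M_le haR fun y hy => hle y (hy.trans haR')
  have hrhs : M u (a * R) ^ γ * K ^ (1 - γ) = m ^ γ * K := by
    rw [hm, Real.div_rpow hA0 hK0, Real.rpow_sub hK1, Real.rpow_one]
    ring
  rw [hrhs]
  by_cases hx0 : x = 0
  · have h1 : ‖u x‖ ≤ M u (a * R) := hlea x (by rw [hx0, norm_zero]; exact haR)
    have h2 : M u (a * R) = m * K := by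
      rw [hm]
      field_simp
    rw [h2] at h1
    refine h1.trans (mul_le_mul_of_nonneg_right ?_ hK0)
    exact Real.self_le_rpow_of_le_one hm0 hm1 hγ1.le
  · have hxn : 0 < ‖x‖ := norm_pos_iff.2 hx0
    set c : ℝ := ‖x‖ / b with hc
    have hc0 : 0 < c := div_pos hxn hb0
    have hcR : c < R := by
      rw [hc, div_lt_iff₀ hb0]
      linarith
    set e : TB.E n := ‖x‖⁻¹ • x with he
    have he1 : ‖e‖ = 1 := by
      rw [he, norm_smul, norm_inv, norm_norm, inv_mul_cancel₀ hxn.ne']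
    have hce : c • (b • e) = x := by
      rw [he, hc, smul_smul, smul_smul]
      have : ‖x‖ / b * (b * ‖x‖⁻¹) = 1 := by
        field_simp
      rw [mul_assoc, this, one_smul]
    set w : ℂ := (starRingEnd ℂ (u x)) / (‖u x‖ : ℂ) with hw
    have hw1 : ‖w‖ ≤ 1 := by
      rw [hw, norm_div, RCLike.norm_conj, Complex.norm_real, norm_norm]
      exact div_self_le_one _
    have hwx : w * u x = (‖u x‖ : ℂ) := by
      rw [hw, div_mul_eq_mul_div, mul_comm (starRingEnd ℂ (u x)), Complex.mul_conj]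
      by_cases h0 : u x = 0
      · simp [h0]
      · have h1 : (‖u x‖ : ℂ) ≠ 0 := by
          exact_mod_cast (norm_ne_zero_iff.2 h0)
        rw [Complex.normSq_eq_norm_sq]
        push_cast
        field_simp
    set l : ℂ →L[ℝ] ℝ := (1 / K) • (Complex.reCLM.comp ((ContinuousLinearMap.mul ℝ ℂ) w)) with hl
    have hlz : ∀ z : ℂ, l z = (1 / K) * (w * z).re := by
      intro z
      simp [hl]
    have hla : ∀ z : ℂ, |l z| ≤ ‖z‖ / K := by
      intro z
      rw [hlz, abs_mul, abs_of_pos (one_div_pos.2 hK1)]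
      have h1 : |(w * z).re| ≤ ‖z‖ := by
        refine (Complex.abs_re_le_norm _).trans ?_
        rw [norm_mul]
        nlinarith [norm_nonneg z]
      rw [one_div_mul_eq_div]
      exact div_le_div_of_nonneg_right h1 hK0
    set v : TB.E n → ℝ := fun y => l (u (c • y)) with hv
    have hcy : ∀ y : TB.E n, ‖c • y‖ = c * ‖y‖ := fun y => by
      rw [norm_smul, Real.norm_of_nonneg hc0.le]
    have h1 : HarmonicOnNhd v (closedBall (0 : TB.E n) 1) := by
      intro y hy
      have hy1 : ‖y‖ ≤ 1 := by simpa using hy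
      have h2 : ‖c • y‖ < R := by
        rw [hcy]
        nlinarith
      have h3 : HarmonicAt u (c • y) := hu _ (by simpa using h2)
      exact harm_dil (f := fun z => l (u z)) (h3.comp_CLM l)
    have h2 : ∀ y : TB.E n, ‖y‖ ≤ 1 → |v y| ≤ 1 := by
      intro y hy
      refine (hla _).trans ?_
      rw [div_le_one hK1]
      refine hle _ ?_
      rw [hcy]
      nlinarith
    have h3 : ∀ y : TB.E n, ‖y‖ ≤ a → |v y| ≤ m := by
      intro y hy
      refine (hla _).trans ?_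
      rw [hm]
      refine div_le_div_of_nonneg_right ?_ hK0
      refine hlea _ ?_
      rw [hcy]
      nlinarith
    have h4 := hU v h1 h2 m h3 e he1
    have h5 : v (b • e) = ‖u x‖ / K := by
      rw [hv]
      simp only
      rw [hce, hlz, hwx, Complex.ofReal_re]
      ring
    rw [h5, div_le_iff₀ hK1] at h4
    exact h4

/-- an isometry from the complex plane that maps 1 to a given unit vector -/
theorem exists_Phi {e : TB.E 2} (he : ‖e‖ = 1) : ∃ Φ : ℂ ≃ₗᵢ[ℝ] TB.E 2, Φ 1 = e := by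
  set ψ : ℂ ≃ₗᵢ[ℝ] TB.E 2 := Complex.orthonormalBasisOneI.repr with hψ
  set ζ : ℂ := ψ.symm e with hζ
  have hn : ‖ζ‖ = 1 := by rw [hζ, ψ.symm.norm_map, he]
  obtain ⟨c, hc⟩ : ∃ c : Circle, (c : ℂ) = ζ := by
    refine ⟨Circle.exp ζ.arg, ?_⟩
    rw [Circle.coe_exp]
    have := Complex.norm_mul_exp_arg_mul_I ζ
    rwa [hn, Complex.ofReal_one, one_mul] at this
  refine ⟨(rotation c).trans ψ, ?_⟩
  rw [LinearIsometryEquiv.trans_apply, rotation_apply, mul_one, hc]
  exact ψ.apply_symm_apply e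

/-- transfer of the bound -/
theorem unit_transfer {a b γ : ℝ}
    (hU : ∀ v : ℂ → ℝ, HarmonicOnNhd v (closedBall (0 : ℂ) 1) → (∀ z ∈ closedBall (0 : ℂ) 1, |v z| ≤ 1) →
      ∀ m : ℝ, (∀ z : ℂ, ‖z‖ ≤ a → |v z| ≤ m) → v b ≤ m ^ γ) :
    ∀ v : TB.E 2 → ℝ, HarmonicOnNhd v (closedBall (0 : TB.E 2) 1) → (∀ x : TB.E 2, ‖x‖ ≤ 1 → |v x| ≤ 1) →
      ∀ m : ℝ, (∀ x : TB.E 2, ‖x‖ ≤ a → |v x| ≤ m) → ∀ e : TB.E 2, ‖e‖ = 1 → v (b • e) ≤ m ^ γ := by
  intro v hv h1 m hm e he
  obtain ⟨Φ, hΦ⟩ := exists_Phi he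
  have h2 := hU (v ∘ Φ) (fun z hz => harm_iso Φ (hv _ (by simpa using hz)))
    (fun z hz => h1 _ (by simpa using hz)) m (fun z hz => hm _ (by simpa using hz))
  have h3 : Φ (b : ℂ) = b • e := by
    have : (b : ℂ) = b • (1 : ℂ) := by simp
    rw [this, map_smul, hΦ]
  simpa [h3] using h2

end TBP
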