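import Pool.Agent.Lib.MP_8b37c6_anP.E
import Pool.Agent.Lib.MP_8b37c6_anP.F

/-!
# MP_8b37c6_an, plane case: test function and the theorem for small inner radius
-/

namespace TBP

open Complex Metric InnerProductSpace Real Set Laplacian TB

/-- holomorphic completion of the test function -/
noncomputable def W (z : ℂ) : ℂ := (4 / π : ℝ) * Complex.arctan z

theorem g_re_pos {z : ℂ} (hz : ‖z‖ < 1) : 0 < ((1 + z * I) / (1 - z * I)).re := by
  have h1 : 1 - z * I ≠ 0 := by
    intro h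
    have h2 : z * I = 1 := (sub_eq_zero.1 h).symm
    have h3 : ‖z * I‖ = 1 := by rw [h2, norm_one]
    rw [norm_mul, Complex.norm_I, mul_one] at h3
    linarith
  have h2 : 0 < Complex.normSq (1 - z * I) := Complex.normSq_pos.2 h1
  have hz2 : z.re * z.re + z.im * z.im < 1 := by
    have h3 : Complex.normSq z < 1 := by
      rw [Complex.normSq_eq_norm_sq]
      nlinarith [norm_nonneg z]
    rwa [Complex.normSq_apply] at h3
  rw [Complex.div_re, ← add_div]
  refine div_pos ?_ h2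
  simp
  nlinarith

theorem W_exp {z : ℂ} (hz : ‖z‖ < 1) : exp (I * (π / 2) * W z) = (1 + z * I) / (1 - z * I) := by
  have hg := g_re_pos hz
  have hg0 : (1 + z * I) / (1 - z * I) ≠ 0 := by
    intro h
    rw [h] at hg
    simp at hg
  unfold W Complex.arctan
  have hpi : (π : ℂ) ≠ 0 := by exact_mod_cast Real.pi_ne_zero
  have : I * (π / 2) * (((4 / π : ℝ) : ℂ) * (-I / 2 * log ((1 + z * I) / (1 - z * I)))) =
      log ((1 + z * I) / (1 - z * I)) := by
    push_cast
    field_simp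
    ring_nf
    rw [Complex.I_sq]
    ring
  rw [this, Complex.exp_log hg0]

theorem W_re (z : ℂ) : (W z).re = 2 / π * ((1 + z * I) / (1 - z * I)).arg := by
  unfold W Complex.arctan
  have : (((4 / π : ℝ) : ℂ) * (-I / 2 * log ((1 + z * I) / (1 - z * I)))) =
      ((2 / π : ℝ) : ℂ) * (-I * log ((1 + z * I) / (1 - z * I))) := by
    push_cast
    ring
  rw [this, Complex.re_ofReal_mul]
  congr 1
  simp [Complex.log_im]

theorem W_re_le_one {z : ℂ} (hz : ‖z‖ < 1) : |(W z).re| ≤ 1 := by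
  have h1 := Complex.abs_arg_lt_pi_div_two_iff.2 (Or.inl (g_re_pos hz))
  rw [W_re, abs_mul, abs_of_pos (by positivity)]
  have : 2 / π * |((1 + z * I) / (1 - z * I)).arg| ≤ 2 / π * (π / 2) :=
    mul_le_mul_of_nonneg_left h1.le (by positivity)
  have h2 : 2 / π * (π / 2) = 1 := by field_simp
  linarith

theorem T_W {z : ℂ} (hz : ‖z‖ < 1) : T (W z) = z * I := by
  have h1 : 1 - z * I ≠ 0 := by
    intro h
    have h2 : z * I = 1 := (sub_eq_zero.1 h).symm
    have h3 : ‖z * I‖ = 1 := by rw [h2, norm_one]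
    rw [norm_mul, Complex.norm_I, mul_one] at h3
    linarith
  unfold T
  rw [W_exp hz]
  have e1 : (1 + z * I) / (1 - z * I) - 1 = 2 * (z * I) / (1 - z * I) := by
    field_simp; ring
  have e2 : (1 + z * I) / (1 - z * I) + 1 = 2 / (1 - z * I) := by
    field_simp; ring
  rw [e1, e2]
  field_simp

theorem W_re_le {z : ℂ} (hz : ‖z‖ < 1) : (W z).re ≤ U ‖z‖ := by
  refine re_le (W_re_le_one hz) ?_
  rw [T_W hz, norm_mul, Complex.norm_I, mul_one]

theorem W_neg {z : ℂ} (hz : ‖z‖ < 1) : (W (-z)).re = -(W z).re := by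
  rw [W_re, W_re]
  have h1 : (1 + -z * I) / (1 - -z * I) = ((1 + z * I) / (1 - z * I))⁻¹ := by
    rw [inv_div]
    congr 1 <;> ring
  have hg := g_re_pos hz
  rw [h1, Complex.arg_inv, if_neg]
  · ring
  · intro h
    have h2 := Complex.abs_arg_lt_pi_div_two_iff.2 (Or.inl hg)
    rw [h, abs_of_pos Real.pi_pos] at h2
    linarith [Real.pi_pos]

theorem W_abs {z : ℂ} (hz : ‖z‖ < 1) : |(W z).re| ≤ U ‖z‖ := by
  rw [abs_le]
  refine ⟨?_, W_re_le hz⟩
  have h1 := W_re_le (z := -z) (by rwa [norm_neg])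
  rw [W_neg hz, norm_neg] at h1
  linarith

theorem W_real (r : ℝ) : (W r).re = U r := by
  unfold W U
  rw [← Complex.ofReal_arctan, Complex.re_ofReal_mul, Complex.ofReal_re]

theorem W_analytic {z : ℂ} (hz : ‖z‖ < 1) : AnalyticAt ℂ W z := by
  have hg := g_re_pos hz
  have h1 : 1 - z * I ≠ 0 := by
    intro h
    have h2 : z * I = 1 := (sub_eq_zero.1 h).symm
    have h3 : ‖z * I‖ = 1 := by rw [h2, norm_one]
    rw [norm_mul, Complex.norm_I, mul_one] at h3
    linarith
  have h2 : (1 + z * I) / (1 - z * I) ∈ slitPlane := Or.inl hg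
  have h3 : AnalyticAt ℂ (fun z : ℂ => (1 + z * I) / (1 - z * I)) z :=
    AnalyticAt.div (by fun_prop) (by fun_prop) h1
  have h4 : AnalyticAt ℂ (fun z : ℂ => log ((1 + z * I) / (1 - z * I))) z := h3.clog h2
  unfold W Complex.arctan
  exact analyticAt_const.mul (analyticAt_const.mul h4)

/-- the test function on the Euclidean plane -/
noncomputable def tst (R : ℝ) (x : TB.E 2) : ℂ := ((W (Complex.orthonormalBasisOneI.repr.symm (R⁻¹ • x))).re : ℂ)

theorem tst_harm {R : ℝ} (hR : 0 < R) : HarmonicOnNhd (tst R) (ball 0 R) := by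
  intro x hx
  have hx1 : ‖R⁻¹ • x‖ < 1 := by
    rw [norm_smul, norm_inv, Real.norm_of_nonneg hR.le, inv_mul_lt_iff₀ hR, mul_one]
    simpa using hx
  set ψ : TB.E 2 ≃ₗᵢ[ℝ] ℂ := Complex.orthonormalBasisOneI.repr.symm with hψ
  have h1 : HarmonicAt (fun z : ℂ => (W z).re) (ψ (R⁻¹ • x)) := by
    have := (W_analytic (z := ψ (R⁻¹ • x)) (by rw [ψ.norm_map]; exact hx1)).harmonicAt_re
    exact this
  have h2 := harm_iso ψ h1
  have h3 := harm_dil (f := (fun z : ℂ => (W z).re) ∘ ψ) h2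
  exact h3.comp_CLM Complex.ofRealCLM

theorem tst_M {R s : ℝ} (hR : 0 < R) (hs : 0 < s) (hsR : s ≤ R) : M (tst R) s = U (s / R) := by
  have hnorm : ∀ x : TB.E 2, ‖R⁻¹ • x‖ = ‖x‖ / R := by
    intro x
    rw [norm_smul, norm_inv, Real.norm_of_nonneg hR.le, inv_mul_eq_div]
  refine M_eq (g := fun t => U (t / R)) hs ?_ ?_ ?_ (e := Complex.orthonormalBasisOneI.repr 1) (by simp) ?_
  · have : Continuous fun t : ℝ => U (t / R) := by
      unfold U
      exact continuous_const.mul (Real.continuous_arctan.comp (continuous_id.div_const R))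
    exact this.continuousOn
  · intro t _ t' _ htt
    exact U_mono (by gcongr)
  · intro x hx
    unfold tst
    rw [Complex.norm_real, Real.norm_eq_abs]
    have h1 : ‖Complex.orthonormalBasisOneI.repr.symm (R⁻¹ • x)‖ = ‖x‖ / R := by
      rw [LinearIsometryEquiv.norm_map, hnorm]
    have h2 := W_abs (z := Complex.orthonormalBasisOneI.repr.symm (R⁻¹ • x)) (by
      rw [h1, div_lt_one hR]; linarith)
    rw [h1] at h2
    exact h2
  · intro t ht hts
    unfold tst
    rw [Complex.norm_real, Real.norm_eq_abs]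
    have h1 : Complex.orthonormalBasisOneI.repr.symm (R⁻¹ • t • Complex.orthonormalBasisOneI.repr 1) = ((t / R : ℝ) : ℂ) := by
      rw [smul_smul, map_smul, LinearIsometryEquiv.symm_apply_apply]
      rw [Complex.real_smul, mul_one, inv_mul_eq_div]
    rw [h1, W_real, abs_of_nonneg]
    unfold U
    have := Real.arctan_nonneg.2 (show 0 ≤ t / R by positivity)
    positivity

theorem U_lt_one {r : ℝ} (hr : r < 1) : U r < 1 := by
  rw [← U_one]; exact U_lt hr

/-- the upper bound for the optimal exponent -/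
theorem adm_le {a b R α : ℝ} (ha : 0 < a) (hab : a < b) (hb : b < 1) (hR : 0 < R)
    (h : Admissible 2 (a * R) (b * R) R α) : α ≤ Real.log (U b) / Real.log (U a) := by
  have hb0 := ha.trans hab
  have h1 := h (tst R) (tst_harm hR) ⟨1, fun x hx => by
    have hx1 : ‖x‖ < R := by simpa using hx
    unfold tst
    rw [Complex.norm_real, Real.norm_eq_abs]
    refine W_re_le_one ?_
    rw [LinearIsometryEquiv.norm_map, norm_smul, norm_inv, Real.norm_of_nonneg hR.le, inv_mul_lt_iff₀ hR, mul_one]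
    exact hx1⟩
  rw [tst_M hR (by positivity) (by nlinarith), tst_M hR (by positivity) (by nlinarith), tst_M hR hR le_rfl] at h1
  have e1 : a * R / R = a := by field_simp
  have e2 : b * R / R = b := by field_simp
  have e3 : R / R = 1 := div_self hR.ne'
  rw [e1, e2, e3, U_one, Real.one_rpow, mul_one] at h1
  have hUa := U_pos ha
  have hUa1 := U_lt_one (hab.trans hb)
  have h2 := Real.log_le_log (U_pos hb0) h1
  rw [Real.log_rpow hUa] at h2
  rw [le_div_iff_of_neg (Real.log_neg hUa hUa1)]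
  exact h2

theorem unitC {b : ℝ} (hb0 : 0 < b) (hb1 : b < 1) : ∃ a0 : ℝ, 0 < a0 ∧ a0 ≤ b / 8 ∧ ∀ a, 0 < a → a ≤ a0 →
    ∀ v : ℂ → ℝ, HarmonicOnNhd v (closedBall (0 : ℂ) 1) → (∀ z ∈ closedBall (0 : ℂ) 1, |v z| ≤ 1) →
      ∀ m : ℝ, (∀ z : ℂ, ‖z‖ ≤ a → |v z| ≤ m) → v b ≤ m ^ (Real.log (U b) / Real.log (U a)) := by
  obtain ⟨a0, ha0, ha0b, hmain⟩ := main_real hb0 hb1
  refine ⟨a0, ha0, ha0b, fun a ha haa v hv h1 m hm => ?_⟩
  have hab : a ≤ b / 8 := haa.trans ha0b
  have hα : 0 < Real.log (U b) / Real.log (U a) :=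
    div_pos_of_neg_of_neg (Real.log_neg (U_pos hb0) (U_lt_one hb1)) (Real.log_neg (U_pos ha) (U_lt_one (by linarith)))
  set α := Real.log (U b) / Real.log (U a) with hαdef
  have hv0 : |v 0| ≤ m := hm 0 (by simpa using ha.le)
  have hm0 : 0 ≤ m := (abs_nonneg _).trans hv0
  have hpos : ∀ m' : ℝ, 0 < m' → m' ≤ 1 → (∀ z : ℂ, ‖z‖ ≤ a → |v z| ≤ m') → v b ≤ m' ^ α := by
    intro m' hm'0 hm'1 hm'
    refine hmain a ha haa m' (v b) hm'0 hm'1 ?_ ?_ ?_ ?_
    · have h2 := harnack hv h1 hb0 hb1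
      have h3 : v 0 ≤ m' := (le_abs_self _).trans (hm' 0 (by simpa using ha.le))
      have h4 : (1 - b) / (1 + b) * (1 - m') ≤ (1 - b) / (1 + b) * (1 - v 0) :=
        mul_le_mul_of_nonneg_left (by linarith) (div_nonneg (by linarith) (by linarith))
      linarith
    · exact lin1 hv h1 ha (by linarith) hb1 hm'
    · exact lin2 hv h1 ha hab hb1 hm'
    · exact three hv h1 ha (by linarith) (by linarith) hb1 hm'0 hm'
  rcases le_or_gt 1 m with hm1 | hm1
  · have h2 : v b ≤ 1 := (le_abs_self _).trans (h1 _ (by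
      rw [mem_closedBall_zero_iff, Complex.norm_real, Real.norm_of_nonneg hb0.le]; exact hb1.le))
    exact h2.trans (Real.one_le_rpow hm1 hα.le)
  rcases hm0.eq_or_lt with hm2 | hm2
  · rw [← hm2, Real.zero_rpow hα.ne']
    have ht : Filter.Tendsto (fun m' : ℝ => m' ^ α) (nhdsWithin 0 (Ioi 0)) (nhds 0) := by
      have h3 := (Real.continuousAt_rpow_const 0 α (Or.inr hα.le)).tendsto
      rw [Real.zero_rpow hα.ne'] at h3
      exact h3.mono_left nhdsWithin_le_nhds
    refine ge_of_tendsto ht ?_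
    filter_upwards [Ioo_mem_nhdsGT (show (0 : ℝ) < 1 by norm_num)] with m' hm'
    exact hpos m' hm'.1 hm'.2.le fun z hz => (hm z hz).trans (by rw [← hm2]; exact hm'.1.le)
  · exact hpos m hm2 hm1.le hm

theorem small_inner : ∀ b : ℝ, 0 < b → b < 1 → ∃ a0 : ℝ, 0 < a0 ∧ a0 < b ∧ ∀ a R : ℝ, 0 < a → a ≤ a0 → 0 < R →
    aStar 2 (a * R) (b * R) R = Real.log (4 / π * Real.arctan b) / Real.log (4 / π * Real.arctan a) ∧
    Admissible 2 (a * R) (b * R) R (Real.log (4 / π * Real.arctan b) / Real.log (4 / π * Real.arctan a)) := by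
  intro b hb0 hb1
  obtain ⟨a0, ha0, ha0b, hmain⟩ := unitC hb0 hb1
  refine ⟨a0, ha0, by linarith, fun a R ha haa hR => ?_⟩
  have hab : a < b := by linarith
  have hUa := Real.log_neg (U_pos ha) (U_lt_one (hab.trans hb1))
  have hUb := Real.log_neg (U_pos hb0) (U_lt_one hb1)
  have hα0 : 0 < Real.log (U b) / Real.log (U a) := div_pos_of_neg_of_neg hUb hUa
  have hα1 : Real.log (U b) / Real.log (U a) < 1 := by
    rw [div_lt_one_of_neg hUa]
    exact Real.log_lt_log (U_pos ha) (U_lt hab)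
  have hadm : Admissible 2 (a * R) (b * R) R (Real.log (U b) / Real.log (U a)) :=
    adm_of_unit' ha hab hb1 hR hα1 (unit_transfer (hmain a ha haa))
  refine ⟨?_, hadm⟩
  show aStar 2 (a * R) (b * R) R = Real.log (U b) / Real.log (U a)
  unfold aStar
  refine le_antisymm (Real.sSup_le ?_ hα0.le) ?_
  · rintro α ⟨_, _, h⟩
    exact adm_le ha hab hb1 hR h
  · refine le_csSup ⟨1, ?_⟩ ⟨hα0, hα1, hadm⟩
    rintro α ⟨_, h, _⟩
    exact h.le

end TBP
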