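import Pool.Agent.Lib.MP_8b37c6_anP.C

/-!
# MP_8b37c6_an, plane case: power series of a bounded harmonic function
-/

namespace TBP

open Complex Metric InnerProductSpace Real MeasureTheory Set

theorem int_abs_cos {n : ℕ} (hn : 1 ≤ n) (φ : ℝ) : ∫ θ in (0 : ℝ)..(2 * π), |Real.cos (φ - n * θ)| = 4 := by
  have hn0 : (n : ℝ) ≠ 0 := by positivity
  have hp : Function.Periodic (fun u : ℝ => |Real.cos u|) π := by
    intro u
    simp only [Real.cos_add_pi, abs_neg]
  have h0 : ∫ u in (-(π / 2))..(-(π / 2) + π), |Real.cos u| = 2 := by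
    have h1 : ∫ u in (-(π / 2))..(-(π / 2) + π), |Real.cos u| = ∫ u in (-(π / 2))..(π / 2), Real.cos u := by
      rw [show -(π / 2) + π = π / 2 by ring]
      refine intervalIntegral.integral_congr fun u hu => ?_
      rw [Set.uIcc_of_le (by linarith [Real.pi_pos])] at hu
      exact abs_of_nonneg (Real.cos_nonneg_of_mem_Icc hu)
    rw [h1, integral_cos, Real.sin_neg, Real.sin_pi_div_two]
    norm_num
  have h2 := intervalIntegral.integral_comp_sub_mul (fun u => |Real.cos u|) hn0 φ (a := 0) (b := 2 * π)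
  rw [h2, mul_zero, sub_zero, smul_eq_mul]
  have h3 : φ = (φ - n * (2 * π)) + (2 * n : ℤ) • π := by
    simp only [zsmul_eq_mul]
    push_cast
    ring
  have h4 : ∫ u in (φ - n * (2 * π))..φ, |Real.cos u| = (2 * n : ℤ) • ∫ u in (-(π / 2))..(-(π / 2) + π), |Real.cos u| := by
    rw [← hp.intervalIntegral_add_eq (φ - n * (2 * π)) (-(π / 2)), ← hp.intervalIntegral_add_zsmul_eq
      (2 * n : ℤ) (φ - n * (2 * π)) (fun a b => (by fun_prop : Continuous fun u : ℝ => |Real.cos u|).intervalIntegrable a b), ← h3]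
  rw [h4, h0]
  simp only [zsmul_eq_mul]
  push_cast
  field_simp
  norm_num

theorem coeffs {v : ℂ → ℝ} (hv : HarmonicOnNhd v (closedBall 0 1)) (hb : ∀ z ∈ closedBall (0 : ℂ) 1, |v z| ≤ 1) :
    ∃ c : ℕ → ℂ, (∀ z : ℂ, ‖z‖ < 1 → HasSum (fun n => (c n * z ^ n).re) (v z)) ∧ ∀ n, 1 ≤ n → ‖c n‖ ≤ 4 / π := by
  obtain ⟨R, hR, F, hF, hFv, -⟩ := exists_hol hv
  have hsub : closedBall (0 : ℂ) 1 ⊆ ball 0 R := closedBall_subset_ball hR
  have hFc : DifferentiableOn ℂ F (closedBall 0 ((1 : NNReal) : ℝ)) := hF.mono (by simpa using hsub)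
  have hps := hFc.hasFPowerSeriesOnBall (by norm_num : (0 : NNReal) < 1)
  refine ⟨fun n => cauchyPowerSeries F 0 1 n (fun _ => 1), fun z hz => ?_, fun n hn => ?_⟩
  · have h1 := hps.hasSum (y := z) (by
      rw [Metric.mem_eball, edist_zero_right, ← ofReal_norm, ENNReal.coe_one, ENNReal.ofReal_lt_one]
      exact hz)
    rw [zero_add] at h1
    have h2 := Complex.reCLM.hasSum h1
    have h3 : Complex.reCLM (F z) = v z := by
      rw [Complex.reCLM_apply]
      exact hFv z (hsub (by simpa using hz.le))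
    rw [h3] at h2
    have h4 : (fun n => Complex.reCLM (cauchyPowerSeries F 0 (((1 : NNReal) : ℝ)) n (fun _ => z))) =
        fun n => (cauchyPowerSeries F 0 1 n (fun _ => 1) * z ^ n).re := by
      funext n
      rw [FormalMultilinearSeries.apply_eq_pow_smul_coeff, Complex.reCLM_apply, smul_eq_mul, mul_comm]
      rfl
    rw [h4] at h2
    exact h2
  · set E : ℝ → ℂ := circleMap 0 1 with hE
    have hEn : ∀ θ, ‖E θ‖ = 1 := fun θ => by simp [hE, circleMap]
    have hEc : Continuous E := continuous_circleMap 0 1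
    have hEexp : ∀ θ : ℝ, E θ = exp (θ * I) := fun θ => by simp [hE, circleMap]
    have hFE : Continuous fun θ => F (E θ) := by
      refine hFc.continuousOn.comp_continuous hEc fun θ => ?_
      simp [hEn]
    have hc : cauchyPowerSeries F 0 1 n (fun _ => 1) = (2 * π : ℝ)⁻¹ * ∫ θ in (0 : ℝ)..(2 * π), ((E θ)⁻¹) ^ n * F (E θ) := by
      rw [cauchyPowerSeries_apply, circleIntegral]
      rw [← intervalIntegral.integral_const_mul, smul_eq_mul, ← intervalIntegral.integral_const_mul]
      refine intervalIntegral.integral_congr fun θ _ => ?_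
      have h0 : E θ ≠ 0 := by
        intro h; have := hEn θ; rw [h, norm_zero] at this; norm_num at this
      simp only [deriv_circleMap, smul_eq_mul, sub_zero, one_div]
      rw [← hE]
      push_cast
      have hI : (I : ℂ) ≠ 0 := Complex.I_ne_zero
      have hpi : (π : ℂ) ≠ 0 := by exact_mod_cast Real.pi_ne_zero
      field_simp
    have hJ : ∫ θ in (0 : ℝ)..(2 * π), (E θ) ^ n * F (E θ) = 0 := by
      have h1 : DiffContOnCl ℂ (fun z => z ^ n * F z) (ball 0 |(1 : ℝ)|) := by
        refine DifferentiableOn.diffContOnCl ?_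
        rw [abs_one, closure_ball (0 : ℂ) one_ne_zero]
        have h2 : DifferentiableOn ℂ F (closedBall 0 1) := hF.mono hsub
        exact (differentiableOn_id.pow n).mul h2
      have h3 := h1.circleAverage
      rw [Real.circleAverage] at h3
      have h4 : (0 : ℂ) ^ n * F 0 = 0 := by rw [zero_pow (by omega), zero_mul]
      rw [h4] at h3
      have h5 : ((2 * π)⁻¹ : ℝ) ≠ 0 := by positivity
      exact (smul_eq_zero.1 h3).resolve_left h5
    have key : ∀ φ : ℝ, (exp (φ * I) * cauchyPowerSeries F 0 1 n (fun _ => 1)).re ≤ 4 / π := by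
      intro φ
      have h1 : exp (φ * I) * cauchyPowerSeries F 0 1 n (fun _ => 1) = (2 * π : ℝ)⁻¹ *
          ∫ θ in (0 : ℝ)..(2 * π), (exp (φ * I) * ((E θ)⁻¹) ^ n + exp (-(φ * I)) * (E θ) ^ n) * F (E θ) := by
        have h2 : ∫ θ in (0 : ℝ)..(2 * π), (exp (φ * I) * ((E θ)⁻¹) ^ n + exp (-(φ * I)) * (E θ) ^ n) * F (E θ) =
            exp (φ * I) * (∫ θ in (0 : ℝ)..(2 * π), ((E θ)⁻¹) ^ n * F (E θ)) +
            exp (-(φ * I)) * ∫ θ in (0 : ℝ)..(2 * π), (E θ) ^ n * F (E θ) := by
          rw [← intervalIntegral.integral_const_mul, ← intervalIntegral.integral_const_mul,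
            ← intervalIntegral.integral_add]
          · refine intervalIntegral.integral_congr fun θ _ => ?_
            ring
          · refine Continuous.intervalIntegrable ?_ _ _
            refine continuous_const.mul ((Continuous.pow (hEc.inv₀ fun θ => ?_) n).mul hFE)
            intro h; have := hEn θ; rw [h, norm_zero] at this; norm_num at this
          · exact (continuous_const.mul ((hEc.pow n).mul hFE)).intervalIntegrable _ _
        rw [h2, hJ, mul_zero, add_zero, hc]
        ring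
      have h3 : ∀ θ : ℝ, (exp (φ * I) * ((E θ)⁻¹) ^ n + exp (-(φ * I)) * (E θ) ^ n) * F (E θ) =
          ((2 * Real.cos (φ - n * θ) : ℝ) : ℂ) * F (E θ) := by
        intro θ
        congr 1
        rw [hEexp, ← Complex.exp_neg, ← Complex.exp_nat_mul, ← Complex.exp_nat_mul, ← Complex.exp_add, ← Complex.exp_add]
        push_cast
        rw [Complex.cos]
        have e1 : φ * I + n * -(θ * I) = (φ - n * θ) * I := by ring
        have e2 : -(φ * I) + n * (θ * I) = -(φ - n * θ) * I := by ring
        rw [e1, e2]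
        ring
      simp only [h3] at h1
      rw [h1]
      have h4 : (((2 * π : ℝ)⁻¹ : ℝ) : ℂ) * (∫ θ in (0 : ℝ)..(2 * π), ((2 * Real.cos (φ - n * θ) : ℝ) : ℂ) * F (E θ)) =
          (((2 * π : ℝ)⁻¹ : ℝ) : ℂ) * (∫ θ in (0 : ℝ)..(2 * π), ((2 * Real.cos (φ - n * θ) : ℝ) : ℂ) * F (E θ)) := rfl
      have h5 : (((2 * π : ℝ)⁻¹ : ℝ) * ∫ θ in (0 : ℝ)..(2 * π), ((2 * Real.cos (φ - n * θ) : ℝ) : ℂ) * F (E θ) : ℂ).re =
          (2 * π)⁻¹ * ∫ θ in (0 : ℝ)..(2 * π), 2 * Real.cos (φ - n * θ) * v (E θ) := by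
        rw [Complex.re_ofReal_mul]
        congr 1
        have h6 := Complex.reCLM.intervalIntegral_comp_comm (a := 0) (b := 2 * π) (μ := volume)
          (f := fun θ : ℝ => ((2 * Real.cos (φ - n * θ) : ℝ) : ℂ) * F (E θ))
          ((Continuous.mul (by fun_prop) hFE).intervalIntegrable _ _)
        rw [Complex.reCLM_apply] at h6
        rw [← h6]
        refine intervalIntegral.integral_congr fun θ _ => ?_
        simp only [Complex.reCLM_apply]
        rw [Complex.re_ofReal_mul, hFv _ (hsub (by simp [hEn]))]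
      rw [h5]
      have h7 : ∫ θ in (0 : ℝ)..(2 * π), 2 * Real.cos (φ - n * θ) * v (E θ) ≤
          ∫ θ in (0 : ℝ)..(2 * π), 2 * |Real.cos (φ - n * θ)| := by
        have hvc : Continuous fun θ => v (E θ) := by
          have := Complex.continuous_re.comp hFE
          refine this.congr fun θ => ?_
          exact hFv _ (hsub (by simp [hEn]))
        refine intervalIntegral.integral_mono_on (by positivity) ?_ ?_ fun θ _ => ?_
        · exact (Continuous.mul (by fun_prop) hvc).intervalIntegrable _ _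
        · exact (by fun_prop : Continuous fun θ : ℝ => 2 * |Real.cos (φ - n * θ)|).intervalIntegrable _ _
        · have h8 : |v (E θ)| ≤ 1 := hb _ (by simp [hEn])
          have h9 : |Real.cos (φ - n * θ) * v (E θ)| ≤ |Real.cos (φ - n * θ)| := by
            rw [abs_mul]
            exact mul_le_of_le_one_right (abs_nonneg _) h8
          have h10 := le_abs_self (Real.cos (φ - n * θ) * v (E θ))
          nlinarith
      rw [intervalIntegral.integral_const_mul, int_abs_cos hn] at h7
      have h8 : (2 * π)⁻¹ * ∫ θ in (0 : ℝ)..(2 * π), 2 * Real.cos (φ - n * θ) * v (E θ) ≤ (2 * π)⁻¹ * (2 * 4) :=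
        mul_le_mul_of_nonneg_left h7 (by positivity)
      have h9 : (2 * π)⁻¹ * (2 * 4) = 4 / π := by field_simp
      linarith
    have h1 := key (-(cauchyPowerSeries F 0 1 n (fun _ => 1)).arg)
    have h2 : exp (((-(cauchyPowerSeries F 0 1 n (fun _ => 1)).arg : ℝ) : ℂ) * I) * cauchyPowerSeries F 0 1 n (fun _ => 1) =
        (‖cauchyPowerSeries F 0 1 n (fun _ => 1)‖ : ℂ) := by
      set C := cauchyPowerSeries F 0 1 n (fun _ => 1)
      have h3 := Complex.norm_mul_exp_arg_mul_I C
      have h4 : exp (((-C.arg : ℝ) : ℂ) * I) * exp (C.arg * I) = 1 := by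
        rw [← Complex.exp_add]
        push_cast
        rw [neg_mul, neg_add_cancel, Complex.exp_zero]
      calc exp (((-C.arg : ℝ) : ℂ) * I) * C = exp (((-C.arg : ℝ) : ℂ) * I) * (‖C‖ * exp (C.arg * I)) := by rw [h3]
        _ = ‖C‖ * (exp (((-C.arg : ℝ) : ℂ) * I) * exp (C.arg * I)) := by ring
        _ = ‖C‖ := by rw [h4, mul_one]
    rw [h2, Complex.ofReal_re] at h1
    exact h1

end TBP
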