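import Pool.Agent.Lib.MP_8b37c6_anP.H1

/-!
# MP_8b37c6_an, plane case: radial derivative against a discrete measure
-/

namespace TBP

open Complex Metric InnerProductSpace Real MeasureTheory Set

/-- the radial derivative of the power series -/
theorem ser_deriv {v : ℂ → ℝ} {c : ℕ → ℂ} (hc : ∀ z : ℂ, ‖z‖ < 1 → HasSum (fun n => (c n * z ^ n).re) (v z))
    {C : ℝ} (hC : ∀ n, ‖c n‖ ≤ C) {s : ℝ} (hs0 : 0 < s) (hs1 : s < 1) :
    ∃ D : ℝ, HasDerivAt (fun t : ℝ => v t) D s ∧ HasSum (fun n : ℕ => (n : ℝ) * (c n).re * s ^ n) (s * D) := by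
  set ρ := (1 + s) / 2 with hρ
  have hρ0 : 0 < ρ := by rw [hρ]; linarith
  have hρ1 : ρ < 1 := by rw [hρ]; linarith
  have hsρ : s < ρ := by rw [hρ]; linarith
  have hC0 : 0 ≤ C := (norm_nonneg _).trans (hC 0)
  have hre : ∀ (n : ℕ) (t : ℝ), (c n * (t : ℂ) ^ n).re = (c n).re * t ^ n := by
    intro n t
    rw [← Complex.ofReal_pow, Complex.re_mul_ofReal]
  have hv : ∀ t ∈ Ioo (-ρ) ρ, HasSum (fun n => (c n).re * t ^ n) (v t) := by
    intro t ht
    have h1 := hc (t : ℂ) (by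
      rw [Complex.norm_real, Real.norm_eq_abs, abs_lt]
      constructor <;> linarith [ht.1, ht.2])
    simpa only [hre] using h1
  have hsum : Summable fun n : ℕ => (n : ℝ) * ρ ^ n := by
    have h := summable_pow_mul_geometric_of_norm_lt_one (R := ℝ) 1 (r := ρ) (by
      rw [Real.norm_of_nonneg hρ0.le]; exact hρ1)
    simpa using h
  have hu : Summable fun n : ℕ => C / ρ * ((n : ℝ) * ρ ^ n) := hsum.mul_left _
  have hbd : ∀ (n : ℕ) (t : ℝ), |t| ≤ ρ → ‖(c n).re * ((n : ℝ) * t ^ (n - 1))‖ ≤ C / ρ * ((n : ℝ) * ρ ^ n) := by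
    intro n t h2
    rcases Nat.eq_zero_or_pos n with h | h
    · subst h; simp
    · have h1 : |(c n).re| ≤ C := (Complex.abs_re_le_norm _).trans (hC n)
      rw [norm_mul, norm_mul, norm_pow, Real.norm_eq_abs, Real.norm_eq_abs, Real.norm_eq_abs, Nat.abs_cast]
      have h3 : |t| ^ (n - 1) ≤ ρ ^ (n - 1) := pow_le_pow_left₀ (abs_nonneg _) h2 _
      have h4 : C / ρ * ((n : ℝ) * ρ ^ n) = C * ((n : ℝ) * ρ ^ (n - 1)) := by
        obtain ⟨k, rfl⟩ : ∃ k, n = k + 1 := ⟨n - 1, by omega⟩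
        rw [Nat.add_sub_cancel, pow_succ]
        field_simp
      rw [h4]
      exact mul_le_mul h1 (mul_le_mul_of_nonneg_left h3 (Nat.cast_nonneg _)) (by positivity) hC0
  have hder := hasDerivAt_tsum_of_isPreconnected (g := fun (n : ℕ) (t : ℝ) => (c n).re * t ^ n)
    (g' := fun (n : ℕ) (t : ℝ) => (c n).re * ((n : ℝ) * t ^ (n - 1))) (t := Ioo (-ρ) ρ) (y₀ := s) (y := s) hu
    isOpen_Ioo isPreconnected_Ioo (fun n t _ => (hasDerivAt_pow n t).const_mul _) ?_ ⟨by linarith, hsρ⟩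
    (hv s ⟨by linarith, hsρ⟩).summable ⟨by linarith, hsρ⟩
  · refine ⟨∑' n : ℕ, (c n).re * ((n : ℝ) * s ^ (n - 1)), ?_, ?_⟩
    · refine hder.congr_of_eventuallyEq ?_
      filter_upwards [Ioo_mem_nhds (show -ρ < s by linarith) hsρ] with t ht
      exact (hv t ht).tsum_eq.symm
    · have e1 : ∀ n : ℕ, (n : ℝ) * (c n).re * s ^ n = s * ((c n).re * ((n : ℝ) * s ^ (n - 1))) := by
        intro n
        rcases Nat.eq_zero_or_pos n with h | h
        · subst h; simp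
        · obtain ⟨k, rfl⟩ : ∃ k, n = k + 1 := ⟨n - 1, by omega⟩
          rw [Nat.add_sub_cancel, pow_succ]
          ring
      simp only [e1]
      refine HasSum.mul_left s (Summable.hasSum ?_)
      exact Summable.of_norm_bounded (g := fun n : ℕ => C / ρ * ((n : ℝ) * ρ ^ n)) hu fun n =>
        hbd n s (by rw [abs_of_pos hs0]; exact hsρ.le)
  · intro n t ht
    exact hbd n t (abs_le.2 ⟨ht.1.le, ht.2.le⟩)

/-- tail bound -/
theorem tail {s : ℝ} (hs0 : 0 < s) (hs1 : s ≤ 1 / 4) (k : ℕ) :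
    HasSum (fun i : ℕ => ((k + 1 + i : ℕ) : ℝ) * s ^ (k + 1 + i)) (∑' i : ℕ, ((k + 1 + i : ℕ) : ℝ) * s ^ (k + 1 + i)) ∧
    ∑' i : ℕ, ((k + 1 + i : ℕ) : ℝ) * s ^ (k + 1 + i) ≤ 2 * (k + 1) * s ^ (k + 1) := by
  have hn : ‖s‖ < 1 := by rw [Real.norm_of_nonneg hs0.le]; linarith
  have h1 : HasSum (fun n : ℕ => (n : ℝ) * s ^ n) (s / (1 - s) ^ 2) := hasSum_coe_mul_geometric_of_norm_lt_one hn
  have h2 : HasSum (fun n : ℕ => s ^ n) (1 - s)⁻¹ := hasSum_geometric_of_norm_lt_one hn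
  have h3 : HasSum (fun i : ℕ => (k + 1) * s ^ (k + 1) * ((i : ℝ) * s ^ i + s ^ i))
      ((k + 1) * s ^ (k + 1) * (s / (1 - s) ^ 2 + (1 - s)⁻¹)) := (h1.add h2).mul_left _
  have hle : ∀ i : ℕ, ((k + 1 + i : ℕ) : ℝ) * s ^ (k + 1 + i) ≤ (k + 1) * s ^ (k + 1) * ((i : ℝ) * s ^ i + s ^ i) := by
    intro i
    have h4 : ((k + 1 + i : ℕ) : ℝ) ≤ (k + 1) * (i + 1) := by
      push_cast
      nlinarith [mul_nonneg (Nat.cast_nonneg k : (0:ℝ) ≤ k) (Nat.cast_nonneg i : (0:ℝ) ≤ i)]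
    have h5 : 0 ≤ s ^ (k + 1 + i) := by positivity
    calc ((k + 1 + i : ℕ) : ℝ) * s ^ (k + 1 + i) ≤ (k + 1) * (i + 1) * s ^ (k + 1 + i) := mul_le_mul_of_nonneg_right h4 h5
      _ = _ := by rw [pow_add]; ring
  have hsum : Summable (fun i : ℕ => ((k + 1 + i : ℕ) : ℝ) * s ^ (k + 1 + i)) :=
    Summable.of_nonneg_of_le (fun i => by positivity) hle h3.summable
  refine ⟨hsum.hasSum, ?_⟩
  have h6 := hsum.tsum_le_tsum hle h3.summable
  rw [h3.tsum_eq] at h6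
  refine h6.trans ?_
  have h7 : s / (1 - s) ^ 2 + (1 - s)⁻¹ ≤ 2 := by
    have h8 : 0 < 1 - s := by linarith
    have h9 : s / (1 - s) ^ 2 + (1 - s)⁻¹ = 1 / (1 - s) ^ 2 := by field_simp; ring
    rw [h9, div_le_iff₀ (by positivity)]
    nlinarith
  have h10 : (0 : ℝ) ≤ (k + 1) * s ^ (k + 1) := by positivity
  nlinarith

/-- the radial derivative minus a discrete measure -/
theorem gen {v : ℂ → ℝ} {c : ℕ → ℂ} (hc : ∀ z : ℂ, ‖z‖ < 1 → HasSum (fun n => (c n * z ^ n).re) (v z))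
    {s D : ℝ} (hs0 : 0 < s) (hs1 : s < 1) (hD : HasSum (fun n : ℕ => (n : ℝ) * (c n).re * s ^ n) (s * D))
    {ι : Type} [Fintype ι] (w θ : ι → ℝ) (K : ℕ → ℝ)
    (hK : ∀ n : ℕ, ∑ i, (w i : ℂ) * exp (n * (θ i * I)) = K n) :
    HasSum (fun n : ℕ => ((n : ℝ) - K n) * (c n).re * s ^ n) (s * D - ∑ i, w i * v (s * exp (θ i * I))) := by
  have h1 : ∀ i, HasSum (fun n => w i * (c n * (s * exp (θ i * I)) ^ n).re) (w i * v (s * exp (θ i * I))) := by
    intro i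
    refine (hc _ ?_).mul_left _
    rw [norm_mul, Complex.norm_real, Real.norm_of_nonneg hs0.le, Complex.norm_exp_ofReal_mul_I, mul_one]
    exact hs1
  have h2 := hasSum_sum (s := Finset.univ) fun i _ => h1 i
  have h3 := hD.sub h2
  have h4 : (fun n : ℕ => ((n : ℝ) - K n) * (c n).re * s ^ n) =
      fun n : ℕ => (n : ℝ) * (c n).re * s ^ n - ∑ i, w i * (c n * (s * exp (θ i * I)) ^ n).re := by
    funext n
    have h5 : ∑ i, w i * (c n * (s * exp (θ i * I)) ^ n).re = K n * (c n).re * s ^ n := by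
      have h6 : ∑ i, w i * (c n * (s * exp (θ i * I)) ^ n).re =
          (c n * (s : ℂ) ^ n * ∑ i, (w i : ℂ) * exp (n * (θ i * I))).re := by
        rw [Finset.mul_sum, Complex.re_sum]
        refine Finset.sum_congr rfl fun i _ => ?_
        rw [mul_pow, ← Complex.exp_nat_mul, ← Complex.re_ofReal_mul]
        congr 1
        ring
      rw [h6, hK, ← Complex.ofReal_pow, Complex.re_mul_ofReal, Complex.re_mul_ofReal]
      ring
    rw [h5]
    ring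
  rw [h4]
  exact h3

/-- Bernstein type bound with a general measure -/
theorem bern {v : ℂ → ℝ} {c : ℕ → ℂ} (hc : ∀ z : ℂ, ‖z‖ < 1 → HasSum (fun n => (c n * z ^ n).re) (v z))
    (hC : ∀ n, 1 ≤ n → ‖c n‖ ≤ 4 / π) {s D m : ℝ} (hs0 : 0 < s) (hs1 : s ≤ 1 / 4)
    (hm : ∀ z : ℂ, ‖z‖ ≤ s → |v z| ≤ m)
    (hD : HasSum (fun n : ℕ => (n : ℝ) * (c n).re * s ^ n) (s * D))
    {ι : Type} [Fintype ι] (w θ : ι → ℝ) (K : ℕ → ℝ)
    (hK : ∀ n : ℕ, ∑ i, (w i : ℂ) * exp (n * (θ i * I)) = K n) {k : ℕ} (hk : 1 ≤ k) {c' : ℝ}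
    (hK1 : ∀ n, n < k → K n = n) (hK2 : |(k : ℝ) - K k| ≤ c') (hK3 : ∀ n, k < n → |(n : ℝ) - K n| ≤ 2 * n) :
    s * D ≤ (∑ i, |w i|) * m + c' * (4 / π) * s ^ k + 16 / π * (k + 1) * s ^ (k + 1) := by
  have hpi := Real.pi_pos
  have h1 := gen hc hs0 (by linarith) hD w θ K hK
  have h2 : ∑ i, w i * v (s * exp (θ i * I)) ≤ (∑ i, |w i|) * m := by
    rw [Finset.sum_mul]
    refine Finset.sum_le_sum fun i _ => ?_
    have h3 : |v (s * exp (θ i * I))| ≤ m := hm _ (by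
      rw [norm_mul, Complex.norm_real, Real.norm_of_nonneg hs0.le, Complex.norm_exp_ofReal_mul_I, mul_one])
    calc w i * v (s * exp (θ i * I)) ≤ |w i * v (s * exp (θ i * I))| := le_abs_self _
      _ = |w i| * |v (s * exp (θ i * I))| := abs_mul _ _
      _ ≤ |w i| * m := mul_le_mul_of_nonneg_left h3 (abs_nonneg _)
  have hx : ∀ n, 1 ≤ n → |(c n).re| ≤ 4 / π := fun n hn => (Complex.abs_re_le_norm _).trans (hC n hn)
  set f : ℕ → ℝ := fun n => ((n : ℝ) - K n) * (c n).re * s ^ n with hf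
  have hfs : Summable f := h1.summable
  have hft : ∑' n, f n = s * D - ∑ i, w i * v (s * exp (θ i * I)) := h1.tsum_eq
  have h4 := hfs.sum_add_tsum_nat_add (k + 1)
  rw [hft, Finset.sum_range_succ] at h4
  have h5 : ∑ n ∈ Finset.range k, f n = 0 := by
    refine Finset.sum_eq_zero fun n hn => ?_
    simp only [hf]
    rw [hK1 n (Finset.mem_range.1 hn), sub_self, zero_mul, zero_mul]
  rw [h5, zero_add] at h4
  have h6 : f k ≤ c' * (4 / π) * s ^ k := by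
    simp only [hf]
    refine mul_le_mul_of_nonneg_right ?_ (by positivity)
    calc ((k : ℝ) - K k) * (c k).re ≤ |((k : ℝ) - K k) * (c k).re| := le_abs_self _
      _ = |(k : ℝ) - K k| * |(c k).re| := abs_mul _ _
      _ ≤ c' * (4 / π) := mul_le_mul hK2 (hx k hk) (abs_nonneg _) ((abs_nonneg _).trans hK2)
  obtain ⟨h7, h8⟩ := tail hs0 hs1 k
  have hfs' : Summable fun n => f (n + (k + 1)) := (summable_nat_add_iff (f := f) (k + 1)).2 hfs
  have h9 : ∑' n : ℕ, f (n + (k + 1)) ≤ ∑' i : ℕ, 8 / π * (((k + 1 + i : ℕ) : ℝ) * s ^ (k + 1 + i)) := by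
    refine Summable.tsum_le_tsum (fun n => ?_) hfs' (h7.summable.mul_left _)
    have e1 : n + (k + 1) = k + 1 + n := by omega
    rw [e1]
    show ((k + 1 + n : ℕ) - K (k + 1 + n)) * (c (k + 1 + n)).re * s ^ (k + 1 + n) ≤ _
    have h10 : ((k + 1 + n : ℕ) - K (k + 1 + n)) * (c (k + 1 + n)).re ≤ 2 * ((k + 1 + n : ℕ) : ℝ) * (4 / π) := by
      calc ((k + 1 + n : ℕ) - K (k + 1 + n)) * (c (k + 1 + n)).re ≤ |((k + 1 + n : ℕ) - K (k + 1 + n)) * (c (k + 1 + n)).re| :=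
            le_abs_self _
        _ = |((k + 1 + n : ℕ) : ℝ) - K (k + 1 + n)| * |(c (k + 1 + n)).re| := abs_mul _ _
        _ ≤ 2 * ((k + 1 + n : ℕ) : ℝ) * (4 / π) := mul_le_mul (hK3 _ (by omega)) (hx _ (by omega)) (abs_nonneg _) (by positivity)
    have h11 : 0 ≤ s ^ (k + 1 + n) := by positivity
    have h12 := mul_le_mul_of_nonneg_right h10 h11
    have e2 : 2 * ((k + 1 + n : ℕ) : ℝ) * (4 / π) * s ^ (k + 1 + n) = 8 / π * (((k + 1 + n : ℕ) : ℝ) * s ^ (k + 1 + n)) := by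
      ring
    rw [← e2]
    exact h12
  rw [tsum_mul_left] at h9
  have h13 : 8 / π * ∑' i : ℕ, ((k + 1 + i : ℕ) : ℝ) * s ^ (k + 1 + i) ≤ 8 / π * (2 * (k + 1) * s ^ (k + 1)) :=
    mul_le_mul_of_nonneg_left h8 (by positivity)
  have h14 : 8 / π * (2 * (k + 1) * s ^ (k + 1)) = 16 / π * (k + 1) * s ^ (k + 1) := by ring
  linarith

end TBP
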