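import Pool.Agent.Lib.MP_8b37c6_anP.H2

/-!
# MP_8b37c6_an, plane case: the discrete measures
-/

namespace TBP

open Complex Metric Real Finset

theorem geom_root {N : ℕ} {ζ : ℂ} (hζ : IsPrimitiveRoot ζ (2 * N)) (e : ℕ) :
    ∑ l : Fin (2 * N), (ζ ^ e) ^ (l : ℕ) = if 2 * N ∣ e then ((2 * N : ℕ) : ℂ) else 0 := by
  rw [Fin.sum_univ_eq_sum_range (fun l => (ζ ^ e) ^ l) (2 * N)]
  split_ifs with h
  · have h1 : ζ ^ e = 1 := (hζ.pow_eq_one_iff_dvd e).2 h
    simp [h1]
  · have h1 : ζ ^ e ≠ 1 := fun h2 => h ((hζ.pow_eq_one_iff_dvd e).1 h2)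
    have h2 := mul_geom_sum (ζ ^ e) (2 * N)
    have h3 : (ζ ^ e) ^ (2 * N) = 1 := by
      rw [← pow_mul, mul_comm, pow_mul, hζ.pow_eq_one, one_pow]
    rw [h3, sub_self] at h2
    exact (mul_eq_zero.1 h2).resolve_left (sub_ne_zero.2 h1)

/-- number of `p < N` with `(n + p) mod 2N < N` -/
def cnt (N n : ℕ) : ℕ := ((range N).filter fun p => (n + p) % (2 * N) < N).card

theorem cnt_le (N n : ℕ) : cnt N n ≤ N := by
  unfold cnt
  exact (card_filter_le _ _).trans (by simp)

theorem cnt_small {N n : ℕ} (h : n ≤ N) : cnt N n = N - n := by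
  unfold cnt
  have : ((range N).filter fun p => (n + p) % (2 * N) < N) = range (N - n) := by
    ext p
    simp only [mem_filter, mem_range]
    constructor
    · rintro ⟨h1, h2⟩
      rw [Nat.mod_eq_of_lt (by omega)] at h2
      omega
    · intro h1
      refine ⟨by omega, ?_⟩
      rw [Nat.mod_eq_of_lt (by omega)]
      omega
  rw [this, card_range]

theorem cnt_next {N : ℕ} (h : 1 ≤ N) : cnt N (N + 1) = 1 := by
  unfold cnt
  have : ((range N).filter fun p => (N + 1 + p) % (2 * N) < N) = {N - 1} := by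
    ext p
    simp only [mem_filter, mem_range, mem_singleton]
    constructor
    · rintro ⟨h1, h2⟩
      by_contra h3
      rw [Nat.mod_eq_of_lt (by omega)] at h2
      omega
    · intro h1
      subst h1
      refine ⟨by omega, ?_⟩
      have : N + 1 + (N - 1) = 2 * N := by omega
      rw [this, Nat.mod_self]
      omega
  rw [this, card_singleton]

theorem szego {N : ℕ} (hN : 1 ≤ N) : ∃ w θ : Fin (2 * N) → ℝ, ∃ K : ℕ → ℝ,
    (∀ n : ℕ, ∑ i, (w i : ℂ) * exp (n * (θ i * I)) = K n) ∧ (∀ n : ℕ, n < N + 1 → K n = n) ∧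
    |((N + 1 : ℕ) : ℝ) - K (N + 1)| ≤ 2 ∧ (∀ n : ℕ, N + 1 < n → |(n : ℝ) - K n| ≤ 2 * n) ∧ ∑ i, |w i| = N := by
  have hNR : (0 : ℝ) < N := by exact_mod_cast hN
  have hNC : (N : ℂ) ≠ 0 := by exact_mod_cast (by omega : N ≠ 0)
  have : NeZero (2 * N) := ⟨by omega⟩
  set ζ : ℂ := exp (2 * π * I / ((2 * N : ℕ) : ℂ)) with hζ
  have hprim : IsPrimitiveRoot ζ (2 * N) := Complex.isPrimitiveRoot_exp (2 * N) (by omega)
  have hζn : ‖ζ‖ = 1 := by
    have : ζ = exp (((2 * π / (2 * N : ℕ) : ℝ) : ℂ) * I) := by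
      rw [hζ]; congr 1; push_cast; ring
    rw [this, Complex.norm_exp_ofReal_mul_I]
  have hconj : (starRingEnd ℂ) ζ = ζ ^ (2 * N - 1) := by
    have h1 : ζ * ζ ^ (2 * N - 1) = 1 := by
      rw [← pow_succ', show 2 * N - 1 + 1 = 2 * N by omega, hprim.pow_eq_one]
    have h2 : ζ * (starRingEnd ℂ) ζ = 1 := by
      rw [Complex.mul_conj, Complex.normSq_eq_norm_sq, hζn]; simp
    have h3 : ζ ≠ 0 := by
      intro h; rw [h, norm_zero] at hζn; norm_num at hζn
    exact mul_left_cancel₀ h3 (h2.trans h1.symm)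
  set Dl : Fin (2 * N) → ℂ := fun l => ∑ p ∈ range N, ζ ^ ((l : ℕ) * p) with hDl
  set w : Fin (2 * N) → ℝ := fun l => (if l = 0 then (N : ℝ) else 0) - Complex.normSq (Dl l) / (2 * N) with hw
  set θ : Fin (2 * N) → ℝ := fun l => π * (l : ℕ) / N with hθ
  have hexp : ∀ (l : Fin (2 * N)) (n : ℕ), exp (n * (θ l * I)) = ζ ^ ((l : ℕ) * n) := by
    intro l n
    rw [hζ, ← Complex.exp_nat_mul]
    congr 1
    simp only [hθ]
    push_cast
    field_simp
  have hDsq : ∀ l : Fin (2 * N), (Complex.normSq (Dl l) : ℂ) =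
      ∑ p ∈ range N, ∑ q ∈ range N, ζ ^ ((l : ℕ) * (p + (2 * N - 1) * q)) := by
    intro l
    rw [← Complex.mul_conj]
    simp only [hDl]
    rw [map_sum, Finset.sum_mul_sum]
    refine Finset.sum_congr rfl fun p _ => Finset.sum_congr rfl fun q _ => ?_
    rw [map_pow, hconj, ← pow_mul, ← pow_add]
    congr 1
    ring
  have hmod : ∀ n p q : ℕ, q < N → (2 * N ∣ n + p + (2 * N - 1) * q ↔ (n + p) % (2 * N) = q) := by
    intro n p q hq
    have h1 : n + p + (2 * N - 1) * q + q = n + p + 2 * N * q := by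
      have : (2 * N - 1) * q + q = 2 * N * q := by
        rw [Nat.sub_mul, one_mul, Nat.sub_add_cancel]
        nlinarith
      omega
    constructor
    · rintro ⟨k, hk⟩
      have h2 : n + p + 2 * N * q = q + 2 * N * k := by omega
      have h3 : (n + p + 2 * N * q) % (2 * N) = (n + p) % (2 * N) := Nat.add_mul_mod_self_left _ _ _
      rw [← h3, h2, Nat.add_mul_mod_self_left, Nat.mod_eq_of_lt (by omega)]
    · intro h
      have h2 := Nat.div_add_mod (n + p) (2 * N)
      rw [h] at h2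
      rw [Nat.dvd_iff_mod_eq_zero]
      have h3 : n + p + (2 * N - 1) * q = 2 * N * ((n + p) / (2 * N) + q) := by
        rw [mul_add]; omega
      rw [h3, Nat.mul_mod_right]
  have hcount : ∀ n : ℕ, (∑ p ∈ range N, ∑ q ∈ range N, if 2 * N ∣ n + p + (2 * N - 1) * q then (1 : ℂ) else 0) = cnt N n := by
    intro n
    unfold cnt
    rw [card_eq_sum_ones, Nat.cast_sum, sum_filter]
    refine Finset.sum_congr rfl fun p _ => ?_
    have h1 : ∀ q ∈ range N, (if 2 * N ∣ n + p + (2 * N - 1) * q then (1 : ℂ) else 0) =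
        if q = (n + p) % (2 * N) then 1 else 0 := by
      intro q hq
      have := hmod n p q (mem_range.1 hq)
      by_cases h : (n + p) % (2 * N) = q
      · rw [if_pos (this.2 h), if_pos h.symm]
      · rw [if_neg (fun h' => h (this.1 h')), if_neg (fun h' => h h'.symm)]
    rw [Finset.sum_congr rfl h1, Finset.sum_ite_eq']
    simp only [mem_range, Nat.cast_one]
  have hK : ∀ n : ℕ, ∑ i, (w i : ℂ) * exp (n * (θ i * I)) = (((N : ℝ) - cnt N n : ℝ) : ℂ) := by
    intro n
    have h1 : ∀ l : Fin (2 * N), (w l : ℂ) * exp (n * (θ l * I)) = (if l = 0 then (N : ℂ) else 0) -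
        (∑ p ∈ range N, ∑ q ∈ range N, (ζ ^ (n + p + (2 * N - 1) * q)) ^ (l : ℕ)) / (2 * N) := by
      intro l
      rw [hexp]
      simp only [hw]
      push_cast
      rw [hDsq, sub_mul]
      congr 1
      · by_cases h : l = 0
        · subst h; simp
        · simp [h]
      · rw [div_mul_eq_mul_div, Finset.sum_mul]
        congr 1
        refine Finset.sum_congr rfl fun p _ => ?_
        rw [Finset.sum_mul]
        refine Finset.sum_congr rfl fun q _ => ?_
        rw [← pow_add, ← pow_mul]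
        congr 1
        ring
    rw [Finset.sum_congr rfl fun l _ => h1 l, Finset.sum_sub_distrib, ← Finset.sum_div]
    have h2 : ∑ l : Fin (2 * N), ∑ p ∈ range N, ∑ q ∈ range N, (ζ ^ (n + p + (2 * N - 1) * q)) ^ (l : ℕ) =
        (2 * N : ℂ) * cnt N n := by
      rw [Finset.sum_comm]
      have h3 : ∀ p ∈ range N, ∑ l : Fin (2 * N), ∑ q ∈ range N, (ζ ^ (n + p + (2 * N - 1) * q)) ^ (l : ℕ) =
          ∑ q ∈ range N, (2 * N : ℂ) * (if 2 * N ∣ n + p + (2 * N - 1) * q then 1 else 0) := by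
        intro p _
        rw [Finset.sum_comm]
        refine Finset.sum_congr rfl fun q _ => ?_
        rw [geom_root hprim]
        split_ifs <;> push_cast <;> ring
      rw [Finset.sum_congr rfl h3]
      simp only [← Finset.mul_sum]
      rw [hcount]
    rw [h2]
    simp only [Finset.sum_ite_eq', Finset.mem_univ, if_true]
    push_cast
    field_simp
  refine ⟨w, θ, fun n => (N : ℝ) - cnt N n, hK, fun n hn => ?_, ?_, fun n hn => ?_, ?_⟩
  · simp only
    rw [cnt_small (by omega), Nat.cast_sub (by omega)]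
    ring
  · simp only
    rw [cnt_next hN]
    push_cast
    rw [abs_le]
    constructor <;> linarith
  · simp only
    have h1 : (cnt N n : ℝ) ≤ N := by exact_mod_cast cnt_le N n
    have h2 : (0 : ℝ) ≤ cnt N n := Nat.cast_nonneg _
    have h3 : (N : ℝ) + 1 < n := by exact_mod_cast hn
    rw [abs_le]
    constructor <;> linarith
  · have h0 : Dl 0 = N := by simp [hDl]
    have hw0 : w 0 = N / 2 := by
      simp only [hw, if_true, h0]
      rw [Complex.normSq_natCast]
      field_simp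
      ring
    have habs : ∀ l, |w l| = (if l = 0 then 2 * w 0 else 0) - w l := by
      intro l
      by_cases h : l = 0
      · subst h
        rw [if_pos rfl, hw0, abs_of_pos (by positivity)]
        ring
      · rw [if_neg h, zero_sub, abs_of_nonpos]
        simp only [hw, if_neg h]
        have := Complex.normSq_nonneg (Dl l)
        have : 0 ≤ Complex.normSq (Dl l) / (2 * N) := by positivity
        linarith
    have hsum : ∑ i, w i = 0 := by
      have h1 := hK 0
      rw [cnt_small (Nat.zero_le _)] at h1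
      simp only [Nat.cast_zero, zero_mul, Complex.exp_zero, mul_one, Nat.sub_zero, sub_self] at h1
      exact_mod_cast h1
    rw [Finset.sum_congr rfl fun l _ => habs l, Finset.sum_sub_distrib, hsum]
    simp only [Finset.sum_ite_eq', Finset.mem_univ, if_true]
    rw [hw0]
    ring

theorem exp_pair (B φ : ℝ) (n : ℕ) : (B : ℂ) * exp (n * ((φ : ℝ) * I)) + (B : ℂ) * exp (n * (((-φ : ℝ) : ℂ) * I)) =
    ((2 * B * Real.cos (n * φ) : ℝ) : ℂ) := by
  push_cast
  rw [Complex.cos]
  have e1 : (n : ℂ) * ((φ : ℂ) * I) = n * φ * I := by ring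
  have e2 : (n : ℂ) * (-(φ : ℂ) * I) = -(n * φ) * I := by ring
  rw [e1, e2]
  ring

theorem spec2 : ∃ w θ : Fin 3 → ℝ, ∃ K : ℕ → ℝ,
    (∀ n : ℕ, ∑ i, (w i : ℂ) * exp (n * (θ i * I)) = K n) ∧ (∀ n : ℕ, n < 2 → K n = n) ∧
    |((2 : ℕ) : ℝ) - K 2| ≤ 1 / 5 ∧ (∀ n : ℕ, 2 < n → |(n : ℝ) - K n| ≤ 2 * n) ∧ ∑ i, |w i| = 20 / 11 := by
  set φ := Real.arccos (-(1 / 10)) with hφ
  have hcos : Real.cos φ = -(1 / 10) := Real.cos_arccos (by norm_num) (by norm_num)
  refine ⟨![10 / 11, -(5 / 11), -(5 / 11)], ![0, φ, -φ], fun n => 10 / 11 - 10 / 11 * Real.cos (n * φ), fun n => ?_,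
    fun n hn => ?_, ?_, fun n hn => ?_, ?_⟩
  · rw [Fin.sum_univ_three]
    simp only [Matrix.cons_val_zero, Matrix.cons_val_one, Matrix.cons_val]
    rw [add_assoc, exp_pair]
    push_cast
    rw [zero_mul, mul_zero, Complex.exp_zero]
    ring
  · interval_cases n
    · simp
    · simp only [Nat.cast_one, one_mul, hcos]
      norm_num
  · have h2 : Real.cos ((2 : ℕ) * φ) = 2 * (-(1 / 10)) ^ 2 - 1 := by
      rw [Nat.cast_ofNat, Real.cos_two_mul, hcos]
    simp only [h2]
    rw [abs_le]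
    constructor <;> norm_num
  · have h1 := Real.cos_le_one (n * φ)
    have h2 := Real.neg_one_le_cos (n * φ)
    have h3 : (3 : ℝ) ≤ n := by exact_mod_cast hn
    simp only
    rw [abs_le]
    constructor <;> linarith
  · rw [Fin.sum_univ_three]
    simp only [Matrix.cons_val_zero, Matrix.cons_val_one, Matrix.cons_val]
    rw [abs_neg, abs_of_pos (by norm_num : (0 : ℝ) < 10 / 11), abs_of_pos (by norm_num : (0 : ℝ) < 5 / 11)]
    norm_num

theorem spec3 : ∃ w θ : Fin 4 → ℝ, ∃ K : ℕ → ℝ,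
    (∀ n : ℕ, ∑ i, (w i : ℂ) * exp (n * (θ i * I)) = K n) ∧ (∀ n : ℕ, n < 3 → K n = n) ∧
    |((3 : ℕ) : ℝ) - K 3| ≤ 4 / 5 ∧ (∀ n : ℕ, 3 < n → |(n : ℝ) - K n| ≤ 2 * n) ∧ ∑ i, |w i| = 17 / 7 := by
  set φ := Real.arccos (3 / 10) with hφ
  have hcos : Real.cos φ = 3 / 10 := Real.cos_arccos (by norm_num) (by norm_num)
  refine ⟨![17 / 14, -(50 / 91), -(50 / 91), -(3 / 26)], ![0, φ, -φ, π],
    fun n => 17 / 14 - 100 / 91 * Real.cos (n * φ) - 3 / 26 * (-1) ^ n, fun n => ?_,
    fun n hn => ?_, ?_, fun n hn => ?_, ?_⟩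
  · rw [Fin.sum_univ_four]
    simp only [Matrix.cons_val_zero, Matrix.cons_val_one, Matrix.cons_val]
    have h1 := exp_pair (-(50 / 91)) φ n
    have h2 : exp (n * ((π : ℂ) * I)) = (-1) ^ n := by
      rw [Complex.exp_nat_mul, Complex.exp_pi_mul_I]
    rw [h2]
    have h3 : ∀ x y z t : ℂ, x + y + z + t = x + (y + z) + t := fun x y z t => by ring
    rw [h3, h1]
    push_cast
    rw [zero_mul, mul_zero, Complex.exp_zero]
    ring
  · interval_cases n
    · simp; norm_num
    · simp only [Nat.cast_one, one_mul, hcos]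
      norm_num
    · have h2 : Real.cos ((2 : ℕ) * φ) = 2 * (3 / 10) ^ 2 - 1 := by
        rw [Nat.cast_ofNat, Real.cos_two_mul, hcos]
      simp only [h2]
      norm_num
  · have h2 : Real.cos ((3 : ℕ) * φ) = 4 * (3 / 10) ^ 3 - 3 * (3 / 10) := by
      rw [Nat.cast_ofNat, Real.cos_three_mul, hcos]
    simp only [h2]
    rw [abs_le]
    constructor <;> norm_num
  · have h1 := Real.cos_le_one (n * φ)
    have h2 := Real.neg_one_le_cos (n * φ)
    have h3 : (4 : ℝ) ≤ n := by exact_mod_cast hn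
    have h4 : |(-1 : ℝ) ^ n| = 1 := by rw [abs_pow, abs_neg, abs_one, one_pow]
    obtain ⟨h5, h6⟩ := abs_le.1 h4.le
    simp only
    rw [abs_le]
    constructor <;> linarith
  · rw [Fin.sum_univ_four]
    simp only [Matrix.cons_val_zero, Matrix.cons_val_one, Matrix.cons_val]
    rw [abs_neg, abs_neg, abs_of_pos (by norm_num : (0 : ℝ) < 17 / 14), abs_of_pos (by norm_num : (0 : ℝ) < 50 / 91),
      abs_of_pos (by norm_num : (0 : ℝ) < 3 / 26)]
    norm_num

end TBP
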