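import Pool.Agent.Lib.MP_8b37c6_anP.B
import Pool.Agent.Lib.MP_8b37c6_anP.D

/-!
# MP_8b37c6_an, plane case: infinitesimal bounds for large values
-/

namespace TBP

open Complex Metric InnerProductSpace Real MeasureTheory Set

theorem deriv_cmp {f g : ℝ → ℝ} {s D E q : ℝ} (hf : HasDerivAt f D s) (hg : HasDerivAt g E s) (h0 : f s = g s)
    (hq : s < q) (h : ∀ t, s < t → t < q → f t ≤ g t) : D ≤ E := by
  have h1 : Filter.Tendsto (slope f s) (nhdsWithin s (Ioi s)) (nhds D) :=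
    (hasDerivAt_iff_tendsto_slope.1 hf).mono_left (nhdsWithin_mono s fun x hx => ne_of_gt hx)
  have h2 : Filter.Tendsto (slope g s) (nhdsWithin s (Ioi s)) (nhds E) :=
    (hasDerivAt_iff_tendsto_slope.1 hg).mono_left (nhdsWithin_mono s fun x hx => ne_of_gt hx)
  refine le_of_tendsto_of_tendsto h1 h2 ?_
  filter_upwards [Ioo_mem_nhdsGT hq] with t ht
  rw [slope_def_field, slope_def_field, h0]
  exact div_le_div_of_nonneg_right (by linarith [h t ht.1 ht.2]) (by linarith [ht.1])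

theorem hasDerivAt_U (s : ℝ) : HasDerivAt U (4 / π * (1 / (1 + s ^ 2))) s :=
  (Real.hasDerivAt_arctan s).const_mul (4 / π)

theorem harnack2 {v : ℂ → ℝ} (hv : HarmonicOnNhd v (closedBall 0 1)) (hb : ∀ z ∈ closedBall (0 : ℂ) 1, |v z| ≤ 1)
    {a b : ℝ} (ha : 0 < a) (hab : a ≤ b) (hb1 : b < 1) :
    v b ≤ 1 - (1 - b) / (1 + b) * ((1 + a) / (1 - a)) * (1 - v a) := by
  have hb0 : 0 < b := ha.trans_le hab
  have hbb : |b| < 1 := by rw [abs_of_pos hb0]; exact hb1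
  have haa : |a| < 1 := by rw [abs_of_pos ha]; linarith
  have h0 := poisson_real hv haa
  have h1 := poisson_real hv hbb
  have hvc : Continuous fun θ : ℝ => v (circleMap 0 1 θ) := by
    have h1 : ContinuousOn v (closedBall 0 1) := hv.continuousOn
    refine h1.comp_continuous (continuous_circleMap 0 1) fun θ => ?_
    simp [circleMap]
  have hp := Real.pi_pos
  have e0 : ∀ r : ℝ, |r| < 1 → v r = (2 * π)⁻¹ * ∫ θ in (0 : ℝ)..(2 * π), P r θ * v (circleMap 0 1 θ) →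
      1 - v r = (2 * π)⁻¹ * ∫ θ in (0 : ℝ)..(2 * π), P r θ * (1 - v (circleMap 0 1 θ)) := by
    intro r hr h1
    have : ∫ θ in (0 : ℝ)..(2 * π), P r θ * (1 - v (circleMap 0 1 θ)) =
        (∫ θ in (0 : ℝ)..(2 * π), P r θ) - ∫ θ in (0 : ℝ)..(2 * π), P r θ * v (circleMap 0 1 θ) := by
      have i1 : IntervalIntegrable (fun θ => P r θ) volume 0 (2 * π) := (P_cont hr).intervalIntegrable _ _
      have i2 : IntervalIntegrable (fun θ => P r θ * v (circleMap 0 1 θ)) volume 0 (2 * π) :=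
        ((P_cont hr).mul hvc).intervalIntegrable _ _
      rw [← intervalIntegral.integral_sub i1 i2]
      refine intervalIntegral.integral_congr fun θ _ => ?_
      ring
    rw [this, P_total hr, mul_sub, ← h1]
    field_simp
  have e1 := e0 b hbb h1
  have e2 := e0 a haa h0
  have h3 : (1 - b) / (1 + b) * ((1 + a) / (1 - a)) * (1 - v a) ≤ 1 - v b := by
    rw [e1, e2, mul_left_comm]
    refine mul_le_mul_of_nonneg_left ?_ (by positivity)
    rw [← intervalIntegral.integral_const_mul]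
    refine intervalIntegral.integral_mono_on (by positivity)
      (((P_cont haa).mul (continuous_const.sub hvc)).const_mul _ |>.intervalIntegrable _ _)
      (((P_cont hbb).mul (continuous_const.sub hvc)).intervalIntegrable _ _) fun θ _ => ?_
    have h4 : |v (circleMap 0 1 θ)| ≤ 1 := hb _ (by simp [circleMap])
    rw [← mul_assoc]
    refine mul_le_mul_of_nonneg_right ?_ (by linarith [(abs_le.1 h4).2])
    unfold P
    have h5 := den_pos hbb θ
    have h6 := den_pos haa θ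
    have ha1 : 0 < 1 - a := by linarith
    have hb1' : 0 < 1 - b := by linarith
    have e3 : (1 - b) / (1 + b) * ((1 + a) / (1 - a)) * ((1 - a ^ 2) / (1 + a ^ 2 - 2 * a * Real.cos θ)) =
        (1 - b) * (1 + a) ^ 2 / ((1 + b) * (1 + a ^ 2 - 2 * a * Real.cos θ)) := by
      have h7 := h6.ne'
      field_simp
      ring
    rw [e3, div_le_div_iff₀ (by positivity) h5]
    have h7 : 0 ≤ (1 - b) * (2 * (1 + Real.cos θ) * ((b - a) * (1 - b * a))) := by
      have h8 : 0 ≤ 1 + Real.cos θ := by linarith [Real.neg_one_le_cos θ]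
      have h9 : 0 ≤ b - a := by linarith
      have h10 : 0 ≤ 1 - b * a := by nlinarith
      positivity
    have e4 : (1 - b ^ 2) * ((1 + b) * (1 + a ^ 2 - 2 * a * Real.cos θ)) -
        (1 - b) * (1 + a) ^ 2 * (1 + b ^ 2 - 2 * b * Real.cos θ) =
        (1 - b) * (2 * (1 + Real.cos θ) * ((b - a) * (1 - b * a))) := by ring
    linarith
  linarith

/-- near the top -/
theorem regA {v : ℂ → ℝ} (hv : HarmonicOnNhd v (closedBall 0 1)) (hb : ∀ z ∈ closedBall (0 : ℂ) 1, |v z| ≤ 1)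
    {s D m : ℝ} (hs0 : 0 < s) (hs1 : s < 1) (hD : HasDerivAt (fun t : ℝ => v t) D s) (hvs : v s = m) :
    D ≤ 2 * (1 - m) / (1 - s ^ 2) := by
  have h0 : 0 < 1 - s := by linarith
  have h1 : 0 < 1 - s ^ 2 := by nlinarith
  have hg : HasDerivAt (fun t : ℝ => 1 - (1 - t) / (1 + t) * ((1 + s) / (1 - s)) * (1 - m))
      (2 * (1 - m) / (1 - s ^ 2)) s := by
    have h2 : HasDerivAt (fun t : ℝ => 1 - t) (-1) s := by simpa using (hasDerivAt_id s).const_sub 1
    have h3 : HasDerivAt (fun t : ℝ => 1 + t) 1 s := by simpa using (hasDerivAt_id s).const_add 1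
    have h4 := ((((h2.div h3 (by linarith)).mul_const ((1 + s) / (1 - s))).mul_const (1 - m)).const_sub 1)
    refine h4.congr_deriv ?_
    have h5 : 1 - s ^ 2 = (1 - s) * (1 + s) := by ring
    rw [h5]
    field_simp
    ring
  refine deriv_cmp hD hg ?_ (q := 1) hs1 fun t ht ht1 => ?_
  · simp only [hvs]
    have : (1 - s) / (1 + s) * ((1 + s) / (1 - s)) = 1 := by field_simp
    rw [this]; ring
  · have := harnack2 hv hb hs0 ht.le ht1
    rw [hvs] at this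
    exact this

theorem s1_le_one {a b : ℝ} (ha : 0 < a) (hab : a ≤ b) (hb : b < 1) : s1 a b ≤ 1 := by
  unfold s1
  have h1 : 0 < 1 - a ^ 2 := by nlinarith
  rw [div_le_one (by positivity)]
  nlinarith

/-- above the extremal value -/
theorem regB {v : ℂ → ℝ} (hv : HarmonicOnNhd v (closedBall 0 1)) (hb : ∀ z ∈ closedBall (0 : ℂ) 1, |v z| ≤ 1)
    {s D m : ℝ} (hs0 : 0 < s) (hs1 : s < 1) (hD : HasDerivAt (fun t : ℝ => v t) D s) (hvs : v s = m)
    (hm : ∀ z : ℂ, ‖z‖ ≤ s → |v z| ≤ m) (hUm : U s ≤ m) :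
    D ≤ 4 / π * (1 / (1 + s ^ 2)) := by
  have hg : HasDerivAt (fun t : ℝ => U t + (m - U s)) (4 / π * (1 / (1 + s ^ 2))) s := (hasDerivAt_U s).add_const _
  refine deriv_cmp hD hg ?_ (q := 1) hs1 fun t ht ht1 => ?_
  · simp only [hvs]
    ring
  · have h1 := lin1 hv hb hs0 ht ht1 hm
    have h2 := s1_le_one hs0 ht.le ht1
    have h3 : s1 s t * (m - U s) ≤ 1 * (m - U s) := mul_le_mul_of_nonneg_right h2 (by linarith)
    linarith

/-- slightly below the extremal value -/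
theorem regC {v : ℂ → ℝ} (hv : HarmonicOnNhd v (closedBall 0 1)) (hb : ∀ z ∈ closedBall (0 : ℂ) 1, |v z| ≤ 1)
    {s D m : ℝ} (hs0 : 0 < s) (hs1 : s ≤ 1 / 100) (hD : HasDerivAt (fun t : ℝ => v t) D s) (hvs : v s = m)
    (hm : ∀ z : ℂ, ‖z‖ ≤ s → |v z| ≤ m) :
    D ≤ 4 / π * (1 / (1 + s ^ 2)) + (1 - 5 * s) / s * (m - U s) := by
  set σ := (1 - 5 * s) / s with hσ
  have hσs : s * σ = 1 - 5 * s := by rw [hσ]; field_simp
  have hσ0 : 0 < σ := div_pos (by linarith) hs0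
  have hg : HasDerivAt (fun t : ℝ => U t + (1 + σ * (t - s)) * (m - U s))
      (4 / π * (1 / (1 + s ^ 2)) + σ * (m - U s)) s := by
    have h1 : HasDerivAt (fun t : ℝ => 1 + σ * (t - s)) σ s := by
      simpa using (((hasDerivAt_id s).sub_const s).const_mul σ).const_add 1
    exact (hasDerivAt_U s).add (h1.mul_const (m - U s))
  refine deriv_cmp hD hg ?_ (q := 6 / 5 * s) (by linarith) fun t ht ht1 => ?_
  · simp only [hvs, sub_self, mul_zero, add_zero, one_mul]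
    ring
  have ht0 : 0 < t := hs0.trans ht
  have ht2 : t < 1 := by linarith
  have hS : s1 s t ≤ 1 + σ * (t - s) := by
    have h1 := s1_le_one hs0 ht.le ht2
    have h2 : 0 ≤ σ * (t - s) := mul_nonneg hσ0.le (by linarith)
    linarith
  have hA : (2 * t * (1 - s ^ 4) * s1 s t) * (1 + t ^ 2) = 2 * t * (1 + s ^ 2) ^ 2 * (1 - t ^ 2) := by
    have h1 : 0 < 1 - s ^ 2 := by nlinarith
    unfold s1
    field_simp
    ring
  have hs2 : s ^ 2 ≤ s / 100 := by nlinarith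
  have ht3 : t ^ 2 ≤ 36 / 25 * s ^ 2 := by nlinarith
  have hts : t * s ≤ 6 / 5 * s ^ 2 := by nlinarith
  have hr : 1 - 7 * s ^ 2 ≤ -(s - s ^ 3) * t ^ 3 - (1 + 3 * s ^ 2) * t ^ 2 - (3 * s + s ^ 3) * t + (1 - s ^ 2) := by
    have q0 : 0 ≤ s ^ 2 := sq_nonneg s
    have q1 : s ^ 2 ≤ 1 / 10000 := by nlinarith
    have q2 : (3 * s + s ^ 3) * t ≤ 3.61 * s ^ 2 := by
      have : (3 * s + s ^ 3) * t = (3 + s ^ 2) * (t * s) := by ring
      rw [this]
      have h5 : (3 + s ^ 2) * (t * s) ≤ (3 + 1 / 10000) * (6 / 5 * s ^ 2) :=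
        mul_le_mul (by linarith) hts (by positivity) (by norm_num)
      linarith
    have q3 : (1 + 3 * s ^ 2) * t ^ 2 ≤ 1.45 * s ^ 2 := by
      have h5 : (1 + 3 * s ^ 2) * t ^ 2 ≤ (1 + 3 / 10000) * (36 / 25 * s ^ 2) :=
        mul_le_mul (by linarith) ht3 (by positivity) (by norm_num)
      linarith
    have q4 : (s - s ^ 3) * t ^ 3 ≤ 0.01 * s ^ 2 := by
      have h6 : 0 ≤ s ^ 3 := by positivity
      have h5 : (s - s ^ 3) * t ^ 3 ≤ s * t ^ 3 := mul_le_mul_of_nonneg_right (by linarith) (by positivity)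
      have h7 : s * t ^ 3 = (t * s) * t ^ 2 := by ring
      have h8 : (t * s) * t ^ 2 ≤ (6 / 5 * s ^ 2) * (36 / 25 * s ^ 2) := mul_le_mul hts ht3 (by positivity) (by positivity)
      have h9 : (6 / 5 * s ^ 2) * (36 / 25 * s ^ 2) ≤ (6 / 5 * s ^ 2) * (36 / 25 * (1 / 10000)) := by gcongr
      linarith
    linarith
  have hsig : s * (1 - s ^ 2) * (1 + t ^ 2) ^ 2 * σ ≤ (1 + 5 * s ^ 2) * (1 - 5 * s) := by
    have e1 : s * (1 - s ^ 2) * (1 + t ^ 2) ^ 2 * σ = (1 - s ^ 2) * (1 + t ^ 2) ^ 2 * (1 - 5 * s) := by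
      rw [← hσs]; ring
    rw [e1]
    refine mul_le_mul_of_nonneg_right ?_ (by linarith)
    have q0 : 0 ≤ s ^ 2 := sq_nonneg s
    have q1 : s ^ 2 ≤ 1 / 10000 := by nlinarith
    have h5 : (1 + t ^ 2) ^ 2 ≤ (1 + 36 / 25 * s ^ 2) ^ 2 := by gcongr
    have h6 : (1 + 36 / 25 * s ^ 2) ^ 2 ≤ 1 + 5 * s ^ 2 := by nlinarith
    have h7 : (1 - s ^ 2) * (1 + t ^ 2) ^ 2 ≤ 1 * (1 + t ^ 2) ^ 2 := mul_le_mul_of_nonneg_right (by linarith) (by positivity)
    linarith
  have hX : 4 * s * (1 + t ^ 2) * (1 + s * t) + 4 * t * (1 - s ^ 2) * (1 + t ^ 2) * (s * σ) ≤ 9 * s := by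
    rw [hσs]
    have q1 : t ^ 2 ≤ 1 / 1000 := by nlinarith
    have q2 : s * t ≤ 1 / 1000 := by nlinarith
    have h5 : 4 * s * (1 + t ^ 2) * (1 + s * t) ≤ 4 * s * (1 + 1 / 1000) * (1 + 1 / 1000) := by gcongr
    have h6 : 4 * t * (1 - s ^ 2) * (1 + t ^ 2) * (1 - 5 * s) ≤ 4 * (6 / 5 * s) * 1 * (1 + 1 / 1000) * 1 := by
      have h7 : 0 ≤ 1 - s ^ 2 := by nlinarith
      have h8 : 0 ≤ s ^ 2 := sq_nonneg s
      gcongr
      · linarith
      · linarith
      · linarith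
    linarith
  have hXp : 0 ≤ 4 * s * (1 + t ^ 2) * (1 + s * t) + 4 * t * (1 - s ^ 2) * (1 + t ^ 2) * (s * σ) := by
    have h7 : 0 ≤ 1 - s ^ 2 := by nlinarith
    positivity
  have hmain : 9 * s ≤ 2 * (-(s - s ^ 3) * t ^ 3 - (1 + 3 * s ^ 2) * t ^ 2 - (3 * s + s ^ 3) * t + (1 - s ^ 2)) -
      2 * (s * (1 - s ^ 2) * (1 + t ^ 2) ^ 2 * σ) := by
    have h5 : (1 + 5 * s ^ 2) * (1 - 5 * s) ≤ 1 - 5 * s + 5 * s ^ 2 := by
      have : 0 ≤ 25 * s ^ 3 := by positivity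
      linarith
    linarith
  have h9 : 0 < 1 + t ^ 2 := by positivity
  have hts0 : 0 ≤ t - s := by linarith
  have h1 := lin hv hb hs0 ht ht2 (S := 1 + σ * (t - s)) (m := m) hS
    (by
      refine nonneg_of_mul_nonneg_left (b := 1 + t ^ 2) ?_ h9
      have e1 : (2 * t * (1 - s ^ 4) * s1 s t - 2 * s * (1 - s ^ 2) * (1 + t ^ 2) * (1 + σ * (t - s)) +
          (4 * s * t * (1 + σ * (t - s)) * (1 - s ^ 2) - 4 * s ^ 2 * (1 - t ^ 2))) * (1 + t ^ 2) =
          (t - s) * ((2 * (-(s - s ^ 3) * t ^ 3 - (1 + 3 * s ^ 2) * t ^ 2 - (3 * s + s ^ 3) * t + (1 - s ^ 2)) -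
          2 * (s * (1 - s ^ 2) * (1 + t ^ 2) ^ 2 * σ)) +
          (4 * s * (1 + t ^ 2) * (1 + s * t) + 4 * t * (1 - s ^ 2) * (1 + t ^ 2) * (s * σ))) := by
        linear_combination hA
      rw [e1]
      exact mul_nonneg hts0 (by linarith))
    (by
      refine nonneg_of_mul_nonneg_left (b := 1 + t ^ 2) ?_ h9
      have e1 : (2 * t * (1 - s ^ 4) * s1 s t - 2 * s * (1 - s ^ 2) * (1 + t ^ 2) * (1 + σ * (t - s)) -
          (4 * s * t * (1 + σ * (t - s)) * (1 - s ^ 2) - 4 * s ^ 2 * (1 - t ^ 2))) * (1 + t ^ 2) =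
          (t - s) * ((2 * (-(s - s ^ 3) * t ^ 3 - (1 + 3 * s ^ 2) * t ^ 2 - (3 * s + s ^ 3) * t + (1 - s ^ 2)) -
          2 * (s * (1 - s ^ 2) * (1 + t ^ 2) ^ 2 * σ)) -
          (4 * s * (1 + t ^ 2) * (1 + s * t) + 4 * t * (1 - s ^ 2) * (1 + t ^ 2) * (s * σ))) := by
        linear_combination hA
      rw [e1]
      exact mul_nonneg hts0 (by linarith))
    hm
  exact h1

end TBP
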