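import Pool.Agent.Lib.MP_8b37c6_anP.I

/-!
# MP_8b37c6_an, plane case: the target bound
-/

namespace TBP

open Complex Metric InnerProductSpace Real MeasureTheory Set

/-- the denominator of the target -/
noncomputable def den (s : ℝ) : ℝ := (1 + s ^ 2) * Real.arctan s * (-Real.log (U s))

theorem exp_lo {x : ℝ} (hx : 0 ≤ x) : 1 + x + x ^ 2 / 2 + x ^ 3 / 6 + x ^ 4 / 24 + x ^ 5 / 120 ≤ Real.exp x := by
  have h := Real.sum_le_exp_of_nonneg hx 6
  simp only [Finset.sum_range_succ, Finset.sum_range_zero, Nat.factorial] at h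
  norm_num at h
  linarith

theorem exp_neg_le {x B : ℝ} (hx : 0 ≤ x) (hB : 0 < B)
    (h : 1 ≤ B * (1 + x + x ^ 2 / 2 + x ^ 3 / 6 + x ^ 4 / 24 + x ^ 5 / 120)) : Real.exp (-x) ≤ B := by
  have h1 := exp_lo hx
  have h2 : B * (1 + x + x ^ 2 / 2 + x ^ 3 / 6 + x ^ 4 / 24 + x ^ 5 / 120) ≤ B * Real.exp x :=
    mul_le_mul_of_nonneg_left h1 hB.le
  rw [Real.exp_neg, inv_le_comm₀ (Real.exp_pos x) hB]
  rw [inv_le_iff_one_le_mul₀ hB]
  linarith

theorem lam_gt : 0.2411 ≤ Real.log (4 / π) := by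
  have hp := Real.pi_lt_d4
  have hp0 := Real.pi_pos
  have h1 := Real.exp_bound' (x := 0.2411) (by norm_num) (by norm_num) (n := 4) (by norm_num)
  simp only [Finset.sum_range_succ, Finset.sum_range_zero, Nat.factorial] at h1
  rw [Real.le_log_iff_exp_le (by positivity), le_div_iff₀ hp0]
  refine (mul_le_mul h1 hp.le hp0.le (by norm_num)).trans ?_
  norm_num

theorem log1000_lo : 6.9074 ≤ Real.log 1000 := by
  have h1 : Real.log 1000 = 10 * Real.log 2 - Real.log 1.024 := by
    have : (1000 : ℝ) = 2 ^ 10 / 1.024 := by norm_num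
    rw [this, Real.log_div (by norm_num) (by norm_num), Real.log_pow]
    norm_num
  have h2 := Real.log_le_sub_one_of_pos (show (0 : ℝ) < 1.024 by norm_num)
  have h3 := Real.log_two_gt_d9
  rw [h1]
  linarith

theorem log1000_hi : Real.log 1000 ≤ 6.9081 := by
  have h1 : Real.log 1000 = 10 * Real.log 2 - Real.log 1.024 := by
    have : (1000 : ℝ) = 2 ^ 10 / 1.024 := by norm_num
    rw [this, Real.log_div (by norm_num) (by norm_num), Real.log_pow]
    norm_num
  have h2 := Real.one_sub_inv_le_log_of_pos (show (0 : ℝ) < 1.024 by norm_num)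
  have h3 := Real.log_two_lt_d9
  have h4 : (0.0234 : ℝ) ≤ 1 - (1.024)⁻¹ := by norm_num
  rw [h1]
  linarith

theorem ell_lo {s : ℝ} (hs0 : 0 < s) (hs1 : s ≤ 1 / 1000) : 6.9074 ≤ -Real.log s := by
  have h1 := Real.log_le_log hs0 hs1
  rw [one_div, Real.log_inv] at h1
  have := log1000_lo
  linarith

theorem s_ell {s : ℝ} (hs0 : 0 < s) (hs1 : s ≤ 1 / 1000) : s * (-Real.log s) ≤ 0.0069081 := by
  have h1000 : (1000 : ℝ) ≤ 1 / s := by
    rw [le_div_iff₀ hs0]
    linarith
  have he : Real.exp 1 ≤ 1000 := by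
    have := Real.exp_one_lt_d9
    linarith
  have h := Real.log_div_self_antitoneOn (mem_Ici.2 he) (mem_Ici.2 (he.trans h1000)) h1000
  simp only at h
  have h2 := log1000_hi
  have h3 : Real.log (1 / s) / (1 / s) = s * (-Real.log s) := by
    rw [one_div, Real.log_inv]
    field_simp
  rw [h3] at h
  have h4 : Real.log 1000 / 1000 ≤ 0.0069081 := by
    rw [div_le_iff₀ (by norm_num)]
    linarith
  linarith

theorem arctan_lo {s : ℝ} (hs0 : 0 < s) : s / (1 + s ^ 2) ≤ Real.arctan s := by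
  have h1 : 0 < Real.arctan s := Real.arctan_pos.2 hs0
  have h2 := Real.sin_le h1.le
  rw [Real.sin_arctan] at h2
  refine le_trans ?_ h2
  refine div_le_div_of_nonneg_left hs0.le (by positivity) ?_
  rw [Real.sqrt_le_left (by positivity)]
  nlinarith [sq_nonneg s]

theorem L_le {s : ℝ} (hs0 : 0 < s) : -Real.log (U s) ≤ -Real.log s - Real.log (4 / π) + s ^ 2 := by
  have h1 : 0 < Real.arctan s := Real.arctan_pos.2 hs0
  have h2 := Real.log_le_log (by positivity) (arctan_lo hs0)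
  rw [Real.log_div hs0.ne' (by positivity)] at h2
  have h3 := Real.log_le_sub_one_of_pos (show 0 < 1 + s ^ 2 by positivity)
  unfold U
  rw [Real.log_mul (by positivity) h1.ne']
  linarith

theorem L_pos {s : ℝ} (hs0 : 0 < s) (hs1 : s < 1) : 0 < -Real.log (U s) := by
  have h1 : U s < 1 := by rw [← U_one]; exact U_lt hs1
  have := Real.log_neg (U_pos hs0) h1
  linarith

theorem den_pos' {s : ℝ} (hs0 : 0 < s) (hs1 : s < 1) : 0 < den s := by
  have h1 : 0 < Real.arctan s := Real.arctan_pos.2 hs0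
  have h2 := L_pos hs0 hs1
  unfold den
  positivity

theorem den_le {s : ℝ} (hs0 : 0 < s) (hs1 : s ≤ 1 / 1000) : den s ≤ s * (-Real.log s - 0.241) := by
  have h1 : 0 < Real.arctan s := Real.arctan_pos.2 hs0
  have h2 := L_pos hs0 (by linarith)
  have h3 := L_le hs0
  have h4 := lam_gt
  have h5 := (arctan_lt hs0).le
  have h6 := s_ell hs0 hs1
  have h7 := ell_lo hs0 hs1
  unfold den
  have h8 : (1 + s ^ 2) * Real.arctan s * (-Real.log (U s)) ≤ (1 + s ^ 2) * s * (-Real.log s - 0.2411 + s ^ 2) := by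
    refine mul_le_mul (mul_le_mul_of_nonneg_left h5 (by positivity)) (by linarith) h2.le (by positivity)
  refine h8.trans ?_
  have h9 : (1 + s ^ 2) * (-Real.log s - 0.2411 + s ^ 2) ≤ -Real.log s - 0.241 := by
    have e1 : s ^ 2 * (-Real.log s) = s * (s * (-Real.log s)) := by ring
    have e2 : s * (s * (-Real.log s)) ≤ 1 / 1000 * 0.0069081 := mul_le_mul hs1 h6 (by nlinarith) (by norm_num)
    have e3 : s ^ 2 ≤ 1 / 1000000 := by nlinarith
    nlinarith
  calc (1 + s ^ 2) * s * (-Real.log s - 0.2411 + s ^ 2) = s * ((1 + s ^ 2) * (-Real.log s - 0.2411 + s ^ 2)) := by ring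
    _ ≤ _ := mul_le_mul_of_nonneg_left h9 hs0.le

/-- the value of the target at the extremal value -/
theorem target_U {s : ℝ} (hs0 : 0 < s) (hs1 : s < 1) : 4 / π * (1 / (1 + s ^ 2)) = U s * (-Real.log (U s)) / den s := by
  have h1 : 0 < Real.arctan s := Real.arctan_pos.2 hs0
  have h2 := L_pos hs0 hs1
  unfold den
  rw [eq_div_iff (by positivity)]
  unfold U
  field_simp

theorem conc {x y m : ℝ} (hx : 0 ≤ x) (hxy : x < y) (h1 : x ≤ m) (h2 : m ≤ y) :
    (y - m) / (y - x) * (x * (-Real.log x)) + (m - x) / (y - x) * (y * (-Real.log y)) ≤ m * (-Real.log m) := by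
  have hd : 0 < y - x := by linarith
  have h := Real.concaveOn_negMulLog.2 (mem_Ici.2 hx) (mem_Ici.2 (hx.trans hxy.le))
    (div_nonneg (show 0 ≤ y - m by linarith) hd.le) (div_nonneg (show 0 ≤ m - x by linarith) hd.le)
    (by field_simp; ring)
  simp only [smul_eq_mul, Real.negMulLog] at h
  have e1 : (y - m) / (y - x) * x + (m - x) / (y - x) * y = m := by field_simp; ring
  rw [e1] at h
  linarith

theorem caseA {s m D : ℝ} (hs0 : 0 < s) (hs1 : s ≤ 1 / 1000) (hm : 1 / 2 ≤ m) (hm1 : m ≤ 1)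
    (h : D ≤ 2 * (1 - m) / (1 - s ^ 2)) : D ≤ m * (-Real.log m) / den s := by
  have hd0 := den_pos' hs0 (by linarith)
  have hd := den_le hs0 hs1
  have h1 := s_ell hs0 hs1
  have h2 : 0 < 1 - s ^ 2 := by nlinarith
  refine h.trans ?_
  rw [div_le_div_iff₀ h2 hd0]
  have h3 : 1 - m ≤ -Real.log m := by
    have := Real.log_le_sub_one_of_pos (show 0 < m by linarith)
    linarith
  have h4 : 1 / 2 * (1 - m) ≤ m * (-Real.log m) := mul_le_mul hm h3 (by linarith) (by linarith)
  have h5 : den s ≤ 0.01 := by nlinarith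
  have h6 : 2 * (1 - m) * den s ≤ 2 * (1 - m) * 0.01 := mul_le_mul_of_nonneg_left h5 (by linarith)
  have h7 : 1 / 2 * (1 - m) * (1 / 2) ≤ m * (-Real.log m) * (1 - s ^ 2) :=
    mul_le_mul h4 (by nlinarith) (by norm_num) ((mul_nonneg (by norm_num) (by linarith)).trans h4)
  linarith

theorem caseB {s m D : ℝ} (hs0 : 0 < s) (hs1 : s ≤ 1 / 1000) (hm : U s ≤ m) (hm1 : m ≤ 1 / 2)
    (h : D ≤ 4 / π * (1 / (1 + s ^ 2))) : D ≤ m * (-Real.log m) / den s := by
  have hd0 := den_pos' hs0 (by linarith)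
  have hd := den_le hs0 hs1
  have h1 := s_ell hs0 hs1
  have hU := target_U hs0 (by linarith)
  refine h.trans ?_
  rw [hU]
  refine div_le_div_of_nonneg_right ?_ hd0.le
  have h4pi : 4 / π ≤ 1.28 := by
    rw [div_le_iff₀ Real.pi_pos]
    nlinarith [Real.pi_gt_d2]
  have h5 : den s ≤ 0.01 := by nlinarith
  have h6 : U s * (-Real.log (U s)) ≤ 0.3 := by
    have h7 : U s * (-Real.log (U s)) = 4 / π * (1 / (1 + s ^ 2)) * den s := by
      rw [hU]; field_simp
    rw [h7]
    have h8 : 1 / (1 + s ^ 2) ≤ 1 := by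
      rw [div_le_one (by positivity)]
      nlinarith
    have h9 : 4 / π * (1 / (1 + s ^ 2)) ≤ 1.28 * 1 := mul_le_mul h4pi h8 (by positivity) (by norm_num)
    have h10 : 4 / π * (1 / (1 + s ^ 2)) * den s ≤ (1.28 * 1) * 0.01 := mul_le_mul h9 h5 hd0.le (by norm_num)
    linarith
  have h7 : (0.3 : ℝ) ≤ 1 / 2 * (-Real.log (1 / 2)) := by
    rw [one_div, Real.log_inv, neg_neg]
    have := Real.log_two_gt_d9
    linarith
  have hUs : U s < 1 / 2 := by
    have := U_le hs0
    nlinarith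
  have h8 := conc (U_pos hs0).le hUs hm hm1
  have hx : 0 ≤ (1 / 2 - m) / (1 / 2 - U s) := div_nonneg (by linarith) (by linarith)
  have hy : 0 ≤ (m - U s) / (1 / 2 - U s) := div_nonneg (by linarith) (by linarith)
  have hxy : (1 / 2 - m) / (1 / 2 - U s) + (m - U s) / (1 / 2 - U s) = 1 := by
    have : 1 / 2 - U s ≠ 0 := by linarith
    rw [← add_div, show 1 / 2 - m + (m - U s) = 1 / 2 - U s by ring]
    exact div_self this
  have h9 : (m - U s) / (1 / 2 - U s) * (U s * (-Real.log (U s))) ≤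
      (m - U s) / (1 / 2 - U s) * (1 / 2 * (-Real.log (1 / 2))) := mul_le_mul_of_nonneg_left (h6.trans h7) hy
  calc U s * (-Real.log (U s)) = (1 / 2 - m) / (1 / 2 - U s) * (U s * (-Real.log (U s))) +
      (m - U s) / (1 / 2 - U s) * (U s * (-Real.log (U s))) := by rw [← add_mul, hxy, one_mul]
    _ ≤ _ := by linarith

theorem caseC {s m D : ℝ} (hs0 : 0 < s) (hs1 : s ≤ 1 / 1000) (hm : s ≤ m) (hm1 : m ≤ U s)
    (h : D ≤ 4 / π * (1 / (1 + s ^ 2)) + (1 - 5 * s) / s * (m - U s)) : D ≤ m * (-Real.log m) / den s := by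
  have hd0 := den_pos' hs0 (by linarith)
  have hd := den_le hs0 hs1
  have h1 := s_ell hs0 hs1
  have h2 := ell_lo hs0 hs1
  have hU := target_U hs0 (by linarith)
  have hUs : s < U s := by
    have h3 := arctan_lo hs0
    have hpi := Real.pi_lt_d2
    have hpi0 := Real.pi_pos
    have h5 : s / (1 + s ^ 2) ≥ s * (1 - s ^ 2) := by
      rw [ge_iff_le, le_div_iff₀ (by positivity)]
      nlinarith [pow_pos hs0 3, pow_pos hs0 5]
    have h4 : 1.26 ≤ 4 / π := by
      rw [le_div_iff₀ hpi0]; nlinarith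
    have h6 : s ^ 2 ≤ 1 / 1000000 := by nlinarith
    have h7 : s * (1 - 1 / 1000000) ≤ Real.arctan s := by nlinarith
    have h8 : 1.26 * (s * (1 - 1 / 1000000)) ≤ 4 / π * Real.arctan s := mul_le_mul h4 h7 (by positivity) (by positivity)
    unfold U
    linarith
  have key : 4 / π * (1 / (1 + s ^ 2)) + (1 - 5 * s) / s * (s - U s) ≤ s * (-Real.log s) / den s := by
    have hpi := Real.pi_gt_d2
    have hpi0 := Real.pi_pos
    have h4pi : 4 / π ≤ 1.28 := by
      rw [div_le_iff₀ hpi0]; nlinarith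
    have h5 : s * (1 - s ^ 2) ≤ Real.arctan s := by
      refine le_trans ?_ (arctan_lo hs0)
      rw [le_div_iff₀ (by positivity)]
      nlinarith [pow_pos hs0 3, pow_pos hs0 5]
    have e1 : (1 - 5 * s) / s * (s - U s) ≤ (1 - 5 * s) * (1 - 4 / π * (1 - s ^ 2)) := by
      have : (1 - 5 * s) / s * (s - U s) ≤ (1 - 5 * s) / s * (s - 4 / π * (s * (1 - s ^ 2))) := by
        refine mul_le_mul_of_nonneg_left ?_ (div_nonneg (by linarith) hs0.le)
        unfold U
        have := mul_le_mul_of_nonneg_left h5 (show 0 ≤ 4 / π by positivity)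
        linarith
      refine this.trans (le_of_eq ?_)
      field_simp
    have e2 : 4 / π * (1 / (1 + s ^ 2)) ≤ 4 / π := by
      refine mul_le_of_le_one_right (by positivity) ?_
      rw [div_le_one (by positivity)]
      nlinarith
    have e3 : 4 / π + (1 - 5 * s) * (1 - 4 / π * (1 - s ^ 2)) ≤ 1 + 2 * s := by
      have h6 : 0 < 4 / π := by positivity
      have h7 : 4 / π * s ≤ 1.28 * s := mul_le_mul_of_nonneg_right h4pi hs0.le
      have h8 : 4 / π * s ^ 2 ≤ 1.28 * s ^ 2 := mul_le_mul_of_nonneg_right h4pi (by positivity)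
      have h9 : 0 ≤ 4 / π * s ^ 3 := by positivity
      have h10 : s ^ 2 ≤ s / 1000 := by nlinarith
      nlinarith
    have e4 : 1 + 2 * s ≤ s * (-Real.log s) / den s := by
      rw [le_div_iff₀ hd0]
      have h6 : (1 + 2 * s) * den s ≤ (1 + 2 * s) * (s * (-Real.log s - 0.241)) :=
        mul_le_mul_of_nonneg_left hd (by positivity)
      have h7 : (1 + 2 * s) * (-Real.log s - 0.241) ≤ -Real.log s := by nlinarith
      have h8 := mul_le_mul_of_nonneg_left h7 hs0.le
      linarith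
    linarith
  refine h.trans ?_
  rw [le_div_iff₀ hd0] at key ⊢
  have h3 := conc hs0.le hUs hm hm1
  refine le_trans ?_ h3
  have hU2 : U s * (-Real.log (U s)) = 4 / π * (1 / (1 + s ^ 2)) * den s := by
    rw [hU]; field_simp
  have hx : 0 ≤ (U s - m) / (U s - s) := div_nonneg (by linarith) (by linarith)
  have h4 := mul_le_mul_of_nonneg_left key hx
  rw [hU2]
  have hne : U s - s ≠ 0 := by linarith
  have e5 : (4 / π * (1 / (1 + s ^ 2)) + (1 - 5 * s) / s * (m - U s)) * den s =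
      (U s - m) / (U s - s) * ((4 / π * (1 / (1 + s ^ 2)) + (1 - 5 * s) / s * (s - U s)) * den s) +
      (m - s) / (U s - s) * (4 / π * (1 / (1 + s ^ 2)) * den s) := by
    set Q := 4 / π * (1 / (1 + s ^ 2))
    set Z := (1 - 5 * s) / s
    field_simp
    ring
  rw [e5]
  linarith

end TBP
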