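import Pool.Agent.Lib.MP_8b37c6_anP.H3
import Pool.Agent.Lib.MP_8b37c6_anP.J

/-!
# MP_8b37c6_an, plane case: the target bound for small values
-/

namespace TBP

open Complex Metric InnerProductSpace Real MeasureTheory Set

theorem exp_lin {C α p q y : ℝ} (hC : 0 ≤ C) (hp : p ≤ y) (hq : y ≤ q) (h1 : C * Real.exp (-p) ≤ α - p)
    (h2 : C * Real.exp (-q) ≤ α - q) : C * Real.exp (-y) ≤ α - y := by
  rcases (hp.trans hq).eq_or_lt with h | h
  · have : y = p := le_antisymm (by rw [h]; exact hq) hp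
    rw [this]; exact h1
  have hd : 0 < q - p := by linarith
  have hx : 0 ≤ (q - y) / (q - p) := div_nonneg (by linarith) hd.le
  have hy : 0 ≤ (y - p) / (q - p) := div_nonneg (by linarith) hd.le
  have hxy : (q - y) / (q - p) + (y - p) / (q - p) = 1 := by
    rw [← add_div, show q - y + (y - p) = q - p by ring]
    exact div_self hd.ne'
  have h3 := convexOn_exp.2 (mem_univ (-p)) (mem_univ (-q)) hx hy hxy
  simp only [smul_eq_mul] at h3
  have e1 : (q - y) / (q - p) * -p + (y - p) / (q - p) * -q = -y := by field_simp; ring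
  rw [e1] at h3
  have h4 := mul_le_mul_of_nonneg_left h3 hC
  have h5 := mul_le_mul_of_nonneg_left h1 hx
  have h6 := mul_le_mul_of_nonneg_left h2 hy
  have e2 : (q - y) / (q - p) * (α - p) + (y - p) / (q - p) * (α - q) = α - y := by
    have : (q - y) / (q - p) * (α - p) + (y - p) / (q - p) * (α - q) =
      ((q - y) / (q - p) + (y - p) / (q - p)) * α + ((q - y) / (q - p) * -p + (y - p) / (q - p) * -q) := by ring
    rw [this, hxy, e1]
    ring
  linarith

theorem fin {s m D q X : ℝ} (hs0 : 0 < s) (hs1 : s ≤ 1 / 1000) (hm : 0 < m) (hX : 0 ≤ X)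
    (h : s * D ≤ m * q) (hq : q * (-Real.log s - 0.241) ≤ X) : D ≤ m * X / den s := by
  have hd0 := den_pos' hs0 (by linarith)
  have hd := den_le hs0 hs1
  have h2 := ell_lo hs0 hs1
  rw [le_div_iff₀ hd0]
  rcases le_or_gt D 0 with hD | hD
  · have : D * den s ≤ 0 := mul_nonpos_of_nonpos_of_nonneg hD hd0.le
    have : 0 ≤ m * X := mul_nonneg hm.le hX
    linarith
  · calc D * den s ≤ D * (s * (-Real.log s - 0.241)) := mul_le_mul_of_nonneg_left hd hD.le
      _ = (s * D) * (-Real.log s - 0.241) := by ring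
      _ ≤ (m * q) * (-Real.log s - 0.241) := mul_le_mul_of_nonneg_right h (by linarith)
      _ = m * (q * (-Real.log s - 0.241)) := by ring
      _ ≤ m * X := mul_le_mul_of_nonneg_left hq hm.le

theorem pi8 : 8 / π ≤ 2.5465 := by
  rw [div_le_iff₀ Real.pi_pos]
  nlinarith [Real.pi_gt_d6]

theorem optA {s l y n e : ℝ} (hs0 : 0 < s) (hs1 : s ≤ 1 / 1000) (hl : 6.9074 ≤ l) (hsl : s * l ≤ 0.0069081)
    (hn : 0 ≤ n) (he0 : 0 ≤ e) (he1 : e ≤ 1) (h : y + 0.0176 + 0.00004 * (n + 3) ≤ 0.241 * (n + 1)) :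
    (n + 1 + 8 / π * s * e + 16 / π * (n + 3) * s ^ 2 * e) * (l - 0.241) ≤ (n + 1) * l - y := by
  have h1 := pi8
  have h0 : 0 < 8 / π := by positivity
  have e1 : 16 / π = 2 * (8 / π) := by ring
  have h2 : 8 / π * s * e * (l - 0.241) ≤ 0.0176 := by
    have : 8 / π * s * e * (l - 0.241) ≤ 8 / π * s * 1 * l := by
      refine mul_le_mul (mul_le_mul_of_nonneg_left he1 (by positivity)) (by linarith) (by linarith) (by positivity)
    have h3 : 8 / π * s * 1 * l = 8 / π * (s * l) := by ring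
    have h4 : 8 / π * (s * l) ≤ 2.5465 * 0.0069081 := mul_le_mul h1 hsl (by positivity) (by norm_num)
    linarith
  have h3 : 16 / π * (n + 3) * s ^ 2 * e * (l - 0.241) ≤ 0.00004 * (n + 3) := by
    have h5 : 16 / π * (n + 3) * s ^ 2 * e * (l - 0.241) = (n + 3) * (2 * s * (8 / π * s * e * (l - 0.241))) := by
      rw [e1]; ring
    rw [h5]
    have h6 : 2 * s * (8 / π * s * e * (l - 0.241)) ≤ 2 * (1 / 1000) * 0.0176 := by
      refine mul_le_mul (by linarith) h2 ?_ (by norm_num)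
      have : 0 ≤ l - 0.241 := by linarith
      positivity
    have h7 := mul_le_mul_of_nonneg_left h6 (show 0 ≤ n + 3 by linarith)
    linarith
  linarith

theorem optB {s l y n p : ℝ} (hs0 : 0 < s) (hs1 : s ≤ 1 / 1000) (hl : 6.9074 ≤ l) (hsl : s * l ≤ 0.0069081)
    (hse : Real.exp (-l) = s) (hn : 1 ≤ n) (hp : p ≤ y) (hy : y ≤ l)
    (h : 8 / π * (1 + 2 * (n + 2) * s) * Real.exp (-p) * (l - 0.241) ≤ l + 0.241 * n - p) :
    (n + 8 / π * Real.exp (-y) + 16 / π * (n + 2) * s * Real.exp (-y)) * (l - 0.241) ≤ (n + 1) * l - y := by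
  have h1 := pi8
  have h0 : 0 < 8 / π := by positivity
  have hl0 : 0 ≤ l - 0.241 := by linarith
  have h2 := exp_lin (C := 8 / π * (1 + 2 * (n + 2) * s) * (l - 0.241)) (α := l + 0.241 * n) (p := p) (q := l) (y := y)
    (by positivity) hp hy (by linarith) (by
      rw [hse]
      have h3 : 8 / π * (1 + 2 * (n + 2) * s) * (l - 0.241) * s ≤ 8 / π * (1 + 2 * (n + 2) * s) * (s * l) := by
        have : 8 / π * (1 + 2 * (n + 2) * s) * (l - 0.241) * s = 8 / π * (1 + 2 * (n + 2) * s) * (s * (l - 0.241)) := by ring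
        rw [this]
        refine mul_le_mul_of_nonneg_left ?_ (by positivity)
        nlinarith
      have h4 : 8 / π * (1 + 2 * (n + 2) * s) * (s * l) ≤ 2.5465 * (1 + 2 * (n + 2) * (1 / 1000)) * 0.0069081 := by
        gcongr
      linarith)
  have e1 : (n + 8 / π * Real.exp (-y) + 16 / π * (n + 2) * s * Real.exp (-y)) * (l - 0.241) =
      n * (l - 0.241) + 8 / π * (1 + 2 * (n + 2) * s) * (l - 0.241) * Real.exp (-y) := by ring
  rw [e1]
  linarith

/-- the real inequality -/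
theorem real3 {s m D : ℝ} (hs0 : 0 < s) (hs1 : s ≤ 1 / 1000) (hm0 : 0 < m) (hms : m ≤ s)
    (hN : ∀ N : ℕ, 1 ≤ N → s * D ≤ N * m + 2 * (4 / π) * s ^ (N + 1) + 16 / π * ((N + 1 : ℕ) + 1) * s ^ (N + 1 + 1))
    (h2 : s * D ≤ 20 / 11 * m + 1 / 5 * (4 / π) * s ^ 2 + 16 / π * ((2 : ℕ) + 1) * s ^ (2 + 1))
    (h3 : s * D ≤ 17 / 7 * m + 4 / 5 * (4 / π) * s ^ 3 + 16 / π * ((3 : ℕ) + 1) * s ^ (3 + 1)) :
    D ≤ m * (-Real.log m) / den s := by
  set l := -Real.log s with hl
  have hl1 : 6.9074 ≤ l := ell_lo hs0 hs1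
  have hsl : s * l ≤ 0.0069081 := s_ell hs0 hs1
  have hse : Real.exp (-l) = s := by rw [hl, neg_neg, Real.exp_log hs0]
  set X := -Real.log m with hX
  have hXl : l ≤ X := by
    have := Real.log_le_log hm0 hms
    linarith
  have hX0 : 0 ≤ X := by linarith
  have hl0 : 0 < l := by linarith
  set N := ⌊X / l⌋₊ with hNdef
  have hN1 : 1 ≤ N := by
    rw [hNdef, Nat.one_le_floor_iff, le_div_iff₀ hl0]
    linarith
  have hN2 : (N : ℝ) * l ≤ X := by
    have := Nat.floor_le (show 0 ≤ X / l by positivity)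
    rwa [le_div_iff₀ hl0] at this
  have hN3 : X < ((N : ℝ) + 1) * l := by
    have := Nat.lt_floor_add_one (X / l)
    rwa [div_lt_iff₀ hl0] at this
  set y := ((N : ℝ) + 1) * l - X with hy
  have hy0 : 0 < y := by linarith
  have hyl : y ≤ l := by linarith
  have hXy : X = ((N : ℝ) + 1) * l - y := by rw [hy]; ring
  have he0 := Real.exp_pos (-y)
  have he1 : Real.exp (-y) ≤ 1 := Real.exp_le_one_iff.2 (by linarith)
  have hsm : s ^ (N + 1) = m * Real.exp (-y) := by
    have h4 : s ^ (N + 1) = Real.exp (-(((N : ℝ) + 1) * l)) := by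
      rw [← hse, ← Real.exp_nat_mul]
      congr 1
      push_cast
      ring
    have h5 : m = Real.exp (-X) := by rw [hX, neg_neg, Real.exp_log hm0]
    rw [h4]
    nth_rewrite 1 [h5]
    rw [← Real.exp_add]
    congr 1
    rw [hy]; ring
  have hsm2 : s ^ (N + 1 + 1) = s * (m * Real.exp (-y)) := by rw [pow_succ, hsm]; ring
  have hsm3 : s ^ (N + 1 + 1 + 1) = s * (s * (m * Real.exp (-y))) := by rw [pow_succ, hsm2]; ring
  have hNR : (1 : ℝ) ≤ N := by exact_mod_cast hN1
  -- option A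
  have oA : y + 0.0176 + 0.00004 * ((N : ℝ) + 3) ≤ 0.241 * ((N : ℝ) + 1) → D ≤ m * X / den s := by
    intro h
    refine fin hs0 hs1 hm0 hX0 (q := (N : ℝ) + 1 + 8 / π * s * Real.exp (-y) + 16 / π * ((N : ℝ) + 3) * s ^ 2 * Real.exp (-y))
      ?_ ?_
    · have h4 := hN (N + 1) (by omega)
      rw [hsm3, hsm2] at h4
      push_cast at h4
      refine h4.trans (le_of_eq ?_)
      ring
    · rw [hXy]
      exact optA hs0 hs1 hl1 hsl (by positivity) he0.le he1 h
  -- option B
  have oB : ∀ p : ℝ, p ≤ y → 8 / π * (1 + 2 * ((N : ℝ) + 2) * s) * Real.exp (-p) * (l - 0.241) ≤ l + 0.241 * N - p →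
      D ≤ m * X / den s := by
    intro p hp h
    refine fin hs0 hs1 hm0 hX0 (q := (N : ℝ) + 8 / π * Real.exp (-y) + 16 / π * ((N : ℝ) + 2) * s * Real.exp (-y)) ?_ ?_
    · have h4 := hN N hN1
      rw [hsm, hsm2] at h4
      push_cast at h4
      refine h4.trans (le_of_eq ?_)
      ring
    · rw [hXy]
      exact optB hs0 hs1 hl1 hsl hse hNR hp hyl h
  have hp8 := pi8
  have hp80 : 0 < 8 / π := by positivity
  have hl00 : 0 ≤ l - 0.241 := by linarith
  rcases (show N = 1 ∨ N = 2 ∨ 3 ≤ N by omega) with h | h | h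
  · -- N = 1
    have hNr : (N : ℝ) = 1 := by rw [h]; norm_num
    rcases le_or_gt y 0.46 with hy1 | hy1
    · refine oA ?_
      rw [hNr]
      linarith
    have E2 : Real.exp (-1.03) ≤ 0.3573 := exp_neg_le (by norm_num) (by norm_num) (by norm_num)
    rcases le_or_gt y 1.03 with hy2 | hy2
    · have E1 : Real.exp (-0.46) ≤ 0.6315 := exp_neg_le (by norm_num) (by norm_num) (by norm_num)
      refine fin hs0 hs1 hm0 hX0 (q := 20 / 11 + (1 / 10 * (8 / π) + 6 * (8 / π) * s) * Real.exp (-y)) ?_ ?_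
      · have e1 : s ^ 2 = m * Real.exp (-y) := by rw [h] at hsm; exact hsm
        have e2 : s ^ (2 + 1) = s * (m * Real.exp (-y)) := by rw [pow_succ, e1]; ring
        rw [e1, e2] at h2
        push_cast at h2
        refine h2.trans (le_of_eq ?_)
        ring
      · rw [hXy, hNr]
        have hC : (1 / 10 * (8 / π) + 6 * (8 / π) * s) * (l - 0.241) ≤ 0.26994 * (l - 0.241) := by
          refine mul_le_mul_of_nonneg_right ?_ hl00
          have : 6 * (8 / π) * s ≤ 6 * 2.5465 * (1 / 1000) := by gcongr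
          linarith
        have h5 := exp_lin (C := 0.26994 * (l - 0.241)) (α := 2 / 11 * l + 20 / 11 * 0.241)
          (p := 0.46) (q := 1.03) (y := y) (by positivity) hy1.le hy2 (by
            have h6 : 0.26994 * (l - 0.241) * Real.exp (-0.46) ≤ 0.26994 * (l - 0.241) * 0.6315 := by gcongr
            linarith) (by
            have h6 : 0.26994 * (l - 0.241) * Real.exp (-1.03) ≤ 0.26994 * (l - 0.241) * 0.3573 := by gcongr
            linarith)
        have h7 : (1 / 10 * (8 / π) + 6 * (8 / π) * s) * (l - 0.241) * Real.exp (-y) ≤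
            0.26994 * (l - 0.241) * Real.exp (-y) := mul_le_mul_of_nonneg_right hC he0.le
        linarith
    · refine oB 1.03 hy2.le ?_
      rw [hNr]
      have h6 : 8 / π * (1 + 2 * ((1 : ℝ) + 2) * s) * Real.exp (-1.03) * (l - 0.241) ≤
          2.5465 * (1 + 2 * ((1 : ℝ) + 2) * (1 / 1000)) * 0.3573 * (l - 0.241) := by gcongr
      linarith
  · -- N = 2
    have hNr : (N : ℝ) = 2 := by rw [h]; norm_num
    rcases le_or_gt y 0.7 with hy1 | hy1
    · refine oA ?_
      rw [hNr]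
      linarith
    rcases le_or_gt y 1 with hy2 | hy2
    · have E1 : Real.exp (-0.7) ≤ 0.4968 := exp_neg_le (by norm_num) (by norm_num) (by norm_num)
      have E2 : Real.exp (-y) ≤ 0.4968 := (Real.exp_le_exp.2 (by linarith)).trans E1
      refine fin hs0 hs1 hm0 hX0 (q := 17 / 7 + (2 / 5 * (8 / π) + 8 * (8 / π) * s) * Real.exp (-y)) ?_ ?_
      · have e1 : s ^ 3 = m * Real.exp (-y) := by rw [h] at hsm; exact hsm
        have e2 : s ^ (3 + 1) = s * (m * Real.exp (-y)) := by rw [pow_succ, e1]; ring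
        rw [e1, e2] at h3
        push_cast at h3
        refine h3.trans (le_of_eq ?_)
        ring
      · rw [hXy, hNr]
        have hC : (2 / 5 * (8 / π) + 8 * (8 / π) * s) * Real.exp (-y) ≤
            (2 / 5 * 2.5465 + 8 * 2.5465 * (1 / 1000)) * 0.4968 := by gcongr
        have h7 : (17 / 7 + (2 / 5 * (8 / π) + 8 * (8 / π) * s) * Real.exp (-y)) * (l - 0.241) ≤
          (17 / 7 + (2 / 5 * 2.5465 + 8 * 2.5465 * (1 / 1000)) * 0.4968) * (l - 0.241) := by gcongr
        linarith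
    · refine oB 1 hy2.le ?_
      rw [hNr]
      have E2 : Real.exp (-1) ≤ 0.368 := Real.exp_neg_one_lt_d9.le.trans (by norm_num)
      have h6 : 8 / π * (1 + 2 * ((2 : ℝ) + 2) * s) * Real.exp (-1) * (l - 0.241) ≤
          2.5465 * (1 + 2 * ((2 : ℝ) + 2) * (1 / 1000)) * 0.368 * (l - 0.241) := by gcongr
      linarith
  · -- N ≥ 3
    have hNr : (3 : ℝ) ≤ N := by exact_mod_cast h
    rcases le_or_gt y (0.2365 * ((N : ℝ) + 1)) with hy1 | hy1
    · refine oA ?_
      linarith
    · refine oB _ hy1.le ?_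
      have E1 : Real.exp (-0.946) ≤ 0.3885 := exp_neg_le (by norm_num) (by norm_num) (by norm_num)
      have e1 : Real.exp (-(0.2365 * ((N : ℝ) + 1))) = Real.exp (-0.946) * Real.exp (-(0.2365 * ((N : ℝ) - 3))) := by
        rw [← Real.exp_add]; congr 1; ring
      have h5 : 1 + 2 * ((N : ℝ) + 2) * s ≤ 1.01 * (1 + 0.2365 * ((N : ℝ) - 3)) := by
        have : 2 * ((N : ℝ) + 2) * s ≤ 2 * ((N : ℝ) + 2) * (1 / 1000) := by gcongr
        linarith
      have h6 : (1 + 0.2365 * ((N : ℝ) - 3)) * Real.exp (-(0.2365 * ((N : ℝ) - 3))) ≤ 1 := by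
        have h7 := Real.add_one_le_exp (0.2365 * ((N : ℝ) - 3))
        rw [Real.exp_neg, mul_inv_le_iff₀ (Real.exp_pos _)]
        linarith
      have h8 : 8 / π * (1 + 2 * ((N : ℝ) + 2) * s) * Real.exp (-(0.2365 * ((N : ℝ) + 1))) ≤ 1 := by
        rw [e1]
        have h9 : 0 ≤ (N : ℝ) - 3 := by linarith
        calc 8 / π * (1 + 2 * ((N : ℝ) + 2) * s) * (Real.exp (-0.946) * Real.exp (-(0.2365 * ((N : ℝ) - 3))))
            ≤ 2.5465 * (1.01 * (1 + 0.2365 * ((N : ℝ) - 3))) * (0.3885 * Real.exp (-(0.2365 * ((N : ℝ) - 3)))) := by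
              gcongr
          _ = 2.5465 * 1.01 * 0.3885 * ((1 + 0.2365 * ((N : ℝ) - 3)) * Real.exp (-(0.2365 * ((N : ℝ) - 3)))) := by ring
          _ ≤ 2.5465 * 1.01 * 0.3885 * 1 := mul_le_mul_of_nonneg_left h6 (by norm_num)
          _ ≤ 1 := by norm_num
      have h10 := mul_le_mul_of_nonneg_right h8 hl00
      linarith

end TBP
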