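import Pool.Agent.Lib.MP_8b37c6_anP.K
import Pool.Agent.Lib.MP_8b37c6_anP.G

/-!
# MP_8b37c6_an, plane case: comparison argument and the theorem for small radii
-/

namespace TBP

open Complex Metric InnerProductSpace Real MeasureTheory Set TB

/-- existence of the radial derivative -/
theorem exists_deriv {v : ℂ → ℝ} (hv : HarmonicOnNhd v (closedBall 0 1)) (hb : ∀ z ∈ closedBall (0 : ℂ) 1, |v z| ≤ 1)
    {s : ℝ} (hs0 : 0 < s) (hs1 : s < 1) : ∃ (D : ℝ) (c : ℕ → ℂ), HasDerivAt (fun t : ℝ => v t) D s ∧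
      (∀ z : ℂ, ‖z‖ < 1 → HasSum (fun n => (c n * z ^ n).re) (v z)) ∧ (∀ n, 1 ≤ n → ‖c n‖ ≤ 4 / π) ∧
      HasSum (fun n : ℕ => (n : ℝ) * (c n).re * s ^ n) (s * D) := by
  obtain ⟨c, hc, hcb⟩ := coeffs hv hb
  obtain ⟨D, hD1, hD2⟩ := ser_deriv hc (C := max ‖c 0‖ (4 / π)) (fun n => by
    rcases Nat.eq_zero_or_pos n with h | h
    · rw [h]; exact le_max_left _ _
    · exact (hcb n h).trans (le_max_right _ _)) hs0 hs1
  exact ⟨D, c, hD1, hc, hcb, hD2⟩

theorem keyK {v : ℂ → ℝ} (hv : HarmonicOnNhd v (closedBall 0 1)) (hb : ∀ z ∈ closedBall (0 : ℂ) 1, |v z| ≤ 1)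
    {s D m : ℝ} (hs0 : 0 < s) (hs1 : s ≤ 1 / 1000) (hm0 : 0 < m) (hm1 : m < 1)
    (hD : HasDerivAt (fun t : ℝ => v t) D s) (hvs : v s = m) (hm : ∀ z : ℂ, ‖z‖ ≤ s → |v z| ≤ m) :
    D ≤ m * (-Real.log m) / den s := by
  rcases le_or_gt (1 / 2) m with h1 | h1
  · exact caseA hs0 hs1 h1 hm1.le (regA hv hb hs0 (by linarith) hD hvs)
  rcases le_or_gt (U s) m with h2 | h2
  · exact caseB hs0 hs1 h2 h1.le (regB hv hb hs0 (by linarith) hD hvs hm h2)
  rcases le_or_gt s m with h3 | h3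
  · exact caseC hs0 hs1 h3 h2.le (regC hv hb hs0 (by linarith) hD hvs hm)
  obtain ⟨D', c, hD', hc, hcb, hsum⟩ := exists_deriv hv hb hs0 (by linarith : s < 1)
  have hDD : D' = D := hD'.unique hD
  rw [hDD] at hsum
  refine real3 hs0 hs1 hm0 h3.le ?_ ?_ ?_
  · intro N hN
    obtain ⟨w, θ, K, hK, hK1, hK2, hK3, hw⟩ := szego hN
    have h4 := bern hc hcb hs0 (by linarith) hm hsum w θ K hK (k := N + 1) (by omega) hK1 hK2 hK3
    rw [hw] at h4
    exact h4
  · obtain ⟨w, θ, K, hK, hK1, hK2, hK3, hw⟩ := spec2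
    have h4 := bern hc hcb hs0 (by linarith) hm hsum w θ K hK (k := 2) (by omega) hK1 hK2 hK3
    rw [hw] at h4
    exact h4
  · obtain ⟨w, θ, K, hK, hK1, hK2, hK3, hw⟩ := spec3
    have h4 := bern hc hcb hs0 (by linarith) hm hsum w θ K hK (k := 3) (by omega) hK1 hK2 hK3
    rw [hw] at h4
    exact h4

theorem deriv_cmp_left {f g : ℝ → ℝ} {s D E q : ℝ} (hf : HasDerivAt f D s) (hg : HasDerivAt g E s) (h0 : f s = g s)
    (hq : q < s) (h : ∀ t, q < t → t < s → f t ≤ g t) : E ≤ D := by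
  have h1 : Filter.Tendsto (slope f s) (nhdsWithin s (Iio s)) (nhds D) :=
    (hasDerivAt_iff_tendsto_slope.1 hf).mono_left (nhdsWithin_mono s fun x hx => ne_of_lt hx)
  have h2 : Filter.Tendsto (slope g s) (nhdsWithin s (Iio s)) (nhds E) :=
    (hasDerivAt_iff_tendsto_slope.1 hg).mono_left (nhdsWithin_mono s fun x hx => ne_of_lt hx)
  refine le_of_tendsto_of_tendsto h2 h1 ?_
  filter_upwards [Ioo_mem_nhdsLT hq] with t ht
  rw [slope_def_field, slope_def_field, h0]
  exact div_le_div_of_nonpos_of_le (by linarith [ht.2]) (by linarith [h t ht.1 ht.2])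

/-- the barrier -/
noncomputable def bar (lam ε r : ℝ) : ℝ := Real.exp (-((lam - ε * (1 + r)) * (-Real.log (U r))))

theorem bar_deriv {lam ε r : ℝ} (hr0 : 0 < r) (hr1 : r < 1) :
    HasDerivAt (bar lam ε) (bar lam ε r * (-Real.log (bar lam ε r)) / den r + bar lam ε r * (ε * (-Real.log (U r)))) r := by
  have hU := U_pos hr0
  have h1 : HasDerivAt (fun r : ℝ => -Real.log (U r)) (-((4 / π * (1 / (1 + r ^ 2))) / U r)) r :=
    ((hasDerivAt_U r).log hU.ne').neg
  have h2 : HasDerivAt (fun r : ℝ => lam - ε * (1 + r)) (-ε) r := by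
    simpa using (((hasDerivAt_id r).const_add 1).const_mul ε).const_sub lam
  have h3 := ((h2.mul h1).neg).exp
  have hL := L_pos hr0 hr1
  have hat : 0 < Real.arctan r := Real.arctan_pos.2 hr0
  refine h3.congr_deriv ?_
  have hlog : -Real.log (bar lam ε r) = (lam - ε * (1 + r)) * (-Real.log (U r)) := by
    unfold bar
    rw [Real.log_exp, neg_neg]
  have e1 : (lam - ε * (1 + r)) * (-Real.log (U r)) / den r = (lam - ε * (1 + r)) * ((4 / π * (1 / (1 + r ^ 2))) / U r) := by
    unfold den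
    have hne : -Real.log (U r) ≠ 0 := hL.ne'
    have e2 : 4 / π * (1 / (1 + r ^ 2)) / U r = 1 / ((1 + r ^ 2) * Real.arctan r) := by
      unfold U
      field_simp
    rw [e2]
    rw [mul_div_assoc]
    congr 1
    rw [div_eq_div_iff (by positivity) (by positivity)]
    ring
  show Real.exp (-((lam - ε * (1 + r)) * (-Real.log (U r)))) *
    (-(-ε * (-Real.log (U r)) + (lam - ε * (1 + r)) * (-((4 / π * (1 / (1 + r ^ 2))) / U r)))) = _
  rw [hlog, mul_div_assoc (bar lam ε r) ((lam - ε * (1 + r)) * (-Real.log (U r))) (den r), e1]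
  unfold bar
  ring

theorem barrier {v : ℂ → ℝ} (hv : HarmonicOnNhd v (closedBall 0 1)) (hb1 : ∀ z ∈ closedBall (0 : ℂ) 1, |v z| ≤ 1)
    {a b m : ℝ} (ha : 0 < a) (hab : a < b) (hb : b ≤ 1 / 1000) (hm0 : 0 < m)
    (hm : ∀ z : ℂ, ‖z‖ ≤ a → |v z| ≤ m) {ε : ℝ} (hε : 0 < ε) (hε2 : 2 * ε < Real.log m / Real.log (U a)) :
    |v b| ≤ bar (Real.log m / Real.log (U a)) ε b := by
  set lam := Real.log m / Real.log (U a) with hlam
  have hb0 : 0 < b := ha.trans hab
  by_contra hcon
  push Not at hcon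
  have hanti : ∀ x y : ℝ, 0 < x → x ≤ y → y ≤ 1 / 1000 → bar lam ε x ≤ bar lam ε y := by
    intro x y hx hxy hy
    unfold bar
    refine Real.exp_le_exp.2 (neg_le_neg ?_)
    have h1 := Real.log_le_log (U_pos hx) (U_mono hxy)
    have h2 := L_pos (hx.trans_le hxy) (by linarith : y < 1)
    have h3 : ε * (1 + x) ≤ ε * (1 + y) := mul_le_mul_of_nonneg_left (by linarith) hε.le
    have h4 : ε * (1 + y) ≤ ε * 2 := mul_le_mul_of_nonneg_left (by linarith) hε.le
    refine mul_le_mul (by linarith) (by linarith) h2.le (by linarith)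
  have hma : m < bar lam ε a := by
    have h1 : m = Real.exp (Real.log m) := (Real.exp_log hm0).symm
    rw [h1]
    unfold bar
    refine Real.exp_lt_exp.2 ?_
    have h2 := L_pos ha (by linarith)
    have h3 : lam * (-Real.log (U a)) = -Real.log m := by
      rw [hlam]
      have : Real.log (U a) ≠ 0 := by
        intro h; rw [h] at h2; simp at h2
      field_simp
    have h4 : 0 < ε * (1 + a) * (-Real.log (U a)) := by positivity
    linarith
  have hvc : ContinuousOn v (closedBall 0 1) := hv.continuousOn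
  have hbarc : ContinuousOn (bar lam ε) (Icc a b) := fun x hx =>
    (bar_deriv (ha.trans_le hx.1) (by linarith [hx.2])).continuousAt.continuousWithinAt
  set A : Set ℂ := closedBall 0 b ∩ {z : ℂ | a ≤ ‖z‖} with hA
  have hAc : IsCompact A := (isCompact_closedBall 0 b).inter_right (isClosed_le continuous_const continuous_norm)
  have hAsub : A ⊆ closedBall 0 1 := fun z hz => by
    have := hz.1
    rw [mem_closedBall_zero_iff] at this ⊢
    linarith
  have hAn : ∀ z ∈ A, ‖z‖ ∈ Icc a b := fun z hz => ⟨hz.2, by simpa using hz.1⟩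
  have hgc : ContinuousOn (fun z : ℂ => |v z| - bar lam ε ‖z‖) A := by
    refine ((hvc.mono hAsub).abs).sub ?_
    exact hbarc.comp continuous_norm.continuousOn hAn
  set S : Set ℂ := A ∩ (fun z : ℂ => |v z| - bar lam ε ‖z‖) ⁻¹' Ici 0 with hS
  have hSc : IsCompact S := by
    have h1 : IsClosed S := hgc.preimage_isClosed_of_isClosed hAc.isClosed isClosed_Ici
    exact hAc.of_isClosed_subset h1 inter_subset_left
  have hSne : S.Nonempty := by
    refine ⟨(b : ℂ), ⟨?_, ?_⟩, ?_⟩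
    · rw [mem_closedBall_zero_iff, Complex.norm_real, Real.norm_of_nonneg hb0.le]
    · show a ≤ ‖(b : ℂ)‖
      rw [Complex.norm_real, Real.norm_of_nonneg hb0.le]
      exact hab.le
    · show 0 ≤ |v b| - bar lam ε ‖(b : ℂ)‖
      rw [Complex.norm_real, Real.norm_of_nonneg hb0.le]
      linarith
  obtain ⟨z0, hz0, hmin⟩ := hSc.exists_isMinOn hSne continuous_norm.continuousOn
  set r := ‖z0‖ with hr
  have hr1 : a ≤ r := hz0.1.2
  have hr2 : r ≤ b := (hAn z0 hz0.1).2
  have hz1 : bar lam ε r ≤ |v z0| := by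
    have h1 : 0 ≤ |v z0| - bar lam ε ‖z0‖ := hz0.2
    linarith
  have hra : a < r := by
    rcases hr1.eq_or_lt with h | h
    · exfalso
      have h1 := hm z0 (by rw [← hr, ← h])
      rw [← h] at hz1
      linarith
    · exact h
  have hr0 : 0 < r := ha.trans hra
  have hlt : ∀ z : ℂ, a ≤ ‖z‖ → ‖z‖ < r → |v z| < bar lam ε ‖z‖ := by
    intro z hz1 hz2
    by_contra hc
    push Not at hc
    have h1 : z ∈ S := by
      refine ⟨⟨?_, hz1⟩, ?_⟩
      · rw [mem_closedBall_zero_iff]; linarith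
      · show 0 ≤ |v z| - bar lam ε ‖z‖
        linarith
    have h2 : ‖z0‖ ≤ ‖z‖ := isMinOn_iff.1 hmin z h1
    linarith
  have hball : ∀ z : ℂ, ‖z‖ < r → |v z| ≤ bar lam ε r := by
    intro z hz
    rcases le_or_gt a ‖z‖ with h | h
    · exact (hlt z h hz).le.trans (hanti _ _ (ha.trans_le h) hz.le (by linarith))
    · exact (hm z h.le).trans (hma.le.trans (hanti _ _ ha hr1 (by linarith)))
  have hcball : ∀ z : ℂ, ‖z‖ ≤ r → |v z| ≤ bar lam ε r := by
    intro z hz
    have h1 : z ∈ closure (ball (0 : ℂ) r) := by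
      rw [closure_ball (0 : ℂ) hr0.ne', mem_closedBall_zero_iff]
      exact hz
    have h2 : ContinuousWithinAt (fun z : ℂ => |v z|) (ball 0 r) z := by
      have h3 : ContinuousWithinAt v (closedBall 0 1) z := hvc z (by rw [mem_closedBall_zero_iff]; linarith)
      exact (h3.mono (fun x hx => by
        rw [mem_ball_zero_iff] at hx
        rw [mem_closedBall_zero_iff]; linarith)).abs
    have h3 := mem_closure_iff_nhdsWithin_neBot.1 h1
    refine le_of_tendsto h2.tendsto ?_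
    filter_upwards [self_mem_nhdsWithin] with x hx
    exact hball x (by simpa using hx)
  set M0 := bar lam ε r with hM0
  have hM0pos : 0 < M0 := Real.exp_pos _
  have hM01 : M0 < 1 := by
    rw [hM0]
    unfold bar
    refine Real.exp_lt_one_iff.2 ?_
    have h2 := L_pos hr0 (by linarith)
    have h3 : ε * (1 + r) ≤ ε * 2 := mul_le_mul_of_nonneg_left (by linarith) hε.le
    have h4 : 0 < (lam - ε * (1 + r)) * (-Real.log (U r)) := mul_pos (by linarith) h2
    linarith
  have hvz : |v z0| = M0 := le_antisymm (hcball z0 hr.ge) hz1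
  -- rotation
  have hz0ne : z0 ≠ 0 := by
    intro h; rw [h, norm_zero] at hr; linarith
  set ζ : ℂ := z0 / r with hζ
  have hζn : ‖ζ‖ = 1 := by
    rw [hζ, norm_div, Complex.norm_real, Real.norm_of_nonneg hr0.le, ← hr]
    exact div_self hr0.ne'
  obtain ⟨c, hc⟩ : ∃ c : Circle, (c : ℂ) = ζ := by
    refine ⟨Circle.exp ζ.arg, ?_⟩
    rw [Circle.coe_exp]
    have := Complex.norm_mul_exp_arg_mul_I ζ
    rwa [hζn, Complex.ofReal_one, one_mul] at this
  obtain ⟨σ, hσ1, hσ2⟩ : ∃ σ : ℝ, |σ| = 1 ∧ σ * v z0 = M0 := by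
    rcases le_or_gt 0 (v z0) with h | h
    · exact ⟨1, by simp, by rw [one_mul, ← hvz, abs_of_nonneg h]⟩
    · exact ⟨-1, by simp, by rw [← hvz, abs_of_neg h]; ring⟩
  set w : ℂ → ℝ := fun z => σ * v (ζ * z) with hw
  have hwn : ∀ z : ℂ, ‖ζ * z‖ = ‖z‖ := fun z => by rw [norm_mul, hζn, one_mul]
  have hwabs : ∀ z, |w z| = |v (ζ * z)| := fun z => by
    simp only [hw]
    rw [abs_mul, hσ1, one_mul]
  have hwh : HarmonicOnNhd w (closedBall 0 1) := by
    intro z hz
    have h1 : HarmonicAt v ((rotation c) z) := hv _ (by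
      rw [rotation_apply, hc, mem_closedBall_zero_iff, hwn]
      simpa using hz)
    have h2 := harm_iso (rotation c) h1
    have h3 : w = σ • (v ∘ (rotation c)) := by
      funext x
      simp only [hw, Pi.smul_apply, Function.comp, smul_eq_mul, rotation_apply, hc]
    rw [h3]
    exact h2.const_smul
  have hwb : ∀ z ∈ closedBall (0 : ℂ) 1, |w z| ≤ 1 := by
    intro z hz
    rw [hwabs]
    refine hb1 _ ?_
    rw [mem_closedBall_zero_iff, hwn]
    simpa using hz
  have hζr : ζ * (r : ℂ) = z0 := by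
    rw [hζ]
    have : (r : ℂ) ≠ 0 := by exact_mod_cast hr0.ne'
    field_simp
  have hwr : w r = M0 := by
    simp only [hw, hζr]
    exact hσ2
  have hwm : ∀ z : ℂ, ‖z‖ ≤ r → |w z| ≤ M0 := by
    intro z hz
    rw [hwabs]
    exact hcball _ (by rw [hwn]; exact hz)
  obtain ⟨D, _, hD, _⟩ := exists_deriv hwh hwb hr0 (by linarith : r < 1)
  have hK := keyK hwh hwb hr0 (by linarith) hM0pos hM01 hD hwr hwm
  have hB := bar_deriv (lam := lam) (ε := ε) hr0 (by linarith : r < 1)
  have h1 := deriv_cmp_left hD hB hwr (q := a) hra fun t ht1 ht2 => by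
    have ht0 : 0 < t := ha.trans ht1
    have htn : ‖(t : ℂ)‖ = t := by rw [Complex.norm_real, Real.norm_of_nonneg ht0.le]
    have h2 := hlt (ζ * t) (by rw [hwn, htn]; exact ht1.le) (by rw [hwn, htn]; exact ht2)
    rw [hwn, htn] at h2
    exact (le_abs_self _).trans (by rw [hwabs]; exact h2.le)
  have h2 : 0 < bar lam ε r * (ε * (-Real.log (U r))) := by
    have := L_pos hr0 (by linarith)
    positivity
  linarith

theorem unitB {a b : ℝ} (ha : 0 < a) (hab : a < b) (hb : b ≤ 1 / 1000) (v : ℂ → ℝ)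
    (hv : HarmonicOnNhd v (closedBall (0 : ℂ) 1)) (h1 : ∀ z ∈ closedBall (0 : ℂ) 1, |v z| ≤ 1)
    (m : ℝ) (hm : ∀ z : ℂ, ‖z‖ ≤ a → |v z| ≤ m) : v b ≤ m ^ (Real.log (U b) / Real.log (U a)) := by
  have hb0 : 0 < b := ha.trans hab
  have hLa := L_pos ha (by linarith)
  have hLb := L_pos hb0 (by linarith)
  have hα : 0 < Real.log (U b) / Real.log (U a) := div_pos_of_neg_of_neg (by linarith) (by linarith)
  set α := Real.log (U b) / Real.log (U a) with hαdef
  have hv0 : |v 0| ≤ m := hm 0 (by simpa using ha.le)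
  have hm0 : 0 ≤ m := (abs_nonneg _).trans hv0
  have hpos : ∀ m' : ℝ, 0 < m' → m' < 1 → (∀ z : ℂ, ‖z‖ ≤ a → |v z| ≤ m') → v b ≤ m' ^ α := by
    intro m' hm'0 hm'1 hm'
    have hlm := Real.log_neg hm'0 hm'1
    have hlam : 0 < Real.log m' / Real.log (U a) := div_pos_of_neg_of_neg hlm (by linarith)
    have e1 : m' ^ α = bar (Real.log m' / Real.log (U a)) 0 b := by
      unfold bar
      rw [Real.rpow_def_of_pos hm'0, hαdef]
      congr 1
      ring
    rw [e1]
    have ht : Filter.Tendsto (fun ε : ℝ => bar (Real.log m' / Real.log (U a)) ε b) (nhdsWithin 0 (Ioi 0))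
        (nhds (bar (Real.log m' / Real.log (U a)) 0 b)) := by
      have h3 : Continuous (fun ε : ℝ => bar (Real.log m' / Real.log (U a)) ε b) := by
        unfold bar
        fun_prop
      exact (h3.tendsto 0).mono_left nhdsWithin_le_nhds
    refine ge_of_tendsto ht ?_
    filter_upwards [Ioo_mem_nhdsGT (show (0 : ℝ) < Real.log m' / Real.log (U a) / 2 by positivity)] with ε hε
    exact (le_abs_self _).trans (barrier hv h1 ha hab hb hm'0 hm' hε.1 (by linarith [hε.2]))
  rcases le_or_gt 1 m with hm1 | hm1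
  · have h2 : v b ≤ 1 := (le_abs_self _).trans (h1 _ (by
      rw [mem_closedBall_zero_iff, Complex.norm_real, Real.norm_of_nonneg hb0.le]; linarith))
    exact h2.trans (Real.one_le_rpow hm1 hα.le)
  rcases hm0.eq_or_lt with hm2 | hm2
  · rw [← hm2, Real.zero_rpow hα.ne']
    have ht : Filter.Tendsto (fun m' : ℝ => m' ^ α) (nhdsWithin 0 (Ioi 0)) (nhds 0) := by
      have h3 := (Real.continuousAt_rpow_const 0 α (Or.inr hα.le)).tendsto
      rw [Real.zero_rpow hα.ne'] at h3
      exact h3.mono_left nhdsWithin_le_nhds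
    refine ge_of_tendsto ht ?_
    filter_upwards [Ioo_mem_nhdsGT (show (0 : ℝ) < 1 by norm_num)] with m' hm'
    exact hpos m' hm'.1 hm'.2 fun z hz => (hm z hz).trans (by rw [← hm2]; exact hm'.1.le)
  · exact hpos m hm2 hm1 hm

theorem small_radii : ∀ a b R : ℝ, 0 < a → a < b → b ≤ 1 / 1000 → 0 < R →
    aStar 2 (a * R) (b * R) R = Real.log (4 / π * Real.arctan b) / Real.log (4 / π * Real.arctan a) ∧
    Admissible 2 (a * R) (b * R) R (Real.log (4 / π * Real.arctan b) / Real.log (4 / π * Real.arctan a)) := by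
  intro a b R ha hab hb hR
  have hb0 : 0 < b := ha.trans hab
  have hb1 : b < 1 := by linarith
  have hUa := Real.log_neg (U_pos ha) (U_lt_one (hab.trans hb1))
  have hUb := Real.log_neg (U_pos hb0) (U_lt_one hb1)
  have hα0 : 0 < Real.log (U b) / Real.log (U a) := div_pos_of_neg_of_neg hUb hUa
  have hα1 : Real.log (U b) / Real.log (U a) < 1 := by
    rw [div_lt_one_of_neg hUa]
    exact Real.log_lt_log (U_pos ha) (U_lt hab)
  have hadm : Admissible 2 (a * R) (b * R) R (Real.log (U b) / Real.log (U a)) :=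
    adm_of_unit' ha hab hb1 hR hα1 (unit_transfer (unitB ha hab hb))
  refine ⟨?_, hadm⟩
  show aStar 2 (a * R) (b * R) R = Real.log (U b) / Real.log (U a)
  unfold aStar
  refine le_antisymm (Real.sSup_le ?_ hα0.le) ?_
  · rintro α ⟨_, _, h⟩
    exact adm_le ha hab hb1 hR h
  · refine le_csSup ⟨1, ?_⟩ ⟨hα0, hα1, hadm⟩
    rintro α ⟨_, h, _⟩
    exact h.le

end TBP
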